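import Pool.Agent.Helper5_Plane.Exist

/-!
# Critical points are algebraic
-/

namespace Pool.Agent.Helper5Plane

open Finset

lemma ay_ax {R : Type*} [CommRing R] (a : ℕ → ℕ → R) : ay (ax a) = ax (ay a) := by
  funext i j
  simp only [ax, ay]
  ring

/-- Nondegenerate critical points are integral over the base field. -/
theorem crit_integral {k L : Type} [Field k] [Field L] [Algebra k L] (d : ℕ) (hd : 2 ≤ d)
    (a : ℕ → ℕ → k) (M : k) (hM : M ≠ 0)
    (hMS : MvPolynomial.C M ∈ Ideal.span
      ({val (d - 1) (ax (fun i j => MvPolynomial.C (a i j))) (MvPolynomial.X 0)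
          (MvPolynomial.X 1),
        val (d - 1) (ay (fun i j => MvPolynomial.C (a i j))) (MvPolynomial.X 0)
          (MvPolynomial.X 1),
        hess d (fun i j => MvPolynomial.C (a i j)) (MvPolynomial.X 0) (MvPolynomial.X 1)} :
          Set (MvPolynomial (Fin 2) k))) (x y : L)
    (hx : val (d - 1) (ax (fun i j => algebraMap k L (a i j))) x y = 0)
    (hy : val (d - 1) (ay (fun i j => algebraMap k L (a i j))) x y = 0) :
    IsIntegral k x ∧ IsIntegral k y := by
  set f : MvPolynomial (Fin 2) k →ₐ[k] L := MvPolynomial.aeval ![x, y] with hf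
  set S := f.range with hS
  set fr : MvPolynomial (Fin 2) k →ₐ[k] S := f.rangeRestrict with hfr
  have hfs : Function.Surjective fr := f.rangeRestrict_surjective
  set xs : S := fr (MvPolynomial.X 0) with hxs
  set ys : S := fr (MvPolynomial.X 1) with hys
  have hxs' : (xs : L) = x := by
    simp [hxs, hfr, hf]
  have hys' : (ys : L) = y := by
    simp [hys, hfr, hf]
  set aS : ℕ → ℕ → S := fun i j => algebraMap k S (a i j) with haS
  have hval : ∀ (e : ℕ) (b : ℕ → ℕ → S), ((val e b xs ys : S) : L) =
      val e (fun i j => (b i j : L)) x y := by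
    intro e b
    have := map_val (S.val : S →+* L) e b xs ys
    simpa [hxs', hys'] using this
  have hgx : val (d - 1) (ax aS) xs ys = 0 := by
    apply Subtype.ext
    rw [hval]
    have : (fun i j => ((ax aS i j : S) : L)) = ax (fun i j => algebraMap k L (a i j)) := by
      funext i j
      simp [ax, haS]
    rw [this, hx]
    rfl
  have hgy : val (d - 1) (ay aS) xs ys = 0 := by
    apply Subtype.ext
    rw [hval]
    have : (fun i j => ((ay aS i j : S) : L)) = ay (fun i j => algebraMap k L (a i j)) := by
      funext i j
      simp [ay, haS]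
    rw [this, hy]
    rfl
  -- the Hessian is a unit
  obtain ⟨h, hh⟩ : ∃ h : S, h * hess d aS xs ys = 1 := by
    rw [Ideal.mem_span_insert] at hMS
    obtain ⟨g1, r1, hr1, e1⟩ := hMS
    rw [Ideal.mem_span_insert] at hr1
    obtain ⟨g2, r2, hr2, e2⟩ := hr1
    rw [Ideal.mem_span_singleton'] at hr2
    obtain ⟨g3, e3⟩ := hr2
    have e4 := congrArg fr e1
    rw [e2, ← e3, map_add, map_add, map_mul, map_mul, map_mul] at e4
    have hev : ∀ (e : ℕ) (b : ℕ → ℕ → MvPolynomial (Fin 2) k),
        fr (val e b (MvPolynomial.X 0) (MvPolynomial.X 1)) = val e (fun i j => fr (b i j)) xs ys :=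
      fun e b => map_val (fr : MvPolynomial (Fin 2) k →+* S) e b _ _
    have hevh : fr (hess d (fun i j => MvPolynomial.C (a i j)) (MvPolynomial.X 0)
        (MvPolynomial.X 1)) = hess d aS xs ys := by
      have := map_hess (fr : MvPolynomial (Fin 2) k →+* S) d
        (fun i j => MvPolynomial.C (a i j)) (MvPolynomial.X 0) (MvPolynomial.X 1)
      simp only [RingHom.coe_coe] at this
      rw [this]
      congr 1
      funext i j
      rw [← MvPolynomial.algebraMap_eq, AlgHom.commutes]
    have hb1 : (fun i j => fr (ax (fun i j => MvPolynomial.C (a i j)) i j)) = ax aS := by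
      funext i j
      simp only [ax, map_mul, map_natCast, haS]
      rw [← MvPolynomial.algebraMap_eq, AlgHom.commutes]
    have hb2 : (fun i j => fr (ay (fun i j => MvPolynomial.C (a i j)) i j)) = ay aS := by
      funext i j
      simp only [ay, map_mul, map_natCast, haS]
      rw [← MvPolynomial.algebraMap_eq, AlgHom.commutes]
    rw [hev, hev, hb1, hb2, hgx, hgy, hevh, mul_zero, zero_add, mul_zero, zero_add,
      ← MvPolynomial.algebraMap_eq, AlgHom.commutes] at e4
    refine ⟨algebraMap k S M⁻¹ * fr g3, ?_⟩
    rw [mul_assoc, ← e4, ← map_mul, inv_mul_cancel₀ hM, map_one]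
  -- the module of differentials vanishes
  set D := KaehlerDifferential.D k S with hD
  have hDa : ∀ i j, D (aS i j) = 0 := fun i j => D.map_algebraMap _
  have hDax : ∀ i j, D (ax aS i j) = 0 := by
    intro i j
    simp only [ax, Derivation.leibniz, hDa, smul_zero, Derivation.map_natCast, add_zero]
  have hDay : ∀ i j, D (ay aS i j) = 0 := by
    intro i j
    simp only [ay, Derivation.leibniz, hDa, smul_zero, Derivation.map_natCast, add_zero]
  have r1 := derivation_val D (d - 1) (by omega) (ax aS) hDax xs ys
  have r2 := derivation_val D (d - 1) (by omega) (ay aS) hDay xs ys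
  rw [hgx, map_zero, ay_ax, show d - 1 - 1 = d - 2 by omega] at r1
  rw [hgy, map_zero, show d - 1 - 1 = d - 2 by omega] at r2
  have hess_eq : hess d aS xs ys = val (d - 2) (ax (ax aS)) xs ys * val (d - 2) (ay (ay aS)) xs ys
    - val (d - 2) (ax (ay aS)) xs ys ^ 2 := rfl
  set p := val (d - 2) (ax (ax aS)) xs ys
  set q := val (d - 2) (ax (ay aS)) xs ys
  set r := val (d - 2) (ay (ay aS)) xs ys
  have hDx : D xs = 0 := by
    have e1 : hess d aS xs ys • D xs = 0 := by
      have : r • (p • D xs + q • D ys) - q • (q • D xs + r • D ys) = hess d aS xs ys • D xs := by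
        rw [hess_eq]
        module
      rw [← this, ← r1, ← r2, smul_zero, smul_zero, sub_zero]
    calc D xs = (h * hess d aS xs ys) • D xs := by rw [hh, one_smul]
      _ = h • (hess d aS xs ys • D xs) := by rw [mul_smul]
      _ = 0 := by rw [e1, smul_zero]
  have hDy : D ys = 0 := by
    have e1 : hess d aS xs ys • D ys = 0 := by
      have : p • (q • D xs + r • D ys) - q • (p • D xs + q • D ys) = hess d aS xs ys • D ys := by
        rw [hess_eq]
        module
      rw [← this, ← r1, ← r2, smul_zero, smul_zero, sub_zero]
    calc D ys = (h * hess d aS xs ys) • D ys := by rw [hh, one_smul]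
      _ = h • (hess d aS xs ys • D ys) := by rw [mul_smul]
      _ = 0 := by rw [e1, smul_zero]
  have hDall : ∀ p : MvPolynomial (Fin 2) k, D (fr p) = 0 := by
    intro p
    induction p using MvPolynomial.induction_on with
    | C r =>
      rw [← MvPolynomial.algebraMap_eq, AlgHom.commutes, Derivation.map_algebraMap]
    | add p q hp hq => rw [map_add, map_add, hp, hq, add_zero]
    | mul_X p i hp =>
      rw [map_mul, Derivation.leibniz, hp, smul_zero, add_zero]
      fin_cases i
      · show fr p • D xs = 0
        rw [hDx, smul_zero]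
      · show fr p • D ys = 0
        rw [hDy, smul_zero]
  have hsub : Subsingleton (Ω[S⁄k]) := by
    have htop : (⊤ : Submodule S (Ω[S⁄k])) = ⊥ := by
      rw [← KaehlerDifferential.span_range_derivation, Submodule.span_eq_bot]
      rintro _ ⟨s, rfl⟩
      obtain ⟨p, rfl⟩ := hfs s
      exact hDall p
    exact (Submodule.subsingleton_iff S).mp ((subsingleton_iff_bot_eq_top).mp htop.symm)
  have hunr : Algebra.FormallyUnramified k S := ⟨hsub⟩
  have hft : Algebra.FiniteType k S := Algebra.FiniteType.of_surjective fr hfs
  have hfin : Module.Finite k S := Algebra.FormallyUnramified.finite_of_free k S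
  have hint : Algebra.IsIntegral k S := Algebra.IsIntegral.of_finite k S
  constructor
  · have := (hint.isIntegral xs).map S.val
    rw [← hxs']
    exact this
  · have := (hint.isIntegral ys).map S.val
    rw [← hys']
    exact this

end Pool.Agent.Helper5Plane
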