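import Pool.Agent.Helper5_Plane.Box

/-!
# Almost all plane curves: assembly
-/

namespace Pool.Agent.Helper5Plane

open Finset Polynomial Helper5Frey

/-- The radical lemma (proved in `Helper94_Rad`). -/
def RadHyp : Prop := ∀ (D B : ℕ) (ε δ : ℝ), 2 ≤ D → 0 < ε → 0 < δ → ∃ H₀ : ℕ, ∀ H : ℕ, H₀ ≤ H →
  ∀ (R : ℤ[X]) (K : ℕ), RAD.Good D B H R K →
    ({c : ℤ | |c| ≤ (H : ℤ) ∧ (R.eval c = 0 ∨
      (partRad K (R.eval c).natAbs : ℝ) ≤ (H : ℝ) ^ (2 - ε))}.ncard : ℝ) ≤ δ * H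

lemma genus_pos (d : ℕ) (hd : 3 ≤ d) : 1 ≤ genus d := by
  obtain ⟨e, rfl⟩ : ∃ e, d = e + 3 := ⟨d - 3, by omega⟩
  unfold genus
  have h : 2 ≤ (e + 3 - 1) * (e + 3 - 2) := by
    have h1 : e + 3 - 1 = e + 2 := by omega
    have h2 : e + 3 - 2 = e + 1 := by omega
    rw [h1, h2]
    nlinarith
  omega

open scoped Classical in
/-- Almost all constant terms, uniformly in the other coefficients. -/
theorem line_good (hrad : RadHyp) (d : ℕ) (hd : 3 ≤ d) (C₀ : ℝ)
    (hht : ∀ (H L : ℕ), 1 ≤ L → L ≤ H → ∀ (a : ℕ → ℕ → ℤ) (c : ℤ),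
      (∀ i j, i + j ≤ d → |a i j| ≤ L) → |c| ≤ H → GoodInfty d (fun i j => (a i j : ℂ)) →
      FibSep d (fun i j => (a i j : ℂ)) (c : ℂ) →
      hW d a c ≤ C₀ + genus d / 3 * Real.log ((H : ℝ) * L ^ 2))
    (κ : ℝ) (hκ : (genus d : ℝ) / 2 < κ) (δ : ℝ) (hδ : 0 < δ) :
    ∃ (M : MvPolynomial (CoefIdx d) ℤ) (N H₁ : ℕ), M ≠ 0 ∧ ∀ H : ℕ, H₁ ≤ H →
      ∀ b : CoefIdx d → ℤ, (∀ p, |b p| ≤ (H : ℤ)) → MvPolynomial.eval b M ≠ 0 →
        (((Finset.Icc (-(H : ℤ)) H).filter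
          (fun c => ¬ FreyHolds d κ C₀ (coef d b) c)).card : ℝ) ≤ N + δ * H := by
  have hM := generic_morse d hd
  rw [ga_eq] at hM
  obtain ⟨M, R, N, hM0, hR0, hR2, ⟨U, V, hUV⟩, hfam, hbad⟩ :=
    family2 (A := MvPolynomial (CoefIdx d) ℤ) d (by omega) (coef d MvPolynomial.X) hM
  have hdeg : 2 ≤ R.natDegree := hR2 (fun x y hx hy =>
    no_rational d hd (FractionRing (MvPolynomial (CoefIdx d) ℤ)) x y hx hy)
  obtain ⟨B, H2, hB⟩ := coef_bound R M
  have hg : (1 : ℝ) ≤ genus d := by exact_mod_cast genus_pos d hd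
  have hκ0 : 0 < κ := by linarith
  set ε : ℝ := 2 - genus d / κ with hε
  have hε0 : 0 < ε := by
    have : (genus d : ℝ) / κ < 2 := by
      rw [div_lt_iff₀ hκ0]
      linarith
    linarith
  obtain ⟨H3, hH3⟩ := hrad R.natDegree B ε δ hdeg hε0 hδ
  refine ⟨M, N, max (max H2 H3) 1, hM0, ?_⟩
  intro H hH b hb hbM
  have hHa : H2 ≤ H := by omega
  have hHb : H3 ≤ H := by omega
  have hHc : 1 ≤ H := by omega
  have hH1 : (1 : ℝ) ≤ H := by exact_mod_cast hHc
  have hH0 : (0 : ℝ) < H := by linarith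
  obtain ⟨hc1, hc2⟩ := hB H hHa b hb
  have hGood := good_of_family M R U V hUV (fun Ω _ φ hφ => (hfam Ω φ hφ).2.1)
    (MvPolynomial.eval b) hbM B H hc1 hc2
  have hcount := hH3 H hHb _ _ hGood
  set K := (MvPolynomial.eval b M).natAbs with hK
  set Rb := R.map (MvPolynomial.eval b) with hRb
  have hcoef : (fun i j => MvPolynomial.eval b (coef d MvPolynomial.X i j)) = coef d b := by
    funext i j
    rw [coef_map]
    simp
  have habs : ∀ i j, |coef d b i j| ≤ (H : ℤ) := by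
    intro i j
    unfold coef
    split_ifs
    · exact hb _
    · simp
  -- the complex specialisation
  have hψM : ((Int.castRingHom ℂ).comp (MvPolynomial.eval b)) M ≠ 0 := by
    simpa using hbM
  have hψ : (fun i j => ((Int.castRingHom ℂ).comp (MvPolynomial.eval b))
      (coef d MvPolynomial.X i j)) = fun i j => ((coef d b i j : ℤ) : ℂ) := by
    funext i j
    rw [RingHom.comp_apply, ← congrFun (congrFun hcoef i) j]
    simp
  have hI := (hfam ℂ _ hψM).1
  rw [hψ] at hI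
  obtain ⟨Bad, hBad, hgood⟩ := hbad _ hψM
  rw [hψ] at hgood
  have hsub : (Finset.Icc (-(H : ℤ)) H).filter (fun c => ¬ FreyHolds d κ C₀ (coef d b) c) ⊆
      (Finset.Icc (-(H : ℤ)) H).filter (fun c : ℤ => (c : ℂ) ∈ Bad) ∪
      (Finset.Icc (-(H : ℤ)) H).filter (fun c => Rb.eval c = 0 ∨
        (partRad K (Rb.eval c).natAbs : ℝ) ≤ (H : ℝ) ^ (2 - ε)) := by
    intro c hc
    rw [Finset.mem_filter] at hc
    obtain ⟨hc1, hc2⟩ := hc
    rw [Finset.mem_union, Finset.mem_filter, Finset.mem_filter]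
    by_cases hbb : (c : ℂ) ∈ Bad
    · left
      exact ⟨hc1, hbb⟩
    · right
      refine ⟨hc1, ?_⟩
      by_contra hno
      push Not at hno
      obtain ⟨hR1, hR2⟩ := hno
      obtain ⟨hsm, hsep⟩ := hgood _ hbb
      have hfin := nodePrimes_finite d (coef d b) c hsm
      apply hc2
      refine ⟨hI, hsm, hfin, ?_⟩
      have hcabs : |c| ≤ H := by
        rw [Finset.mem_Icc] at hc1
        exact abs_le.mpr hc1
      have h1 := hht H H hHc le_rfl (coef d b) c (fun i j _ => habs i j) hcabs hI hsep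
      have h2 : (partRad K (Rb.eval c).natAbs : ℝ) ≤ Nstar d (coef d b) c := by
        have := partRad_le_Nstar d (coef d b) c K (Rb.eval c) hfin (fun p hp hpK hpd => by
          have h3 := node_of_dvd d (coef d MvPolynomial.X) M R (fun Ω _ φ hφ => hfam Ω φ hφ)
            (MvPolynomial.eval b) p c hp hpK hpd
          rw [hcoef] at h3
          exact h3)
        exact_mod_cast this
      have h3 : (H : ℝ) ^ (2 - ε) < Nstar d (coef d b) c := lt_of_lt_of_le hR2 h2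
      have h4 : Real.log ((H : ℝ) ^ (2 - ε)) ≤ Real.log (Nstar d (coef d b) c) :=
        Real.log_le_log (by positivity) h3.le
      rw [Real.log_rpow hH0] at h4
      have h5 : κ * ((2 - ε) * Real.log H) ≤ κ * Real.log (Nstar d (coef d b) c) := by
        gcongr
      have h6 : κ * ((2 - ε) * Real.log H) = genus d * Real.log H := by
        rw [hε]
        field_simp
        ring
      have h7 : (genus d : ℝ) / 3 * Real.log ((H : ℝ) * H ^ 2) = genus d * Real.log H := by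
        rw [← pow_succ', Real.log_pow]
        push_cast
        ring
      linarith
  have hcardBad : ((Finset.Icc (-(H : ℤ)) H).filter (fun c : ℤ => (c : ℂ) ∈ Bad)).card ≤ N := by
    refine le_trans ?_ hBad
    apply Finset.card_le_card_of_injOn (fun c : ℤ => (c : ℂ))
    · intro c hc
      have := (Finset.mem_filter.mp (Finset.mem_coe.mp hc)).2
      exact Finset.mem_coe.mpr this
    · intro x _ y _ hxy
      exact Int.cast_injective hxy
  have hset : {c : ℤ | |c| ≤ (H : ℤ) ∧ (Rb.eval c = 0 ∨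
      (partRad K (Rb.eval c).natAbs : ℝ) ≤ (H : ℝ) ^ (2 - ε))} =
      (((Finset.Icc (-(H : ℤ)) H).filter (fun c => Rb.eval c = 0 ∨
        (partRad K (Rb.eval c).natAbs : ℝ) ≤ (H : ℝ) ^ (2 - ε)) : Finset ℤ) : Set ℤ) := by
    ext c
    simp only [Set.mem_ofPred_eq, Finset.coe_filter, Finset.mem_Icc, abs_le]
  rw [hset, Set.ncard_coe_finset] at hcount
  have h1 := (Finset.card_le_card hsub).trans (Finset.card_union_le _ _)
  have h2 : (((Finset.Icc (-(H : ℤ)) H).filter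
      (fun c => ¬ FreyHolds d κ C₀ (coef d b) c)).card : ℝ) ≤
      (((Finset.Icc (-(H : ℤ)) H).filter (fun c : ℤ => (c : ℂ) ∈ Bad)).card : ℝ) +
      (((Finset.Icc (-(H : ℤ)) H).filter (fun c => Rb.eval c = 0 ∨
        (partRad K (Rb.eval c).natAbs : ℝ) ≤ (H : ℝ) ^ (2 - ε))).card : ℝ) := by
    exact_mod_cast h1
  have h3 : (((Finset.Icc (-(H : ℤ)) H).filter (fun c : ℤ => (c : ℂ) ∈ Bad)).card : ℝ)
      ≤ N := by
    exact_mod_cast hcardBad
  linarith

/-- **Almost all plane curves.** -/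
theorem almost_all (hrad : RadHyp) (d : ℕ) (hd : 3 ≤ d) : ∃ C₀ : ℝ, ∀ κ : ℝ,
    (genus d : ℝ) / 2 < κ → ∀ δ : ℝ, 0 < δ → ∃ H₀ : ℕ, ∀ H : ℕ, H₀ ≤ H →
      ({q : (CoefIdx d → ℤ) × ℤ | (∀ p, |q.1 p| ≤ H) ∧ |q.2| ≤ H ∧
        ¬ FreyHolds d κ C₀ (coef d q.1) q.2}.ncard : ℝ) ≤
          δ * {q : (CoefIdx d → ℤ) × ℤ | (∀ p, |q.1 p| ≤ H) ∧ |q.2| ≤ H}.ncard := by
  classical
  obtain ⟨C₀, hC₀, hht⟩ := hW_le_HL d hd
  refine ⟨C₀, ?_⟩
  intro κ hκ δ hδ
  obtain ⟨M, N, H₁, hM, hline⟩ := line_good hrad d hd C₀ hht κ hκ (δ / 2) (by positivity)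
  obtain ⟨T, hT⟩ : ∃ T : ℕ, (M.totalDegree + N : ℝ) ≤ T * (δ / 2) := by
    obtain ⟨T, hT⟩ := exists_nat_ge ((M.totalDegree + N : ℝ) / (δ / 2))
    refine ⟨T, ?_⟩
    rwa [div_le_iff₀ (by positivity)] at hT
  refine ⟨max H₁ T, ?_⟩
  intro H hH
  have hHa : H₁ ≤ H := le_trans (le_max_left _ _) hH
  have hHT : T ≤ H := le_trans (le_max_right _ _) hH
  have hcS : (Finset.Icc (-(H : ℤ)) H).card = 2 * H + 1 := by
    rw [Int.card_Icc]
    omega
  set S : Finset ℤ := Finset.Icc (-(H : ℤ)) H with hS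
  set P : Finset (CoefIdx d → ℤ) := Fintype.piFinset (fun _ => S) with hP
  have hPcard : P.card = (2 * H + 1) ^ Fintype.card (CoefIdx d) := by
    rw [hP, Fintype.card_piFinset, Finset.prod_const, hcS, Finset.card_univ]
  have hbox : {q : (CoefIdx d → ℤ) × ℤ | (∀ p, |q.1 p| ≤ H) ∧ |q.2| ≤ H} =
      ((P ×ˢ S : Finset ((CoefIdx d → ℤ) × ℤ)) : Set ((CoefIdx d → ℤ) × ℤ)) := by
    ext q
    simp only [Set.mem_ofPred_eq, Finset.mem_coe, Finset.mem_product, hP, Fintype.mem_piFinset, hS,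
      Finset.mem_Icc, abs_le]
  have hbad : {q : (CoefIdx d → ℤ) × ℤ | (∀ p, |q.1 p| ≤ H) ∧ |q.2| ≤ H ∧
      ¬ FreyHolds d κ C₀ (coef d q.1) q.2} =
      (((P ×ˢ S).filter (fun q => ¬ FreyHolds d κ C₀ (coef d q.1) q.2) :
        Finset ((CoefIdx d → ℤ) × ℤ)) : Set ((CoefIdx d → ℤ) × ℤ)) := by
    ext q
    simp only [Set.mem_ofPred_eq, Finset.coe_filter, Finset.mem_product, hP, Fintype.mem_piFinset,
      hS, Finset.mem_Icc, abs_le, and_assoc]
  rw [hbox, hbad, Set.ncard_coe_finset, Set.ncard_coe_finset, Finset.card_product, hcS, hPcard]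
  set W : ℕ := (2 * H + 1) ^ Fintype.card (CoefIdx d) with hW
  set Z := (P.filter (fun b => MvPolynomial.eval b M = 0)).card with hZ
  have hsz := sz_count M hM H
  have hfib : ((P ×ˢ S).filter (fun q => ¬ FreyHolds d κ C₀ (coef d q.1) q.2)).card =
      ∑ b ∈ P, (S.filter (fun c => ¬ FreyHolds d κ C₀ (coef d b) c)).card := by
    rw [Finset.card_filter, Finset.sum_product]
    refine Finset.sum_congr rfl fun b _ => ?_
    rw [Finset.card_filter]
  have hterm : ∀ b ∈ P, ((S.filter (fun c => ¬ FreyHolds d κ C₀ (coef d b) c)).card : ℝ) ≤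
      (if MvPolynomial.eval b M = 0 then (2 * (H : ℝ) + 1) else 0) + (N + δ / 2 * H) := by
    intro b hb
    have hb' : ∀ p, |b p| ≤ (H : ℤ) := by
      intro p
      have := (Fintype.mem_piFinset.mp hb) p
      rw [hS, Finset.mem_Icc] at this
      exact abs_le.mpr this
    split_ifs with h0
    · have h1 : ((S.filter (fun c => ¬ FreyHolds d κ C₀ (coef d b) c)).card : ℝ) ≤ S.card := by
        exact_mod_cast Finset.card_filter_le _ _
      rw [hcS] at h1
      push_cast at h1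
      have : (0 : ℝ) ≤ N + δ / 2 * H := by positivity
      linarith
    · rw [zero_add]
      exact hline H hHa b hb' h0
  rw [hfib]
  have hHT' : (T : ℝ) ≤ H := by exact_mod_cast hHT
  have hWr : ((W : ℕ) : ℝ) = (2 * (H : ℝ) + 1) ^ Fintype.card (CoefIdx d) := by
    rw [hW]
    push_cast
    ring
  calc ((∑ b ∈ P, (S.filter (fun c => ¬ FreyHolds d κ C₀ (coef d b) c)).card : ℕ) : ℝ)
      = ∑ b ∈ P, ((S.filter (fun c => ¬ FreyHolds d κ C₀ (coef d b) c)).card : ℝ) := by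
        push_cast
        rfl
    _ ≤ ∑ b ∈ P, ((if MvPolynomial.eval b M = 0 then (2 * (H : ℝ) + 1) else 0) +
          (N + δ / 2 * H)) := Finset.sum_le_sum hterm
    _ = Z * (2 * H + 1) + W * (N + δ / 2 * H) := by
        rw [Finset.sum_add_distrib, ← Finset.sum_filter, Finset.sum_const, Finset.sum_const,
          hPcard, nsmul_eq_mul, nsmul_eq_mul]
    _ ≤ M.totalDegree * W + W * (N + δ / 2 * H) := by
        rw [hWr]
        linarith
    _ = W * ((M.totalDegree + N) + δ / 2 * H) := by ring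
    _ ≤ W * (H * (δ / 2) + δ / 2 * H) := by
        gcongr
        exact hT.trans (by gcongr)
    _ ≤ δ * ((W * (2 * H + 1) : ℕ) : ℝ) := by
        push_cast
        have hW0 : (0 : ℝ) ≤ W := by positivity
        have hH0 : (0 : ℝ) ≤ H := by positivity
        have h1 : 0 ≤ (W : ℝ) * δ * (H + 1) := by positivity
        nlinarith

end Pool.Agent.Helper5Plane
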