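import Pool.Agent.Helper5_Plane.AlmostAll
import Pool.Agent.Helper94_Rad.Final

/-!
# Frey's inequality for almost all smooth plane curves

All definitions used by the statement are in `Pool.Agent.Helper5_Plane.Defs` and
`Pool.Agent.Helper5_Plane.Gen2` (`CoefIdx`, `coef`).
-/

namespace Pool.Agent.Helper5_Plane.AlmostAllPlane

open Helper5Plane

/-- Let `d ≥ 3` and `g = (d - 1) (d - 2) / 2`. There is a constant `C₀` such that for every
`κ > g / 2` and every `δ > 0`, for all sufficiently large `H`: among the polynomials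
`F = ∑_{1 ≤ i + j ≤ d} b (i, j) x ^ i y ^ j + c` with integer coefficients of absolute value at most
`H`, all but at most the fraction `δ` define a smooth projective plane curve of degree `d` which
satisfies `hW ≤ κ log (N*) + C₀`. -/
theorem result (d : ℕ) (hd : 3 ≤ d) : ∃ C₀ : ℝ, ∀ κ : ℝ, (genus d : ℝ) / 2 < κ →
    ∀ δ : ℝ, 0 < δ → ∃ H₀ : ℕ, ∀ H : ℕ, H₀ ≤ H →
      ({q : (CoefIdx d → ℤ) × ℤ | (∀ p, |q.1 p| ≤ H) ∧ |q.2| ≤ H ∧
        ¬ FreyHolds d κ C₀ (coef d q.1) q.2}.ncard : ℝ) ≤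
          δ * {q : (CoefIdx d → ℤ) × ℤ | (∀ p, |q.1 p| ≤ H) ∧ |q.2| ≤ H}.ncard :=
  almost_all RAD.radical_lemma d hd

end Pool.Agent.Helper5_Plane.AlmostAllPlane
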