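import Pool.Agent.Helper5_Plane.Gen4

/-!
# The generic critical points are not rational
-/

namespace Pool.Agent.Helper5Plane

open Finset Polynomial

/-- Euler's identity for the top form. -/
lemma topf_euler {R : Type*} [CommRing R] (d : ℕ) (hd : 1 ≤ d) (a : ℕ → ℕ → R) (x y : R) :
    (d : R) * topf d a x y = x * topf (d - 1) (ax a) x y + y * topf (d - 1) (ay a) x y := by
  obtain ⟨e, rfl⟩ : ∃ e, d = e + 1 := ⟨d - 1, by omega⟩
  have h1 : x * topf (e + 1 - 1) (ax a) x y =
      ∑ i ∈ range (e + 1 + 1), (i : R) * (a i (e + 1 - i) * x ^ i * y ^ (e + 1 - i)) := by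
    rw [sum_range_succ', topf, mul_sum, Nat.add_sub_cancel]
    simp only [Nat.cast_zero, zero_mul, add_zero]
    refine sum_congr rfl fun i hi => ?_
    have h2 : e + 1 - (i + 1) = e - i := by omega
    rw [h2]
    simp only [ax]
    ring
  have h2 : y * topf (e + 1 - 1) (ay a) x y =
      ∑ i ∈ range (e + 1 + 1), ((e + 1 - i : ℕ) : R) *
        (a i (e + 1 - i) * x ^ i * y ^ (e + 1 - i)) := by
    rw [sum_range_succ, topf, mul_sum, Nat.add_sub_cancel, Nat.sub_self]
    simp only [Nat.cast_zero, zero_mul, add_zero]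
    refine sum_congr rfl fun i hi => ?_
    rw [mem_range] at hi
    have h2 : e + 1 - i = (e - i) + 1 := by omega
    rw [h2]
    simp only [ay]
    ring
  rw [h1, h2, ← sum_add_distrib, topf, mul_sum]
  refine sum_congr rfl fun i hi => ?_
  rw [mem_range] at hi
  rw [Nat.cast_sub (by omega)]
  ring

lemma natDegree_term_le {A : Type*} [CommRing A] (b : A) (Z X' Y' : A[X]) (r i j p q z : ℕ)
    (hZ : Z.natDegree ≤ z) (hX : X'.natDegree ≤ p) (hY : Y'.natDegree ≤ q) :
    (C b * Z ^ r * X' ^ i * Y' ^ j).natDegree ≤ r * z + i * p + j * q := by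
  refine natDegree_mul_le.trans (add_le_add (natDegree_mul_le.trans (add_le_add ?_ ?_)) ?_)
  · refine (natDegree_C_mul_le _ _).trans (natDegree_pow_le.trans ?_)
    exact Nat.mul_le_mul_left r hZ
  · exact natDegree_pow_le.trans (Nat.mul_le_mul_left i hX)
  · exact natDegree_pow_le.trans (Nat.mul_le_mul_left j hY)

/-- Degree bound for the homogenized polynomial. -/
lemma natDegree_valh_le {A : Type*} [CommRing A] (e : ℕ) (β : ℕ → ℕ → A) (Z X' Y' : A[X]) (z : ℕ)
    (hZ : Z.natDegree ≤ z) (hX : X'.natDegree ≤ z) (hY : Y'.natDegree ≤ z) :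
    (valh e (fun i j => C (β i j)) Z X' Y').natDegree ≤ e * z := by
  apply natDegree_sum_le_of_forall_le
  intro i hi
  apply natDegree_sum_le_of_forall_le
  intro j hj
  rw [mem_range] at hi hj
  refine (natDegree_term_le _ _ _ _ _ _ _ z z z hZ hX hY).trans (le_of_eq ?_)
  rw [← add_mul, ← add_mul]
  congr 1
  omega

/-- The top coefficient of the homogenized polynomial. -/
lemma coeff_valh_top {A : Type*} [CommRing A] (e : ℕ) (β : ℕ → ℕ → A) (Z X' Y' : A[X]) (n z : ℕ)
    (hZ : Z.natDegree ≤ z) (hX : X'.natDegree ≤ n) (hY : Y'.natDegree ≤ n) (hzn : z < n) :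
    (valh e (fun i j => C (β i j)) Z X' Y').coeff (e * n) =
      topf e β (X'.coeff n) (Y'.coeff n) := by
  rw [valh, topf, finsetSum_coeff]
  refine sum_congr rfl fun i hi => ?_
  rw [mem_range] at hi
  rw [finsetSum_coeff, sum_eq_single_of_mem (e - i) (mem_range.mpr (by omega))]
  · have h1 : e - i - (e - i) = 0 := Nat.sub_self _
    rw [h1, pow_zero, mul_one]
    have h2 : e * n = i * n + (e - i) * n := by
      rw [← add_mul]
      congr 1
      omega
    rw [h2, coeff_mul_add_eq_of_natDegree_le, coeff_C_mul, coeff_pow_of_natDegree_le hX,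
      coeff_pow_of_natDegree_le hY]
    · exact (natDegree_C_mul_le _ _).trans (natDegree_pow_le.trans (Nat.mul_le_mul_left i hX))
    · exact natDegree_pow_le.trans (Nat.mul_le_mul_left _ hY)
  · intro j hj hne
    rw [mem_range] at hj
    apply coeff_eq_zero_of_natDegree_lt
    refine lt_of_le_of_lt (natDegree_term_le _ _ _ _ _ _ _ n n z hZ hX hY) ?_
    have h1 : 0 < e - i - j := by omega
    have h2 : (e - i - j) * z < (e - i - j) * n := Nat.mul_lt_mul_of_pos_left hzn h1
    have h3 : e * n = (e - i - j) * n + i * n + j * n := by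
      rw [← add_mul, ← add_mul]
      congr 1
      omega
    omega

/-- No critical point of the generic curve is rational (homogeneous form). -/
theorem no_rational_aux (d : ℕ) (hd : 3 ≤ d) (Z X' Y' : MvPolynomial (CoefIdx d) ℤ) (hZ0 : Z ≠ 0)
    (f1 : valh (d - 1) (ax (coef d (MvPolynomial.X : CoefIdx d → MvPolynomial (CoefIdx d) ℤ)))
      Z X' Y' = 0)
    (f2 : valh (d - 1) (ay (coef d (MvPolynomial.X : CoefIdx d → MvPolynomial (CoefIdx d) ℤ)))
      Z X' Y' = 0) : False := by
  classical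
  have hp : 1 ≤ 1 + 0 ∧ 1 + 0 ≤ d := by omega
  -- translation in the variable `a 1 0`
  let θ : MvPolynomial (CoefIdx d) ℤ →+* (MvPolynomial (CoefIdx d) ℤ)[X] :=
    MvPolynomial.eval₂Hom ((C : MvPolynomial (CoefIdx d) ℤ →+* (MvPolynomial (CoefIdx d) ℤ)[X]).comp
      MvPolynomial.C)
      (fun p => C (MvPolynomial.X p) + (if p = mkIdx d 1 0 hp then X else 0))
  have hθX : ∀ p, θ (MvPolynomial.X p) =
      C (MvPolynomial.X p) + (if p = mkIdx d 1 0 hp then X else 0) := by
    intro p
    exact MvPolynomial.eval₂Hom_X' _ _ p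
  have hθC : ∀ r, θ (MvPolynomial.C r) = C (MvPolynomial.C r) := by
    intro r
    exact MvPolynomial.eval₂Hom_C _ _ r
  clear_value θ
  have hθ0 : ∀ f : MvPolynomial (CoefIdx d) ℤ, (θ f).eval 0 = f := by
    intro f
    have h1 : (evalRingHom (0 : MvPolynomial (CoefIdx d) ℤ)).comp θ = RingHom.id _ := by
      apply MvPolynomial.ringHom_ext
      · intro r
        rw [RingHom.comp_apply, hθC, coe_evalRingHom, eval_C, RingHom.id_apply]
      · intro p
        rw [RingHom.comp_apply, hθX, coe_evalRingHom, eval_add, eval_C, RingHom.id_apply]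
        split_ifs
        · rw [eval_X, add_zero]
        · rw [eval_zero, add_zero]
    have := congrArg (fun g : MvPolynomial (CoefIdx d) ℤ →+* MvPolynomial (CoefIdx d) ℤ => g f) h1
    simpa using this
  have hθinj : ∀ f : MvPolynomial (CoefIdx d) ℤ, θ f = 0 → f = 0 := by
    intro f hf
    rw [← hθ0 f, hf, eval_zero]
  generalize ha : coef d (MvPolynomial.X : CoefIdx d → MvPolynomial (CoefIdx d) ℤ) = a at f1 f2
  have hθa : (fun i j => θ (a i j)) =
      fun i j => C (a i j) + sgl 1 0 (X : (MvPolynomial (CoefIdx d) ℤ)[X]) i j := by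
    funext i j
    rw [← ha, coef_map]
    simp only [hθX, coef, sgl]
    by_cases h1 : i = 1 ∧ j = 0
    · obtain ⟨rfl, rfl⟩ := h1
      rw [dif_pos (by omega), dif_pos (by omega)]
      simp
    · split_ifs with h2 h3
      · exfalso
        apply h1
        have e1 := congrArg (fun p : CoefIdx d => (p.1.1 : ℕ)) h3
        have e2 := congrArg (fun p : CoefIdx d => (p.1.2 : ℕ)) h3
        simp only [mkIdx] at e1 e2
        exact ⟨e1, e2⟩
      · rfl
      · simp
  have hax : (fun i j => θ (ax a i j)) =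
      fun i j => C (ax a i j) + sgl 0 0 (X : (MvPolynomial (CoefIdx d) ℤ)[X]) i j := by
    rw [map_ax, hθa, ax_add, ax_sgl 0 0 (X : (MvPolynomial (CoefIdx d) ℤ)[X])]
    funext i j
    simp [ax]
  have hay : (fun i j => θ (ay a i j)) = fun i j => C (ay a i j) := by
    rw [map_ay, hθa, ay_add, ay_sgl_zero]
    funext i j
    simp [ay]
  have valh_add : ∀ (b c : ℕ → ℕ → (MvPolynomial (CoefIdx d) ℤ)[X])
      (m u v : (MvPolynomial (CoefIdx d) ℤ)[X]),
      valh (d - 1) (fun i j => b i j + c i j) m u v = valh (d - 1) b m u v +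
        valh (d - 1) c m u v := by
    intro b c m u v
    simp only [valh, add_mul, sum_add_distrib]
  have valh_sgl : ∀ (t m u v : (MvPolynomial (CoefIdx d) ℤ)[X]),
      valh (d - 1) (sgl 0 0 t) m u v = t * m ^ (d - 1) := by
    intro t m u v
    rw [valh, sum_eq_single_of_mem 0 (mem_range.mpr (by omega)),
      sum_eq_single_of_mem 0 (mem_range.mpr (by omega))]
    · simp [sgl]
    · intro j _ hj
      simp [sgl, hj]
    · intro i _ hi
      apply sum_eq_zero
      intro j _
      simp [sgl, hi]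
  have g1 : valh (d - 1) (fun i j => C (ax a i j)) (θ Z) (θ X') (θ Y') +
      X * (θ Z) ^ (d - 1) = 0 := by
    have := congrArg θ f1
    rw [map_valh, map_zero, hax, valh_add, valh_sgl] at this
    exact this
  have g2 : valh (d - 1) (fun i j => C (ay a i j)) (θ Z) (θ X') (θ Y') = 0 := by
    have := congrArg θ f2
    rw [map_valh, map_zero, hay] at this
    exact this
  have hZt0 : θ Z ≠ 0 := fun h => hZ0 (hθinj _ h)
  clear hθa hax hay valh_add valh_sgl hθX hθC hθ0 hθinj
  generalize hZt : θ Z = Zt at g1 g2 hZt0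
  generalize hXt : θ X' = Xt at g1 g2
  generalize hYt : θ Y' = Yt at g1 g2
  clear hZt hXt hYt
  obtain ⟨z, hz⟩ : ∃ z, Zt.natDegree = z := ⟨_, rfl⟩
  have hdegXZ : (X * Zt ^ (d - 1) : (MvPolynomial (CoefIdx d) ℤ)[X]).natDegree =
      1 + (d - 1) * z := by
    rw [natDegree_mul X_ne_zero (pow_ne_zero _ hZt0), natDegree_X, natDegree_pow, hz]
  obtain ⟨n, hn⟩ : ∃ n, max Xt.natDegree Yt.natDegree = n := ⟨_, rfl⟩
  have hXn : Xt.natDegree ≤ n := hn ▸ le_max_left _ _
  have hYn : Yt.natDegree ≤ n := hn ▸ le_max_right _ _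
  rcases le_or_gt n z with hnz | hnz
  · have h1 := natDegree_valh_le (d - 1) (ax a) Zt Xt Yt z hz.le (hXn.trans hnz) (hYn.trans hnz)
    have h2 : (X * Zt ^ (d - 1) : (MvPolynomial (CoefIdx d) ℤ)[X]) =
        - valh (d - 1) (fun i j => C (ax a i j)) Zt Xt Yt := by
      linear_combination g1
    rw [h2, natDegree_neg] at hdegXZ
    omega
  · obtain ⟨ξ, hξ⟩ : ∃ ξ, Xt.coeff n = ξ := ⟨_, rfl⟩
    obtain ⟨η, hη⟩ : ∃ η, Yt.coeff n = η := ⟨_, rfl⟩
    have h1 : topf (d - 1) (ax a) ξ η = 0 := by
      have h2 := congrArg (fun p => coeff p ((d - 1) * n)) g1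
      simp only [coeff_add, coeff_zero] at h2
      rw [coeff_valh_top (d - 1) (ax a) Zt Xt Yt n z hz.le hXn hYn hnz] at h2
      have h3 : (X * Zt ^ (d - 1) : (MvPolynomial (CoefIdx d) ℤ)[X]).coeff ((d - 1) * n) = 0 := by
        apply coeff_eq_zero_of_natDegree_lt
        rw [hdegXZ]
        have h4 : (d - 1) * (z + 1) ≤ (d - 1) * n := Nat.mul_le_mul_left _ hnz
        have h5 : (d - 1) * (z + 1) = (d - 1) * z + (d - 1) := by ring
        omega
      rw [h3, add_zero, hξ, hη] at h2
      exact h2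
    have h2 : topf (d - 1) (ay a) ξ η = 0 := by
      have h2 := congrArg (fun p => coeff p ((d - 1) * n)) g2
      simp only [coeff_zero] at h2
      rw [coeff_valh_top (d - 1) (ay a) Zt Xt Yt n z hz.le hXn hYn hnz, hξ, hη] at h2
      exact h2
    have h3 : topf d a ξ η = 0 := by
      have := topf_euler d (by omega) a ξ η
      rw [h1, h2, mul_zero, mul_zero, add_zero] at this
      have hd0 : ((d : ℕ) : MvPolynomial (CoefIdx d) ℤ) ≠ 0 := by
        rw [Nat.cast_ne_zero]
        omega
      exact (mul_eq_zero.mp this).resolve_left hd0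
    have hGK := generic_infty d hd
    rw [ga_eq, ha] at hGK
    have hmap : ∀ (e : ℕ) (β : ℕ → ℕ → MvPolynomial (CoefIdx d) ℤ), topf e β ξ η = 0 →
        topf e (fun i j => algebraMap _ (GK (CoefIdx d)) (β i j))
          (algebraMap _ (GK (CoefIdx d)) ξ) (algebraMap _ (GK (CoefIdx d)) η) = 0 := by
      intro e β hβ
      rw [← map_topf, hβ, map_zero]
    have h4 := hGK (algebraMap _ (GK (CoefIdx d)) ξ) (algebraMap _ (GK (CoefIdx d)) η)
      (hmap _ _ h3) (by rw [← map_ax]; exact hmap _ _ h1) (by rw [← map_ay]; exact hmap _ _ h2)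
    have h5 : ξ = 0 := gk_injective _ (by rw [h4.1, map_zero])
    have h6 : η = 0 := gk_injective _ (by rw [h4.2, map_zero])
    have hn0 : 0 < n := by omega
    rcases max_choice Xt.natDegree Yt.natDegree with h7 | h7
    · have h8 : Xt.natDegree = n := by rw [← hn, h7]
      have h9 : Xt.leadingCoeff = 0 := by
        rw [leadingCoeff, h8, hξ, h5]
      rw [leadingCoeff_eq_zero] at h9
      rw [h9, natDegree_zero] at h8
      omega
    · have h8 : Yt.natDegree = n := by rw [← hn, h7]
      have h9 : Yt.leadingCoeff = 0 := by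
        rw [leadingCoeff, h8, hη, h6]
      rw [leadingCoeff_eq_zero] at h9
      rw [h9, natDegree_zero] at h8
      omega

/-- No critical point of the generic curve is rational over the field of rational functions. -/
theorem no_rational (d : ℕ) (hd : 3 ≤ d) (k : Type*) [Field k]
    [Algebra (MvPolynomial (CoefIdx d) ℤ) k] [IsFractionRing (MvPolynomial (CoefIdx d) ℤ) k]
    (x y : k)
    (hx : val (d - 1) (ax (fun i j => algebraMap (MvPolynomial (CoefIdx d) ℤ) k
      (coef d MvPolynomial.X i j))) x y = 0)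
    (hy : val (d - 1) (ay (fun i j => algebraMap (MvPolynomial (CoefIdx d) ℤ) k
      (coef d MvPolynomial.X i j))) x y = 0) :
    False := by
  obtain ⟨n1, d1, hd1, hxe⟩ := IsFractionRing.div_surjective (A := MvPolynomial (CoefIdx d) ℤ) x
  obtain ⟨n2, d2, hd2, hye⟩ := IsFractionRing.div_surjective (A := MvPolynomial (CoefIdx d) ℤ) y
  have hinj : Function.Injective (algebraMap (MvPolynomial (CoefIdx d) ℤ) k) :=
    IsFractionRing.injective _ k
  have hd1' : algebraMap (MvPolynomial (CoefIdx d) ℤ) k d1 ≠ 0 :=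
    (map_ne_zero_iff _ hinj).mpr (nonZeroDivisors.ne_zero hd1)
  have hd2' : algebraMap (MvPolynomial (CoefIdx d) ℤ) k d2 ≠ 0 :=
    (map_ne_zero_iff _ hinj).mpr (nonZeroDivisors.ne_zero hd2)
  have hZx : algebraMap (MvPolynomial (CoefIdx d) ℤ) k (n1 * d2) =
      algebraMap (MvPolynomial (CoefIdx d) ℤ) k (d1 * d2) * x := by
    rw [← hxe, map_mul, map_mul]
    field_simp
  have hZy : algebraMap (MvPolynomial (CoefIdx d) ℤ) k (n2 * d1) =
      algebraMap (MvPolynomial (CoefIdx d) ℤ) k (d1 * d2) * y := by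
    rw [← hye, map_mul, map_mul]
    field_simp
  have hvh : ∀ (β : ℕ → ℕ → MvPolynomial (CoefIdx d) ℤ),
      val (d - 1) (fun i j => algebraMap (MvPolynomial (CoefIdx d) ℤ) k (β i j)) x y = 0 →
      valh (d - 1) β (d1 * d2) (n1 * d2) (n2 * d1) = 0 := by
    intro β hβ
    apply hinj
    rw [map_valh, hZx, hZy, valh_mul, hβ, mul_zero, map_zero]
  refine no_rational_aux d hd (d1 * d2) (n1 * d2) (n2 * d1)
    (mul_ne_zero (nonZeroDivisors.ne_zero hd1) (nonZeroDivisors.ne_zero hd2)) ?_ ?_
  · apply hvh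
    rw [map_ax]
    exact hx
  · apply hvh
    rw [map_ay]
    exact hy

end Pool.Agent.Helper5Plane
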