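import Pool.Agent.Helper5_Plane.Pencil
import Pool.Agent.Helper5_Plane.Deg
import Pool.Agent.Helper94_Rad.Defs

/-!
# Almost all plane curves
-/

namespace Pool.Agent.Helper5Plane

open Finset Polynomial Helper5Frey

/-- Schwartz and Zippel on a cube. -/
lemma sz_count {ι : Type} [Fintype ι] [DecidableEq ι] (M : MvPolynomial ι ℤ) (hM : M ≠ 0)
    (H : ℕ) :
    (((Fintype.piFinset (fun _ : ι => Finset.Icc (-(H : ℤ)) H)).filter
      (fun b => MvPolynomial.eval b M = 0)).card : ℝ) * (2 * H + 1) ≤
        M.totalDegree * (2 * (H : ℝ) + 1) ^ Fintype.card ι := by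
  classical
  set e := Fintype.equivFin ι with he
  set n := Fintype.card ι with hn
  set M' : MvPolynomial (Fin n) ℤ := MvPolynomial.rename e M with hM'
  have hM'0 : M' ≠ 0 := by
    intro h0
    apply hM
    apply MvPolynomial.rename_injective e e.injective
    rw [← hM', h0, map_zero]
  have h := MvPolynomial.schwartz_zippel_totalDegree hM'0 (Finset.Icc (-(H : ℤ)) H)
  have hcS : (Finset.Icc (-(H : ℤ)) H).card = 2 * H + 1 := by
    rw [Int.card_Icc]
    omega
  rw [hcS] at h
  have hle : ((Fintype.piFinset (fun _ : ι => Finset.Icc (-(H : ℤ)) H)).filter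
      (fun b => MvPolynomial.eval b M = 0)).card ≤
      ((Fintype.piFinset (fun _ : Fin n => Finset.Icc (-(H : ℤ)) H)).filter
      (fun b => MvPolynomial.eval b M' = 0)).card := by
    apply Finset.card_le_card_of_injOn (fun b => b ∘ e.symm)
    · intro b hb
      rw [Finset.mem_coe, Finset.mem_filter, Fintype.mem_piFinset] at hb
      rw [Finset.mem_coe, Finset.mem_filter, Fintype.mem_piFinset]
      refine ⟨fun i => hb.1 (e.symm i), ?_⟩
      rw [hM', MvPolynomial.eval_rename]
      have : (b ∘ e.symm) ∘ e = b := by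
        funext i
        simp
      rw [this]
      exact hb.2
    · intro b _ b' _ hbb
      funext i
      have := congrFun hbb (e i)
      simpa using this
  set N := ((Fintype.piFinset (fun _ : Fin n => Finset.Icc (-(H : ℤ)) H)).filter
      (fun b => MvPolynomial.eval b M' = 0)).card
  have h2 : (N : ℝ) / ((2 * H + 1 : ℕ) : ℝ) ^ n ≤ (M'.totalDegree : ℝ) /
      ((2 * H + 1 : ℕ) : ℝ) := by
    have h3 := (NNRat.cast_le (K := ℝ)).mpr h
    push_cast at h3 ⊢
    exact h3
  have hpos : (0 : ℝ) < ((2 * H + 1 : ℕ) : ℝ) := by positivity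
  rw [div_le_div_iff₀ (by positivity) hpos] at h2
  have h4 : (M'.totalDegree : ℝ) ≤ M.totalDegree := by
    exact_mod_cast MvPolynomial.totalDegree_rename_le e M
  push_cast at h2
  calc _ ≤ (N : ℝ) * (2 * H + 1) := by
        gcongr
    _ ≤ (M'.totalDegree : ℝ) * (2 * (H : ℝ) + 1) ^ n := h2
    _ ≤ _ := by gcongr

/-- Polynomial bound for the coefficients of the specialisations. -/
lemma coef_bound {ι : Type} (R : (MvPolynomial ι ℤ)[X]) (M : MvPolynomial ι ℤ) :
    ∃ B H₁ : ℕ, ∀ H : ℕ, H₁ ≤ H → ∀ b : ι → ℤ, (∀ p, |b p| ≤ (H : ℤ)) →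
      (∀ i, |(R.map (MvPolynomial.eval b)).coeff i| ≤ (H : ℤ) ^ B) ∧
        (MvPolynomial.eval b M).natAbs ≤ H ^ B := by
  choose C B h using fun i => mv_bound (R.coeff i)
  obtain ⟨C', B', h'⟩ := mv_bound M
  set Ct := ∑ i ∈ range (R.natDegree + 1), C i + C' with hCt
  set Bt := ∑ i ∈ range (R.natDegree + 1), B i + B' with hBt
  refine ⟨Bt + 1, Ct + 1, ?_⟩
  intro H hH b hb
  have hb' : ∀ p, (b p).natAbs ≤ H := by
    intro p
    have := hb p
    rw [← Int.natCast_natAbs] at this
    exact_mod_cast this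
  have hH1 : 1 ≤ H := by omega
  have key : ∀ c e : ℕ, c ≤ Ct → e ≤ Bt → c * H ^ e ≤ H ^ (Bt + 1) := by
    intro c e hc he
    calc c * H ^ e ≤ H * H ^ Bt :=
          Nat.mul_le_mul (by omega) (Nat.pow_le_pow_right hH1 he)
      _ = H ^ (Bt + 1) := by ring
  constructor
  · intro i
    rw [coeff_map]
    by_cases hi : i ≤ R.natDegree
    · have h1 := h i H b hH1 hb'
      have h2 : C i ≤ Ct := by
        have := single_le_sum (f := C) (fun _ _ => Nat.zero_le _)
          (mem_range.mpr (show i < R.natDegree + 1 by omega))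
        omega
      have h3 : B i ≤ Bt := by
        have := single_le_sum (f := B) (fun _ _ => Nat.zero_le _)
          (mem_range.mpr (show i < R.natDegree + 1 by omega))
        omega
      have h4 := h1.trans (key _ _ h2 h3)
      rw [← Int.natCast_natAbs]
      exact_mod_cast h4
    · rw [coeff_eq_zero_of_natDegree_lt (by omega), map_zero, abs_zero]
      positivity
  · exact (h' H b hH1 hb').trans (key _ _ (by omega) (by omega))

/-- Standing hypotheses of the radical lemma for the specialisations. -/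
lemma good_of_family {A : Type} [CommRing A] (M : A) (R U V : A[X])
    (hUV : U * R + V * derivative R = C M)
    (hlead : ∀ (Ω : Type) [Field Ω] (φ : A →+* Ω), φ M ≠ 0 → φ R.leadingCoeff ≠ 0)
    (φ : A →+* ℤ) (hM : φ M ≠ 0) (B H : ℕ)
    (hc : ∀ i, |(R.map φ).coeff i| ≤ (H : ℤ) ^ B) (hMb : (φ M).natAbs ≤ H ^ B) :
    RAD.Good R.natDegree B H (R.map φ) (φ M).natAbs := by
  have hUV' : U.map φ * R.map φ + V.map φ * derivative (R.map φ) = C (φ M) := by
    rw [derivative_map, ← Polynomial.map_mul, ← Polynomial.map_mul, ← Polynomial.map_add, hUV,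
      Polynomial.map_C]
  have hlc : φ R.leadingCoeff ≠ 0 := by
    have h1 := hlead ℚ ((Int.castRingHom ℚ).comp φ) (by simpa using hM)
    intro h0
    apply h1
    simp [h0]
  have hdeg : (R.map φ).natDegree = R.natDegree := natDegree_map_of_leadingCoeff_ne_zero φ hlc
  refine ⟨hdeg, hc, ?_, hMb, ?_, ?_⟩
  · exact Int.natAbs_pos.mpr hM
  · have h1 : (φ M : ℚ) ≠ 0 := by exact_mod_cast hM
    refine ⟨C ((φ M : ℚ)⁻¹) * (U.map φ).map (Int.castRingHom ℚ),
      C ((φ M : ℚ)⁻¹) * (V.map φ).map (Int.castRingHom ℚ), ?_⟩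
    have h2 := congrArg (Polynomial.map (Int.castRingHom ℚ)) hUV'
    rw [Polynomial.map_add, Polynomial.map_mul, Polynomial.map_mul, Polynomial.map_C,
      ← derivative_map] at h2
    have h3 : (C ((φ M : ℚ)⁻¹) : ℚ[X]) * C ((Int.castRingHom ℚ) (φ M)) = 1 := by
      rw [← C_mul]
      simp [h1]
    linear_combination (C ((φ M : ℚ)⁻¹) : ℚ[X]) * h2 + h3
  · intro p hp hpM
    have : Fact p.Prime := ⟨hp⟩
    constructor
    · intro h0
      have h1 := hlead (ZMod p) ((Int.castRingHom (ZMod p)).comp φ) (by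
        intro h2
        apply hpM
        have h3 : ((φ M : ℤ) : ZMod p) = 0 := by simpa using h2
        rw [ZMod.intCast_zmod_eq_zero_iff_dvd] at h3
        exact Int.natCast_dvd.mp h3)
      apply h1
      have h4 : (R.map φ).leadingCoeff = φ R.leadingCoeff := by
        rw [leadingCoeff, hdeg, coeff_map, leadingCoeff]
      rw [h4] at h0
      have h5 : ((φ R.leadingCoeff : ℤ) : ZMod p) = 0 := by
        rw [ZMod.intCast_zmod_eq_zero_iff_dvd]
        exact h0
      simpa using h5
    · intro c h1 h2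
      apply hpM
      have h3 := congrArg (eval c) hUV'
      rw [eval_add, eval_mul, eval_mul, eval_C] at h3
      rw [← Int.natCast_dvd, ← h3]
      exact dvd_add (h1.mul_left _) (h2.mul_left _)

end Pool.Agent.Helper5Plane
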