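import Pool.Agent.Helper5_Frey.Rankin

/-!
# Few polynomial values have a small radical
-/

namespace Pool.Agent.Helper5Plane

open Finset Polynomial Helper5Frey

lemma card_fiber (R : ℤ[X]) (hR : R.natDegree ≠ 0) (v : ℤ) (S : Finset ℤ) :
    (S.filter (fun c => R.eval c = v)).card ≤ R.natDegree := by
  classical
  have hne : R - C v ≠ 0 := by
    intro h
    apply hR
    have : R = C v := sub_eq_zero.mp h
    rw [this, natDegree_C]
  calc (S.filter (fun c => R.eval c = v)).card ≤ (R - C v).roots.toFinset.card := by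
        apply card_le_card
        intro c hc
        rw [mem_filter] at hc
        rw [Multiset.mem_toFinset, mem_roots hne, IsRoot.def]
        simp [hc.2]
    _ ≤ (R - C v).roots.card := Multiset.toFinset_card_le _
    _ ≤ (R - C v).natDegree := card_roots' _
    _ ≤ R.natDegree := natDegree_sub_C.le

/-- **Counting on a line.** -/
theorem line_abs (D C1 B1 C2 B2 : ℕ) {η : ℝ} (hη : 0 < η) :
    ∃ C : ℝ, 0 < C ∧ ∀ H : ℕ, 1 ≤ H → ∀ (R : ℤ[X]) (K : ℕ), R.natDegree ≤ D →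
      R.natDegree ≠ 0 → 1 ≤ K → K ≤ C2 * H ^ B2 →
      (∀ c ∈ Finset.Icc (-(H : ℤ)) H, (R.eval c).natAbs ≤ C1 * H ^ B1) → ∀ Y : ℝ, 1 ≤ Y →
      (((Finset.Icc (-(H : ℤ)) H).filter (fun c => R.eval c = 0 ∨
        (partRad K (R.eval c).natAbs : ℝ) ≤ Y)).card : ℝ) ≤ C * Y * (Y * H) ^ η := by
  classical
  set η' : ℝ := η / (B1 + B2 + 1) with hη'
  have hden : (0 : ℝ) < B1 + B2 + 1 := by positivity
  have hη'0 : 0 < η' := by positivity
  obtain ⟨C3, hC3, hrank⟩ := rankin_count hη'0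
  refine ⟨D + 1 + 2 * D * (C3 * ((C1 + 1 : ℝ) * (C2 + 1)) ^ η'), by positivity, ?_⟩
  intro H hH R K hRD hR0 hK1 hKle hXle Y hY1
  have hH1 : (1 : ℝ) ≤ H := by exact_mod_cast hH
  have hH0 : (0 : ℝ) < H := by linarith
  have hY0 : 0 < Y := by linarith
  set X : ℕ := C1 * H ^ B1 with hX
  set V := (Finset.Icc 1 X).filter (fun v => (partRad K v : ℝ) ≤ Y) with hV
  have hsub : (Finset.Icc (-(H : ℤ)) H).filter (fun c => R.eval c = 0 ∨
        (partRad K (R.eval c).natAbs : ℝ) ≤ Y) ⊆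
      (Finset.Icc (-(H : ℤ)) H).filter (fun c => R.eval c = 0) ∪
      V.biUnion (fun v => (Finset.Icc (-(H : ℤ)) H).filter (fun c => R.eval c = v) ∪
        (Finset.Icc (-(H : ℤ)) H).filter (fun c => R.eval c = -v)) := by
    intro c hc
    rw [Finset.mem_filter] at hc
    obtain ⟨hc1, hc2⟩ := hc
    rw [Finset.mem_union]
    by_cases h0 : R.eval c = 0
    · left
      exact Finset.mem_filter.mpr ⟨hc1, h0⟩
    · right
      rw [Finset.mem_biUnion]
      refine ⟨(R.eval c).natAbs, ?_, ?_⟩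
      · rw [hV, Finset.mem_filter, Finset.mem_Icc]
        exact ⟨⟨Int.natAbs_pos.mpr h0, hXle c hc1⟩, hc2.resolve_left h0⟩
      · rw [Finset.mem_union, Finset.mem_filter, Finset.mem_filter]
        rcases Int.natAbs_eq (R.eval c) with h | h
        · left
          exact ⟨hc1, h⟩
        · right
          exact ⟨hc1, h⟩
  have hcard : ((Finset.Icc (-(H : ℤ)) H).filter (fun c => R.eval c = 0 ∨
        (partRad K (R.eval c).natAbs : ℝ) ≤ Y)).card ≤ D + V.card * (2 * D) := by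
    refine (Finset.card_le_card hsub).trans ((Finset.card_union_le _ _).trans ?_)
    apply add_le_add ((card_fiber R hR0 0 _).trans hRD)
    apply Finset.card_biUnion_le_card_mul
    intro v _
    refine (Finset.card_union_le _ _).trans ?_
    have h1 := (card_fiber R hR0 (v : ℤ) (Finset.Icc (-(H : ℤ)) H)).trans hRD
    have h2 := (card_fiber R hR0 (-(v : ℤ)) (Finset.Icc (-(H : ℤ)) H)).trans hRD
    omega
  have hVc : (V.card : ℝ) ≤ C3 * Y * ((X : ℝ) * Y * K) ^ η' := hrank X K hK1 Y hY1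
  have hη'le : η' ≤ η := by
    rw [hη', div_le_iff₀ hden]
    have : (0 : ℝ) ≤ B1 + B2 := by positivity
    nlinarith
  have hXYK : ((X : ℝ) * Y * K) ^ η' ≤ ((C1 + 1 : ℝ) * (C2 + 1)) ^ η' * (Y * H) ^ η := by
    have h1 : (X : ℝ) * Y * K ≤ ((C1 + 1 : ℝ) * (C2 + 1)) * (Y * (H : ℝ) ^ ((B1 : ℝ) + B2)) := by
      have hx : (X : ℝ) ≤ (C1 + 1 : ℝ) * (H : ℝ) ^ (B1 : ℝ) := by
        rw [hX, Real.rpow_natCast]
        push_cast
        gcongr
        linarith
      have hk : (K : ℝ) ≤ (C2 + 1 : ℝ) * (H : ℝ) ^ (B2 : ℝ) := by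
        rw [Real.rpow_natCast]
        calc (K : ℝ) ≤ ((C2 * H ^ B2 : ℕ) : ℝ) := by exact_mod_cast hKle
          _ = C2 * (H : ℝ) ^ B2 := by push_cast; ring
          _ ≤ _ := by
            gcongr
            linarith
      calc (X : ℝ) * Y * K ≤ ((C1 + 1 : ℝ) * (H : ℝ) ^ (B1 : ℝ)) * Y *
            ((C2 + 1 : ℝ) * (H : ℝ) ^ (B2 : ℝ)) := by gcongr
        _ = ((C1 + 1 : ℝ) * (C2 + 1)) * (Y * ((H : ℝ) ^ (B1 : ℝ) * (H : ℝ) ^ (B2 : ℝ))) := by
            ring
        _ = _ := by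
            rw [← Real.rpow_add hH0]
    calc ((X : ℝ) * Y * K) ^ η' ≤
          (((C1 + 1 : ℝ) * (C2 + 1)) * (Y * (H : ℝ) ^ ((B1 : ℝ) + B2))) ^ η' := by
          apply Real.rpow_le_rpow (by positivity) h1 hη'0.le
      _ = ((C1 + 1 : ℝ) * (C2 + 1)) ^ η' * (Y ^ η' * (H : ℝ) ^ (((B1 : ℝ) + B2) * η')) := by
          rw [Real.mul_rpow (by positivity : (0 : ℝ) ≤ (C1 + 1 : ℝ) * (C2 + 1)) (by positivity),
            Real.mul_rpow hY0.le (by positivity), ← Real.rpow_mul hH0.le]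
      _ ≤ ((C1 + 1 : ℝ) * (C2 + 1)) ^ η' * (Y ^ η * (H : ℝ) ^ η) := by
          apply mul_le_mul_of_nonneg_left _ (by positivity)
          apply mul_le_mul
          · exact Real.rpow_le_rpow_of_exponent_le hY1 hη'le
          · apply Real.rpow_le_rpow_of_exponent_le hH1
            rw [hη', mul_div_assoc', div_le_iff₀ hden]
            nlinarith
          · positivity
          · positivity
      _ = _ := by rw [Real.mul_rpow hY0.le hH0.le]
  set E : ℝ := ((C1 + 1 : ℝ) * (C2 + 1)) ^ η' with hE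
  have hE0 : 0 ≤ E := by positivity
  have hYH : 1 ≤ Y * H := one_le_mul_of_one_le_of_one_le hY1 hH1
  have hone : (1 : ℝ) ≤ Y * (Y * H) ^ η :=
    one_le_mul_of_one_le_of_one_le hY1 (Real.one_le_rpow hYH hη.le)
  calc _ ≤ ((D + V.card * (2 * D) : ℕ) : ℝ) := by exact_mod_cast hcard
    _ = D + V.card * (2 * D) := by push_cast; ring
    _ ≤ D + (C3 * Y * (E * (Y * H) ^ η)) * (2 * D) := by
        gcongr
        exact hVc.trans (by gcongr)
    _ = D * 1 + 2 * D * (C3 * E) * (Y * (Y * H) ^ η) := by ring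
    _ ≤ (D + 1) * (Y * (Y * H) ^ η) + 2 * D * (C3 * E) * (Y * (Y * H) ^ η) := by
        gcongr
        linarith
    _ = _ := by ring

end Pool.Agent.Helper5Plane
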