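import Pool.Agent.Helper5_Plane.Height
import Pool.Agent.Helper5_Plane.Line

/-!
# The counting theorem on a line of constant terms
-/

namespace Pool.Agent.Helper5Plane

open Finset Polynomial Helper5Frey

lemma intCast_coeffs {Ω : Type} [Field Ω] (a : ℕ → ℕ → ℤ) :
    (fun i j => (Int.castRingHom Ω) (a i j)) = fun i j => (a i j : Ω) := by
  funext i j
  simp

/-- The set of node primes of a smooth curve is finite. -/
theorem nodePrimes_finite (d : ℕ) (a : ℕ → ℕ → ℤ) (c : ℤ)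
    (h : AffSmooth d (fun i j => (a i j : ℂ)) (c : ℂ)) : (nodePrimes d a c).Finite := by
  let b : ℕ → ℕ → MvPolynomial (Fin 2) ℤ := fun i j => MvPolynomial.C (a i j)
  obtain ⟨M, hM, hMS⟩ := spread_fam (A := ℤ) (K := ℂ) (σ := Fin 2)
    (RingHom.injective_int (algebraMap ℤ ℂ))
    ({val d b (MvPolynomial.X 0) (MvPolynomial.X 1) + MvPolynomial.C c,
      val (d - 1) (ax b) (MvPolynomial.X 0) (MvPolynomial.X 1),
      val (d - 1) (ay b) (MvPolynomial.X 0) (MvPolynomial.X 1)} :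
        Set (MvPolynomial (Fin 2) ℤ)) (by
      rintro ⟨z, hz⟩
      have h0 := hz (val d b (MvPolynomial.X 0) (MvPolynomial.X 1) + MvPolynomial.C c) (by simp)
      have h1 := hz (val (d - 1) (ax b) (MvPolynomial.X 0) (MvPolynomial.X 1)) (by simp)
      have h2 := hz (val (d - 1) (ay b) (MvPolynomial.X 0) (MvPolynomial.X 1)) (by simp)
      simp only [ev_val, ev_ax, ev_ay, MvPolynomial.eval₂_X, MvPolynomial.eval₂_C, b,
        MvPolynomial.eval₂_add, algebraMap_int_eq] at h0 h1 h2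
      rw [intCast_coeffs] at h0 h1 h2
      refine h (z 0) (z 1) ?_ h1 h2
      simpa using h0)
  apply Set.Finite.subset ((M.natAbs.divisors : Finset ℕ).finite_toSet)
  rintro p ⟨hp, hnode⟩
  rw [Finset.mem_coe, Nat.mem_divisors]
  refine ⟨?_, by simpa using hM⟩
  have : Fact p.Prime := ⟨hp⟩
  by_contra hdiv
  obtain ⟨_, x, y, ⟨e0, e1, e2⟩, _⟩ := hnode
  refine hMS (AlgebraicClosure (ZMod p)) (Int.castRingHom _) ?_ ?_
  · intro h0
    apply hdiv
    have h1 : ((M : ℤ) : AlgebraicClosure (ZMod p)) = 0 := by simpa using h0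
    rw [CharP.intCast_eq_zero_iff (AlgebraicClosure (ZMod p)) p] at h1
    exact Int.natCast_dvd.mp h1
  · refine ⟨![x, y], ?_⟩
    intro f hf
    simp only [Set.mem_insert_iff, Set.mem_singleton_iff] at hf
    rcases hf with rfl | rfl | rfl
    · simp only [ev_val, MvPolynomial.eval₂_X, MvPolynomial.eval₂_C, b,
        MvPolynomial.eval₂_add]
      rw [intCast_coeffs]
      simpa using e0
    · simp only [ev_val, ev_ax, MvPolynomial.eval₂_X, MvPolynomial.eval₂_C, b]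
      rw [intCast_coeffs]
      exact e1
    · simp only [ev_val, ev_ay, MvPolynomial.eval₂_X, MvPolynomial.eval₂_C, b]
      rw [intCast_coeffs]
      exact e2

theorem partRad_le_Nstar (d : ℕ) (a : ℕ → ℕ → ℤ) (c : ℤ) (K : ℕ) (m : ℤ)
    (hfin : (nodePrimes d a c).Finite)
    (h : ∀ p : ℕ, p.Prime → ¬ p ∣ K → (p : ℤ) ∣ m → p ∈ nodePrimes d a c) :
    partRad K m.natAbs ≤ Nstar d a c := by
  unfold Nstar partRad
  rw [finprod_mem_eq_finite_toFinset_prod _ hfin]
  apply Finset.prod_le_prod_of_subset_of_one_le'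
  · intro p hp
    rw [Finset.mem_filter, Nat.mem_primeFactors] at hp
    rw [Set.Finite.mem_toFinset]
    exact h p hp.1.1 hp.2 (Int.natCast_dvd.mpr hp.1.2.1)
  · intro p hp _
    rw [Set.Finite.mem_toFinset] at hp
    obtain ⟨hpp, _⟩ := hp
    exact hpp.one_lt.le

lemma Nstar_pos (d : ℕ) (a : ℕ → ℕ → ℤ) (c : ℤ) (hfin : (nodePrimes d a c).Finite) :
    1 ≤ Nstar d a c := by
  unfold Nstar
  rw [finprod_mem_eq_finite_toFinset_prod _ hfin]
  apply Finset.one_le_prod'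
  intro p hp
  rw [Set.Finite.mem_toFinset] at hp
  obtain ⟨hpp, _⟩ := hp
  exact hpp.one_lt.le

/-- The upper bound for the height in terms of `H` and `L`. -/
theorem hW_le_HL (d : ℕ) (hd : 3 ≤ d) : ∃ C₀ : ℝ, 0 ≤ C₀ ∧
    ∀ (H L : ℕ), 1 ≤ L → L ≤ H → ∀ (a : ℕ → ℕ → ℤ) (c : ℤ),
      (∀ i j, i + j ≤ d → |a i j| ≤ L) → |c| ≤ H → GoodInfty d (fun i j => (a i j : ℂ)) →
      FibSep d (fun i j => (a i j : ℂ)) (c : ℂ) →
      hW d a c ≤ C₀ + genus d / 3 * Real.log ((H : ℝ) * L ^ 2) := by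
  obtain ⟨C1, hC1, h⟩ := hW_le d hd
  have hl2 : 0 ≤ Real.log 2 := Real.log_nonneg (by norm_num)
  refine ⟨C1 + genus d * Real.log 2, by positivity, ?_⟩
  intro H L hL hLH a c ha hc hI hF
  have hL1 : (1 : ℝ) ≤ L := by exact_mod_cast hL
  have hH1 : (1 : ℝ) ≤ H := by exact_mod_cast hL.trans hLH
  have hLHr : (L : ℝ) ≤ H := by exact_mod_cast hLH
  have hL0 : (0 : ℝ) < L := by linarith
  have hH0 : (0 : ℝ) < H := by linarith
  have hd0 : (0 : ℝ) < d := by
    have : (3 : ℝ) ≤ d := by exact_mod_cast hd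
    linarith
  set ρ : ℝ := ((H : ℝ) / L) ^ (1 / (d : ℝ)) with hρ
  have hHL : 1 ≤ (H : ℝ) / L := by
    rw [one_le_div hL0]
    exact hLHr
  have hρ1 : 1 ≤ ρ := Real.one_le_rpow hHL (by positivity)
  have hρ0 : 0 < ρ := by linarith
  have hρd : ρ ^ d = (H : ℝ) / L := by
    rw [hρ, ← Real.rpow_natCast, ← Real.rpow_mul (by positivity), one_div,
      inv_mul_cancel₀ hd0.ne', Real.rpow_one]
  have h1 := h a c (2 * H) ρ hρ0 (by positivity) (by
    intro i j hij _
    have h2 : |(a i j : ℝ)| ≤ L := by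
      have := ha i j hij
      rw [← Int.cast_abs]
      exact_mod_cast this
    calc |(a i j : ℝ)| * ρ ^ (i + j) ≤ L * ρ ^ d := by
          gcongr
      _ = H := by
          rw [hρd]
          field_simp
      _ ≤ 2 * H := by linarith) (by
    have h2 : |(a 0 0 : ℝ)| ≤ L := by
      have := ha 0 0 (by omega)
      rw [← Int.cast_abs]
      exact_mod_cast this
    have h3 : |(c : ℝ)| ≤ H := by
      rw [← Int.cast_abs]
      exact_mod_cast hc
    push_cast
    exact (abs_add_le _ _).trans (by linarith)) hI hF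
  refine h1.trans (max_le ?_ (le_of_eq ?_))
  · have : 0 ≤ Real.log ((H : ℝ) * L ^ 2) := by
      apply Real.log_nonneg
      have : (1 : ℝ) ≤ (L : ℝ) ^ 2 := one_le_pow₀ hL1
      nlinarith
    positivity
  · rw [hρ, Real.log_rpow (by positivity), Real.log_div hH0.ne' hL0.ne',
      Real.log_mul (by norm_num) hH0.ne', Real.log_mul hH0.ne' (by positivity), Real.log_pow]
    push_cast
    field_simp
    ring

open scoped Classical in
/-- **The counting theorem.** -/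
theorem core (d : ℕ) (hd : 3 ≤ d) : ∃ C₀ : ℝ, 0 ≤ C₀ ∧ ∀ κ η : ℝ, 0 < κ → 0 < η →
    ∀ (C1 B1 C2 B2 D N : ℕ), ∃ C : ℝ, 0 < C ∧ ∀ (H L : ℕ), 1 ≤ L → L ≤ H →
      ∀ (a : ℕ → ℕ → ℤ) (R : ℤ[X]) (K : ℕ), (∀ i j, i + j ≤ d → |a i j| ≤ L) →
      GoodInfty d (fun i j => (a i j : ℂ)) → 1 ≤ K → K ≤ C2 * H ^ B2 → R.natDegree ≤ D →
      R.natDegree ≠ 0 →
      (∀ c ∈ Finset.Icc (-(H : ℤ)) H, (R.eval c).natAbs ≤ C1 * H ^ B1) →
      (∀ (p : ℕ) (c : ℤ), p.Prime → ¬ p ∣ K → (p : ℤ) ∣ R.eval c → p ∈ nodePrimes d a c) →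
      (∃ Bad : Finset ℂ, Bad.card ≤ N ∧ ∀ c ∉ Bad,
        AffSmooth d (fun i j => (a i j : ℂ)) c ∧ FibSep d (fun i j => (a i j : ℂ)) c) →
      (((Finset.Icc (-(H : ℤ)) H).filter (fun c => ¬ FreyHolds d κ C₀ a c)).card : ℝ) ≤
        C * (H : ℝ) ^ η * ((H : ℝ) * L ^ 2) ^ ((genus d : ℝ) / (3 * κ)) := by
  classical
  obtain ⟨C₀, hC₀, hht⟩ := hW_le_HL d hd
  refine ⟨C₀, hC₀, ?_⟩
  intro κ η hκ hη C1 B1 C2 B2 D N
  set G : ℝ := (genus d : ℝ) / (3 * κ) with hG
  have hG0 : 0 ≤ G := by positivity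
  set η' : ℝ := η / (3 * G + 1) with hη'
  have hη'0 : 0 < η' := by positivity
  obtain ⟨C3, hC3, hline⟩ := line_abs D C1 B1 C2 B2 hη'0
  refine ⟨N + C3, by positivity, ?_⟩
  intro H L hL hLH a R K ha hI hK1 hK hRD hR0 hR hnode ⟨Bad, hBad, hgood⟩
  have hH := hL.trans hLH
  have hL1 : (1 : ℝ) ≤ L := by exact_mod_cast hL
  have hH1 : (1 : ℝ) ≤ H := by exact_mod_cast hH
  have hLHr : (L : ℝ) ≤ H := by exact_mod_cast hLH
  have hL0 : (0 : ℝ) < L := by linarith
  have hH0 : (0 : ℝ) < H := by linarith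
  have hL2 : (1 : ℝ) ≤ (L : ℝ) ^ 2 := one_le_pow₀ hL1
  have hHL1 : 1 ≤ (H : ℝ) * L ^ 2 := one_le_mul_of_one_le_of_one_le hH1 hL2
  have hHL0 : 0 < (H : ℝ) * L ^ 2 := by linarith
  set Y : ℝ := ((H : ℝ) * L ^ 2) ^ G with hY
  have hY1 : 1 ≤ Y := Real.one_le_rpow hHL1 hG0
  have hsub : (Finset.Icc (-(H : ℤ)) H).filter (fun c => ¬ FreyHolds d κ C₀ a c) ⊆
      (Finset.Icc (-(H : ℤ)) H).filter (fun c : ℤ => (c : ℂ) ∈ Bad) ∪
      (Finset.Icc (-(H : ℤ)) H).filter (fun c => R.eval c = 0 ∨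
        (partRad K (R.eval c).natAbs : ℝ) ≤ Y) := by
    intro c hc
    rw [Finset.mem_filter] at hc
    obtain ⟨hc1, hc2⟩ := hc
    rw [Finset.mem_union, Finset.mem_filter, Finset.mem_filter]
    by_cases hb : (c : ℂ) ∈ Bad
    · left
      exact ⟨hc1, hb⟩
    · right
      refine ⟨hc1, ?_⟩
      by_contra hno
      push Not at hno
      obtain ⟨hR1, hR2⟩ := hno
      obtain ⟨hsm, hsep⟩ := hgood _ hb
      have hfin := nodePrimes_finite d a c hsm
      apply hc2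
      refine ⟨hI, hsm, hfin, ?_⟩
      have hcabs : |c| ≤ H := by
        rw [Finset.mem_Icc] at hc1
        exact abs_le.mpr hc1
      have h1 := hht H L hL hLH a c ha hcabs hI hsep
      have h2 : (partRad K (R.eval c).natAbs : ℝ) ≤ Nstar d a c := by
        exact_mod_cast partRad_le_Nstar d a c K _ hfin (fun p hp hpK hpd => hnode p c hp hpK hpd)
      have h3 : Y < Nstar d a c := lt_of_lt_of_le hR2 h2
      have h4 : Real.log Y ≤ Real.log (Nstar d a c) :=
        Real.log_le_log (by linarith) h3.le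
      rw [hY, Real.log_rpow hHL0] at h4
      have h5 : κ * (G * Real.log ((H : ℝ) * L ^ 2)) ≤ κ * Real.log (Nstar d a c) := by
        gcongr
      have h6 : κ * (G * Real.log ((H : ℝ) * L ^ 2)) =
          genus d / 3 * Real.log ((H : ℝ) * L ^ 2) := by
        rw [hG]
        field_simp
      linarith
  have hcardBad : ((Finset.Icc (-(H : ℤ)) H).filter (fun c : ℤ => (c : ℂ) ∈ Bad)).card ≤ N := by
    refine le_trans ?_ hBad
    apply Finset.card_le_card_of_injOn (fun c : ℤ => (c : ℂ))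
    · intro c hc
      have := (Finset.mem_filter.mp (Finset.mem_coe.mp hc)).2
      exact Finset.mem_coe.mpr this
    · intro x _ y _ hxy
      exact Int.cast_injective hxy
  have hline' := hline H hH R K hRD hR0 hK1 hK hR Y hY1
  have hYH : (Y * H) ^ η' ≤ (H : ℝ) ^ η := by
    have h1 : Y ≤ (H : ℝ) ^ (3 * G) := by
      calc Y ≤ ((H : ℝ) * (H : ℝ) ^ 2) ^ G := by
            rw [hY]
            gcongr
        _ = (H : ℝ) ^ (3 * G) := by
            rw [← pow_succ', ← Real.rpow_natCast, ← Real.rpow_mul hH0.le]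
            norm_num
    calc (Y * H) ^ η' ≤ ((H : ℝ) ^ (3 * G) * (H : ℝ) ^ (1 : ℝ)) ^ η' := by
          apply Real.rpow_le_rpow (by positivity) _ hη'0.le
          rw [Real.rpow_one]
          gcongr
      _ = (H : ℝ) ^ η := by
          rw [← Real.rpow_add hH0, ← Real.rpow_mul hH0.le, hη']
          congr 1
          field_simp
  have hone : 1 ≤ (H : ℝ) ^ η := Real.one_le_rpow hH1 hη.le
  calc (((Finset.Icc (-(H : ℤ)) H).filter (fun c => ¬ FreyHolds d κ C₀ a c)).card : ℝ)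
      ≤ N + C3 * Y * (Y * H) ^ η' := by
        have h1 := (Finset.card_le_card hsub).trans (Finset.card_union_le _ _)
        have h2 : (((Finset.Icc (-(H : ℤ)) H).filter
            (fun c => ¬ FreyHolds d κ C₀ a c)).card : ℝ) ≤
            (((Finset.Icc (-(H : ℤ)) H).filter (fun c : ℤ => (c : ℂ) ∈ Bad)).card : ℝ) +
            (((Finset.Icc (-(H : ℤ)) H).filter (fun c => R.eval c = 0 ∨
              (partRad K (R.eval c).natAbs : ℝ) ≤ Y)).card : ℝ) := by
          exact_mod_cast h1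
        have h3 : (((Finset.Icc (-(H : ℤ)) H).filter (fun c : ℤ => (c : ℂ) ∈ Bad)).card : ℝ)
            ≤ N := by
          exact_mod_cast hcardBad
        linarith
    _ ≤ N * ((H : ℝ) ^ η * Y) + C3 * Y * (H : ℝ) ^ η := by
        have h1 : 1 ≤ (H : ℝ) ^ η * Y := one_le_mul_of_one_le_of_one_le hone hY1
        have h2 : (N : ℝ) * 1 ≤ N * ((H : ℝ) ^ η * Y) := by gcongr
        have h3 : C3 * Y * (Y * H) ^ η' ≤ C3 * Y * (H : ℝ) ^ η := by gcongr
        linarith
    _ = (N + C3) * (H : ℝ) ^ η * Y := by ring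

end Pool.Agent.Helper5Plane
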