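import Mathlib

/-!
# Definitions: plane curves, their heights and their node primes

A polynomial in two variables is given by its coefficients `a i j` (the coefficient of `x^i y^j`),
only the coefficients with `i + j ≤ d` are used. The curve is `F(x, y) + c = 0`.
-/

namespace Pool.Agent.Helper5Plane

open Finset MeasureTheory
open scoped ENNReal

section Poly

variable {R : Type*} [CommRing R]

/-- The value at `(x, y)` of the polynomial `F = ∑_{i + j ≤ d} a i j x^i y^j`. -/
def val (d : ℕ) (a : ℕ → ℕ → R) (x y : R) : R :=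
  ∑ i ∈ range (d + 1), ∑ j ∈ range (d + 1 - i), a i j * x ^ i * y ^ j

/-- The coefficients of the partial derivative with respect to `x`. -/
def ax (a : ℕ → ℕ → R) : ℕ → ℕ → R := fun i j => ((i + 1 : ℕ) : R) * a (i + 1) j

/-- The coefficients of the partial derivative with respect to `y`. -/
def ay (a : ℕ → ℕ → R) : ℕ → ℕ → R := fun i j => ((j + 1 : ℕ) : R) * a i (j + 1)

/-- The value at `(x, y)` of the form `∑_{i + j = d} a i j x^i y^j`. -/
def topf (d : ℕ) (a : ℕ → ℕ → R) (x y : R) : R :=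
  ∑ i ∈ range (d + 1), a i (d - i) * x ^ i * y ^ (d - i)

/-- The Hessian determinant of `∑_{i + j ≤ d} a i j x^i y^j` at `(x, y)`. -/
def hess (d : ℕ) (a : ℕ → ℕ → R) (x y : R) : R :=
  val (d - 2) (ax (ax a)) x y * val (d - 2) (ay (ay a)) x y - val (d - 2) (ax (ay a)) x y ^ 2

end Poly

section Geometry

variable {K : Type*} [Field K]

/-- The projective closure has no singular point on the line at infinity: the top form and its two
partial derivatives have no common zero except `(0, 0)`. -/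
def GoodInfty (d : ℕ) (a : ℕ → ℕ → K) : Prop :=
  ∀ x y : K, topf d a x y = 0 → topf (d - 1) (ax a) x y = 0 → topf (d - 1) (ay a) x y = 0 →
    x = 0 ∧ y = 0

/-- The Hessian does not vanish at the critical points. -/
def GoodHess (d : ℕ) (a : ℕ → ℕ → K) : Prop :=
  ∀ x y : K, val (d - 1) (ax a) x y = 0 → val (d - 1) (ay a) x y = 0 → hess d a x y ≠ 0

/-- Distinct critical points have distinct values. -/
def GoodVal (d : ℕ) (a : ℕ → ℕ → K) : Prop :=
  ∀ x y x' y' : K, val (d - 1) (ax a) x y = 0 → val (d - 1) (ay a) x y = 0 →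
    val (d - 1) (ax a) x' y' = 0 → val (d - 1) (ay a) x' y' = 0 →
    val d a x y = val d a x' y' → x = x' ∧ y = y'

/-- There is a critical point. -/
def HasCrit (d : ℕ) (a : ℕ → ℕ → K) : Prop :=
  ∃ x y : K, val (d - 1) (ax a) x y = 0 ∧ val (d - 1) (ay a) x y = 0

/-- The Morse conditions over a field. -/
structure IsMorse (d : ℕ) (a : ℕ → ℕ → K) : Prop where
  infty : GoodInfty d a
  hess : GoodHess d a
  value : GoodVal d a
  crit : HasCrit d a

/-- The affine curve `F + c = 0` is smooth. -/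
def AffSmooth (d : ℕ) (a : ℕ → ℕ → K) (c : K) : Prop :=
  ∀ x y : K, val d a x y + c = 0 → val (d - 1) (ax a) x y = 0 → val (d - 1) (ay a) x y ≠ 0

/-- The projective curve `F + c = 0` is smooth at infinity and has exactly one singular point, and
this point is an ordinary node (nonzero Hessian). -/
def OneNode (d : ℕ) (a : ℕ → ℕ → K) (c : K) : Prop :=
  GoodInfty d a ∧ ∃ x y : K, (val d a x y + c = 0 ∧ val (d - 1) (ax a) x y = 0 ∧
    val (d - 1) (ay a) x y = 0) ∧ hess d a x y ≠ 0 ∧
    ∀ x' y' : K, val d a x' y' + c = 0 → val (d - 1) (ax a) x' y' = 0 →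
      val (d - 1) (ay a) x' y' = 0 → x' = x ∧ y' = y

end Geometry

/-- The genus `(d - 1) (d - 2) / 2`. -/
def genus (d : ℕ) : ℕ := (d - 1) * (d - 2) / 2

/-- The pairs `(i, j)` with `i + j ≤ d - 3`. -/
abbrev FormIdx (d : ℕ) : Type :=
  {p : Fin (d - 2) × Fin (d - 2) // (p.1 : ℕ) + (p.2 : ℕ) < d - 2}

/-- The value at `(x, y)` of `∑_{i + j ≤ d - 3} v (i, j) x^i y^j`. -/
noncomputable def formVal (d : ℕ) (v : FormIdx d → ℂ) (x y : ℂ) : ℂ :=
  ∑ p : FormIdx d, v p * x ^ (p.1.1 : ℕ) * y ^ (p.1.2 : ℕ)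

/-- The squared norm (half the integral of `i ω ∧ conj ω`) of the differential
`ω = (∑ v (i, j) x^i y^j) dx / F_y` on the curve `F + c = 0`: the integral over the `x`-plane of the
sum of `|∑ v (i, j) x^i y^j / F_y| ^ 2` over the points `(x, y)` of the curve. -/
noncomputable def normSq (d : ℕ) (a : ℕ → ℕ → ℤ) (c : ℤ) (v : FormIdx d → ℂ) : ℝ≥0∞ :=
  ∫⁻ x : ℂ, ∑' y : {y : ℂ // val d (fun i j => (a i j : ℂ)) x y + (c : ℂ) = 0},
    ENNReal.ofReal (‖formVal d v x y‖ ^ 2 /
      ‖val (d - 1) (ay fun i j => (a i j : ℂ)) x (y : ℂ)‖ ^ 2)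

/-- The height attached to the plane model: half the logarithm of `g! / π ^ g` times the volume of
the unit ball of `normSq`. If `G` is the Gram matrix of the differentials `x^i y^j dx / F_y`, the
volume is `π ^ g / (g! det G)` and this is `-(1 / 2) log det G`. -/
noncomputable def hW (d : ℕ) (a : ℕ → ℕ → ℤ) (c : ℤ) : ℝ :=
  1 / 2 * Real.log (((genus d).factorial : ℝ) / Real.pi ^ genus d *
    (volume {v : FormIdx d → ℂ | normSq d a c v ≤ 1}).toReal)

/-- The primes `p` such that the curve over an algebraic closure of the field with `p` elements is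
smooth except for one node. -/
def nodePrimes (d : ℕ) (a : ℕ → ℕ → ℤ) (c : ℤ) : Set ℕ :=
  {p | ∃ hp : p.Prime, haveI : Fact p.Prime := ⟨hp⟩
    OneNode d (fun i j => (a i j : AlgebraicClosure (ZMod p))) (c : AlgebraicClosure (ZMod p))}

/-- The product of the node primes. -/
noncomputable def Nstar (d : ℕ) (a : ℕ → ℕ → ℤ) (c : ℤ) : ℕ := ∏ᶠ p ∈ nodePrimes d a c, p

/-- The projective plane curve `F + c = 0` of degree `d` is smooth over the complex numbers, it has
finitely many node primes, and its height is at most `κ log Nstar + C₀`. -/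
def FreyHolds (d : ℕ) (κ C₀ : ℝ) (a : ℕ → ℕ → ℤ) (c : ℤ) : Prop :=
  GoodInfty d (fun i j => (a i j : ℂ)) ∧ AffSmooth d (fun i j => (a i j : ℂ)) (c : ℂ) ∧
    (nodePrimes d a c).Finite ∧ hW d a c ≤ κ * Real.log (Nstar d a c) + C₀

end Pool.Agent.Helper5Plane
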