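import Pool.Agent.Helper5_Plane.Fam

/-!
# The polynomial of critical values and the existence of nodes
-/

namespace Pool.Agent.Helper5Plane

open Polynomial

section Clear

variable {A : Type*} [CommRing A] [IsDomain A] {k : Type*} [Field k] [Algebra A k]
  [IsFractionRing A k]

/-- Clearing denominators. -/
lemma clear_poly (p : k[X]) : ∃ (m : A) (q : A[X]), m ≠ 0 ∧
    q.map (algebraMap A k) = C (algebraMap A k m) * p := by
  obtain ⟨b, hb, h⟩ := IsLocalization.integerNormalization_spec (nonZeroDivisors A) p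
  refine ⟨b, IsLocalization.integerNormalization (nonZeroDivisors A) p,
    nonZeroDivisors.ne_zero hb, ?_⟩
  rw [h, ← algebraMap_smul k b p, smul_eq_C_mul]

lemma clear_dvd (G R : A[X]) (R0 : k[X]) (m : A)
    (hR : R.map (algebraMap A k) = C (algebraMap A k m) * R0)
    (h : R0 ∣ G.map (algebraMap A k)) : ∃ (n : A) (q : A[X]), n ≠ 0 ∧ C (m * n) * G = R * q := by
  obtain ⟨q0, hq0⟩ := h
  obtain ⟨n, q, hn, hq⟩ := clear_poly (A := A) q0
  refine ⟨n, q, hn, ?_⟩
  apply Polynomial.map_injective (algebraMap A k) (IsFractionRing.injective A k)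
  rw [Polynomial.map_mul, Polynomial.map_mul, hR, hq, hq0, Polynomial.map_C, map_mul, C_mul]
  ring

end Clear

/-- The coordinates of a critical point are polynomials in its value. -/
lemma exists_polys {k K : Type} [Field k] [Field K] [CharZero k] [Algebra k K] [IsAlgClosure k K]
    (d : ℕ) (a : ℕ → ℕ → k) (hV : GoodVal d (fun i j => algebraMap k K (a i j))) (x y τ : K)
    (hx : val (d - 1) (ax (fun i j => algebraMap k K (a i j))) x y = 0)
    (hy : val (d - 1) (ay (fun i j => algebraMap k K (a i j))) x y = 0)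
    (hτ : τ = - val d (fun i j => algebraMap k K (a i j)) x y) :
    ∃ X Y : k[X], aeval τ X = x ∧ aeval τ Y = y := by
  have : Algebra.IsAlgebraic k K := IsAlgClosure.isAlgebraic
  have : IsAlgClosed K := IsAlgClosure.isAlgClosed k
  have : Normal k K := IsAlgClosure.normal k K
  have : IsGalois k K := ⟨⟩
  set F := IntermediateField.adjoin k {τ} with hF
  have hfix : ∀ σ : Gal(K/F), σ x = x ∧ σ y = y := by
    intro σ
    have hco : ∀ r : k, σ (algebraMap k K r) = algebraMap k K r := by
      intro r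
      have : algebraMap k K r = algebraMap F K (algebraMap k F r) := rfl
      rw [this, AlgEquiv.commutes]
    have hτσ : σ τ = τ := by
      have : τ = algebraMap F K ⟨τ, IntermediateField.mem_adjoin_simple_self k τ⟩ := rfl
      rw [this, AlgEquiv.commutes]
    have hval : ∀ (e : ℕ) (b : ℕ → ℕ → K), (∀ i j, σ (b i j) = b i j) →
        val e b (σ x) (σ y) = σ (val e b x y) := by
      intro e b hb
      have := map_val (σ : K →+* K) e b x y
      simp only [RingHom.coe_coe, hb] at this
      exact this.symm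
    apply hV
    · rw [hval, hx, map_zero]
      intro i j
      simp only [ax, map_mul, map_natCast, hco]
    · rw [hval, hy, map_zero]
      intro i j
      simp only [ay, map_mul, map_natCast, hco]
    · exact hx
    · exact hy
    · rw [hval _ _ (fun i j => hco _)]
      have : val d (fun i j => algebraMap k K (a i j)) x y = - τ := by
        rw [hτ, neg_neg]
      rw [this, map_neg, hτσ]
  have hpoly : ∀ w : K, (∀ σ : Gal(K/F), σ w = w) → ∃ W : k[X], aeval τ W = w := by
    intro w hw
    obtain ⟨u, hu⟩ := (InfiniteGalois.mem_range_algebraMap_iff_fixed w).mpr hw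
    have hmem : w ∈ F.toSubalgebra := by
      rw [← hu]
      exact u.2
    rw [hF, IntermediateField.adjoin_simple_toSubalgebra_of_isAlgebraic
      (Algebra.IsAlgebraic.isAlgebraic τ), Algebra.adjoin_singleton_eq_range_aeval] at hmem
    exact hmem
  obtain ⟨X', hX⟩ := hpoly x (fun σ => (hfix σ).1)
  obtain ⟨Y', hY⟩ := hpoly y (fun σ => (hfix σ).2)
  exact ⟨X', Y', hX, hY⟩

/-- **Existence of nodes**, with a Bezout identity and a lower bound for the degree. -/
theorem exists_node_fam2 {A : Type} [CommRing A] [IsDomain A] [CharZero A] (d : ℕ)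
    (a : ℕ → ℕ → A)
    (hV : GoodVal d (fun i j => algebraMap A (AlgebraicClosure (FractionRing A)) (a i j)))
    (hC : HasCrit d (fun i j => algebraMap A (AlgebraicClosure (FractionRing A)) (a i j))) :
    ∃ (M : A) (R : A[X]), M ≠ 0 ∧ R.natDegree ≠ 0 ∧
      ((∀ x y : FractionRing A,
        val (d - 1) (ax (fun i j => algebraMap A (FractionRing A) (a i j))) x y = 0 →
        val (d - 1) (ay (fun i j => algebraMap A (FractionRing A) (a i j))) x y ≠ 0) →
          2 ≤ R.natDegree) ∧
      (∃ U V : A[X], U * R + V * derivative R = C M) ∧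
      ∀ (Ω : Type) [Field Ω] (φ : A →+* Ω),
      φ M ≠ 0 → φ R.leadingCoeff ≠ 0 ∧ ∀ c : Ω, (R.map φ).eval c = 0 → ∃ x y : Ω,
        val d (fun i j => φ (a i j)) x y + c = 0 ∧
        val (d - 1) (ax (fun i j => φ (a i j))) x y = 0 ∧
        val (d - 1) (ay (fun i j => φ (a i j))) x y = 0 := by
  set k := FractionRing A with hk
  set K := AlgebraicClosure k with hK
  have : CharZero k := charZero_of_injective_algebraMap (IsFractionRing.injective A k)
  obtain ⟨x, y, hx, hy⟩ := hC
  set ak : ℕ → ℕ → k := fun i j => algebraMap A k (a i j) with hak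
  have haK : (fun i j => algebraMap A K (a i j)) = fun i j => algebraMap k K (ak i j) := by
    funext i j
    exact IsScalarTower.algebraMap_apply A k K (a i j)
  rw [haK] at hV hx hy
  set τ : K := - val d (fun i j => algebraMap k K (ak i j)) x y with hτ
  obtain ⟨X', Y', hX, hY⟩ := exists_polys (K := K) d ak hV x y τ hx hy hτ
  set R0 := minpoly k τ with hR0
  have hint : IsIntegral k τ := Algebra.IsIntegral.isIntegral τ
  set bk : ℕ → ℕ → k[X] := fun i j => C (ak i j) with hbk
  have hev : ∀ (e : ℕ) (b : ℕ → ℕ → k[X]), aeval τ (val e b X' Y') =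
      val e (fun i j => aeval τ (b i j)) x y := by
    intro e b
    have := map_val ((aeval τ : k[X] →ₐ[k] K) : k[X] →+* K) e b X' Y'
    simp only [RingHom.coe_coe, hX, hY] at this
    exact this
  have hbax : (fun i j => aeval τ (ax bk i j)) = ax (fun i j => algebraMap k K (ak i j)) := by
    funext i j
    simp [ax, hbk]
  have hbay : (fun i j => aeval τ (ay bk i j)) = ay (fun i j => algebraMap k K (ak i j)) := by
    funext i j
    simp [ay, hbk]
  have d1 : R0 ∣ val (d - 1) (ax bk) X' Y' := by
    apply minpoly.dvd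
    rw [hev, hbax]
    exact hx
  have d2 : R0 ∣ val (d - 1) (ay bk) X' Y' := by
    apply minpoly.dvd
    rw [hev, hbay]
    exact hy
  have d3 : R0 ∣ val d bk X' Y' + X := by
    apply minpoly.dvd
    rw [map_add, hev, aeval_X]
    have : (fun i j => aeval τ (bk i j)) = fun i j => algebraMap k K (ak i j) := by
      funext i j
      simp [hbk]
    rw [this, hτ]
    ring
  obtain ⟨m1, X1, hm1, hX1⟩ := clear_poly (A := A) X'
  obtain ⟨m2, Y1, hm2, hY1⟩ := clear_poly (A := A) Y'
  obtain ⟨m3, R, hm3, hR⟩ := clear_poly (A := A) R0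
  set m := m1 * m2 with hm
  set Xh : A[X] := C m2 * X1 with hXh
  set Yh : A[X] := C m1 * Y1 with hYh
  have hXm : Xh.map (algebraMap A k) = C (algebraMap A k m) * X' := by
    rw [hXh, Polynomial.map_mul, Polynomial.map_C, hX1, hm, map_mul, C_mul]
    ring
  have hYm : Yh.map (algebraMap A k) = C (algebraMap A k m) * Y' := by
    rw [hYh, Polynomial.map_mul, Polynomial.map_C, hY1, hm, map_mul, C_mul]
    ring
  set bA : ℕ → ℕ → A[X] := fun i j => C (a i j) with hbA
  have hmap : ∀ (e : ℕ) (b : ℕ → ℕ → A[X]), (valh e b (C m) Xh Yh).map (algebraMap A k) =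
      C (algebraMap A k m) ^ e * val e (fun i j => (b i j).map (algebraMap A k)) X' Y' := by
    intro e b
    have := map_valh (mapRingHom (algebraMap A k)) e b (C m) Xh Yh
    simp only [coe_mapRingHom, hXm, hYm, Polynomial.map_C] at this
    rw [this, valh_mul]
  have hb1 : (fun i j => (ax bA i j).map (algebraMap A k)) = ax bk := by
    funext i j
    simp [ax, hbA, hbk, hak]
  have hb2 : (fun i j => (ay bA i j).map (algebraMap A k)) = ay bk := by
    funext i j
    simp [ay, hbA, hbk, hak]
  have hb3 : (fun i j => (bA i j).map (algebraMap A k)) = bk := by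
    funext i j
    simp [hbA, hbk, hak]
  obtain ⟨n1, q1, hn1, hq1⟩ := clear_dvd (valh (d - 1) (ax bA) (C m) Xh Yh) R R0 m3 hR (by
    rw [hmap, hb1]
    exact d1.mul_left _)
  obtain ⟨n2, q2, hn2, hq2⟩ := clear_dvd (valh (d - 1) (ay bA) (C m) Xh Yh) R R0 m3 hR (by
    rw [hmap, hb2]
    exact d2.mul_left _)
  obtain ⟨n3, q3, hn3, hq3⟩ := clear_dvd (valh d bA (C m) Xh Yh + C m ^ d * X) R R0 m3 hR (by
    rw [Polynomial.map_add, hmap, hb3, Polynomial.map_mul, Polynomial.map_pow, Polynomial.map_C,
      Polynomial.map_X, ← mul_add]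
    exact d3.mul_left _)
  have hRdeg : R.natDegree = R0.natDegree := by
    rw [← natDegree_map_eq_of_injective (IsFractionRing.injective A k) R, hR,
      natDegree_C_mul]
    exact (map_ne_zero_iff _ (IsFractionRing.injective A k)).mpr hm3
  have hR0deg : R0.natDegree ≠ 0 := (minpoly.natDegree_pos hint).ne'
  have hRne : R ≠ 0 := by
    intro h0
    rw [h0, natDegree_zero] at hRdeg
    exact hR0deg hRdeg.symm
  have hsep : R0.Separable := (minpoly.irreducible hint).separable
  obtain ⟨u, v, huv⟩ := hsep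
  obtain ⟨mu, u1, hmu, hu1⟩ := clear_poly (A := A) u
  obtain ⟨mv, v1, hmv, hv1⟩ := clear_poly (A := A) v
  refine ⟨m * m3 * n1 * n2 * n3 * R.leadingCoeff * mu * mv, R, ?_, by rw [hRdeg]; exact hR0deg,
    ?_, ?_, ?_⟩
  · have : m ≠ 0 := mul_ne_zero hm1 hm2
    have : R.leadingCoeff ≠ 0 := leadingCoeff_ne_zero.mpr hRne
    positivity
  · intro hno
    rw [hRdeg]
    have h1 : R0.natDegree ≠ 1 := by
      intro h1
      obtain ⟨t, ht⟩ := (minpoly.natDegree_eq_one_iff (A := k) (x := τ)).mp h1
      have ex : x = algebraMap k K (X'.eval t) := by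
        rw [← hX, ← ht, aeval_algebraMap_apply, coe_aeval_eq_eval]
      have ey : y = algebraMap k K (Y'.eval t) := by
        rw [← hY, ← ht, aeval_algebraMap_apply, coe_aeval_eq_eval]
      apply hno (X'.eval t) (Y'.eval t)
      · apply (algebraMap k K).injective
        rw [map_val, ← ex, ← ey, map_zero, map_ax]
        exact hx
      · apply (algebraMap k K).injective
        rw [map_val, ← ex, ← ey, map_zero, map_ay]
        exact hy
    omega
  · refine ⟨C (m * n1 * n2 * n3 * R.leadingCoeff * mv) * u1,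
      C (m * n1 * n2 * n3 * R.leadingCoeff * mu) * v1, ?_⟩
    apply Polynomial.map_injective (algebraMap A k) (IsFractionRing.injective A k)
    rw [Polynomial.map_add, Polynomial.map_mul, Polynomial.map_mul, Polynomial.map_mul,
      Polynomial.map_mul, ← derivative_map, hR, hu1, hv1, derivative_C_mul]
    simp only [map_mul, Polynomial.map_mul, Polynomial.map_C]
    linear_combination (C (algebraMap A k m) * C (algebraMap A k n1) * C (algebraMap A k n2) *
      C (algebraMap A k n3) * C (algebraMap A k R.leadingCoeff) * C (algebraMap A k mu) *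
      C (algebraMap A k mv) * C (algebraMap A k m3)) * huv
  · intro Ω _ φ hφ
    rw [mul_assoc _ mu mv, map_mul] at hφ
    have hφ := left_ne_zero_of_mul hφ
    simp only [map_mul] at hφ
    have hl : φ R.leadingCoeff ≠ 0 := right_ne_zero_of_mul hφ
    have hφ' := left_ne_zero_of_mul hφ
    have h3 : φ n3 ≠ 0 := right_ne_zero_of_mul hφ'
    have hφ'' := left_ne_zero_of_mul hφ'
    have h2 : φ n2 ≠ 0 := right_ne_zero_of_mul hφ''
    have hφ3 := left_ne_zero_of_mul hφ''
    have h1 : φ n1 ≠ 0 := right_ne_zero_of_mul hφ3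
    have hφ4 := left_ne_zero_of_mul hφ3
    have h0 : φ m3 ≠ 0 := right_ne_zero_of_mul hφ4
    have hmφ : φ m ≠ 0 := left_ne_zero_of_mul hφ4
    refine ⟨hl, ?_⟩
    intro c hc
    rw [eval_map] at hc
    have hevG : ∀ (G q : A[X]) (n : A), φ n ≠ 0 → C (m3 * n) * G = R * q → eval₂ φ c G = 0 := by
      intro G q n hn hG
      have := congrArg (eval₂ φ c) hG
      rw [eval₂_mul, eval₂_mul, hc, zero_mul, eval₂_C, map_mul] at this
      exact (mul_eq_zero.mp this).resolve_left (mul_ne_zero h0 hn)
    set x' := (φ m)⁻¹ * eval₂ φ c Xh with hx'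
    set y' := (φ m)⁻¹ * eval₂ φ c Yh with hy'
    have hxx : eval₂ φ c Xh = φ m * x' := by
      rw [hx', ← mul_assoc, mul_inv_cancel₀ hmφ, one_mul]
    have hyy : eval₂ φ c Yh = φ m * y' := by
      rw [hy', ← mul_assoc, mul_inv_cancel₀ hmφ, one_mul]
    have hevh : ∀ (e : ℕ) (b : ℕ → ℕ → A[X]), eval₂ φ c (valh e b (C m) Xh Yh) =
        φ m ^ e * val e (fun i j => eval₂ φ c (b i j)) x' y' := by
      intro e b
      have := map_valh (eval₂RingHom φ c) e b (C m) Xh Yh
      simp only [coe_eval₂RingHom, hxx, hyy, eval₂_C] at this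
      rw [this, valh_mul]
    have g1 := hevG _ q1 n1 h1 hq1
    have g2 := hevG _ q2 n2 h2 hq2
    have g3 := hevG _ q3 n3 h3 hq3
    rw [hevh] at g1 g2
    rw [eval₂_add, hevh, eval₂_mul, eval₂_pow, eval₂_C, eval₂_X, ← mul_add] at g3
    have e1 : (fun i j => eval₂ φ c (ax bA i j)) = ax (fun i j => φ (a i j)) := by
      funext i j
      simp [ax, hbA]
    have e2 : (fun i j => eval₂ φ c (ay bA i j)) = ay (fun i j => φ (a i j)) := by
      funext i j
      simp [ay, hbA]
    have e3 : (fun i j => eval₂ φ c (bA i j)) = fun i j => φ (a i j) := by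
      funext i j
      simp [hbA]
    rw [e1] at g1
    rw [e2] at g2
    rw [e3] at g3
    exact ⟨x', y', (mul_eq_zero.mp g3).resolve_left (pow_ne_zero _ hmφ),
      (mul_eq_zero.mp g1).resolve_left (pow_ne_zero _ hmφ),
      (mul_eq_zero.mp g2).resolve_left (pow_ne_zero _ hmφ)⟩

/-- **Existence of nodes.** -/
theorem exists_node_fam {A : Type} [CommRing A] [IsDomain A] [CharZero A] (d : ℕ)
    (a : ℕ → ℕ → A)
    (hV : GoodVal d (fun i j => algebraMap A (AlgebraicClosure (FractionRing A)) (a i j)))
    (hC : HasCrit d (fun i j => algebraMap A (AlgebraicClosure (FractionRing A)) (a i j))) :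
    ∃ (M : A) (R : A[X]), M ≠ 0 ∧ R.natDegree ≠ 0 ∧ ∀ (Ω : Type) [Field Ω] (φ : A →+* Ω),
      φ M ≠ 0 → φ R.leadingCoeff ≠ 0 ∧ ∀ c : Ω, (R.map φ).eval c = 0 → ∃ x y : Ω,
        val d (fun i j => φ (a i j)) x y + c = 0 ∧
        val (d - 1) (ax (fun i j => φ (a i j))) x y = 0 ∧
        val (d - 1) (ay (fun i j => φ (a i j))) x y = 0 := by
  obtain ⟨M, R, h1, h2, -, -, h3⟩ := exists_node_fam2 d a hV hC
  exact ⟨M, R, h1, h2, h3⟩

end Pool.Agent.Helper5Plane
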