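import Pool.Agent.Helper5_Plane.Spread

/-!
# Spreading out the Morse conditions
-/

namespace Pool.Agent.Helper5Plane

open MvPolynomial

section Eval

variable {A Ω : Type*} [CommRing A] [CommRing Ω] {σ : Type*} (φ : A →+* Ω) (z : σ → Ω)

lemma ev_val (d : ℕ) (b : ℕ → ℕ → MvPolynomial σ A) (x y : MvPolynomial σ A) :
    eval₂ φ z (val d b x y) = val d (fun i j => eval₂ φ z (b i j)) (eval₂ φ z x)
      (eval₂ φ z y) :=
  map_val (eval₂Hom φ z) d b x y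

lemma ev_topf (d : ℕ) (b : ℕ → ℕ → MvPolynomial σ A) (x y : MvPolynomial σ A) :
    eval₂ φ z (topf d b x y) = topf d (fun i j => eval₂ φ z (b i j)) (eval₂ φ z x)
      (eval₂ φ z y) :=
  map_topf (eval₂Hom φ z) d b x y

lemma ev_hess (d : ℕ) (b : ℕ → ℕ → MvPolynomial σ A) (x y : MvPolynomial σ A) :
    eval₂ φ z (hess d b x y) = hess d (fun i j => eval₂ φ z (b i j)) (eval₂ φ z x)
      (eval₂ φ z y) :=
  map_hess (eval₂Hom φ z) d b x y

lemma ev_ax (b : ℕ → ℕ → MvPolynomial σ A) :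
    (fun i j => eval₂ φ z (ax b i j)) = ax (fun i j => eval₂ φ z (b i j)) :=
  map_ax (eval₂Hom φ z) b

lemma ev_ay (b : ℕ → ℕ → MvPolynomial σ A) :
    (fun i j => eval₂ φ z (ay b i j)) = ay (fun i j => eval₂ φ z (b i j)) :=
  map_ay (eval₂Hom φ z) b

end Eval

variable {A : Type} [CommRing A] [IsDomain A] {K : Type} [Field K] [IsAlgClosed K] [Algebra A K]

/-- Spreading out. -/
theorem spread_fam (hinj : Function.Injective (algebraMap A K)) {σ : Type} [Finite σ]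
    (S : Set (MvPolynomial σ A)) (h : ¬ ∃ z : σ → K, ∀ f ∈ S, eval₂ (algebraMap A K) z f = 0) :
    ∃ M : A, M ≠ 0 ∧ ∀ (Ω : Type) [Field Ω] (φ : A →+* Ω), φ M ≠ 0 →
      ¬ ∃ z : σ → Ω, ∀ f ∈ S, eval₂ φ z f = 0 := by
  obtain ⟨M, hM, hMS⟩ := spread K hinj S (by
    intro ⟨z, hz⟩
    exact h ⟨z, fun f hf => hz f hf⟩)
  refine ⟨M, hM, ?_⟩
  intro Ω _ φ hφ ⟨z, hz⟩
  exact hφ (spread_apply hMS φ z hz)

variable (a : ℕ → ℕ → A) (d : ℕ)

theorem spread_hess (hinj : Function.Injective (algebraMap A K))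
    (h : GoodHess d (fun i j => algebraMap A K (a i j))) :
    ∃ M : A, M ≠ 0 ∧ ∀ (Ω : Type) [Field Ω] (φ : A →+* Ω), φ M ≠ 0 →
      GoodHess d (fun i j => φ (a i j)) := by
  let c : ℕ → ℕ → MvPolynomial (Fin 2) A := fun i j => C (a i j)
  obtain ⟨M, hM, hMS⟩ := spread_fam hinj ({val (d - 1) (ax c) (X 0) (X 1),
    val (d - 1) (ay c) (X 0) (X 1), hess d c (X 0) (X 1)} : Set (MvPolynomial (Fin 2) A)) (by
      rintro ⟨z, hz⟩
      have h1 := hz _ (by simp : val (d - 1) (ax c) (X 0) (X 1) ∈ _)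
      have h2 := hz _ (by simp : val (d - 1) (ay c) (X 0) (X 1) ∈ _)
      have h3 := hz _ (by simp : hess d c (X 0) (X 1) ∈ _)
      simp only [ev_val, ev_hess, ev_ax, ev_ay, eval₂_X, c, eval₂_C] at h1 h2 h3
      exact h _ _ h1 h2 h3)
  refine ⟨M, hM, ?_⟩
  intro Ω _ φ hφ x y hx hy hh
  apply hMS Ω φ hφ
  refine ⟨![x, y], ?_⟩
  intro f hf
  simp only [Set.mem_insert_iff, Set.mem_singleton_iff] at hf
  rcases hf with rfl | rfl | rfl
  · (simp only [ev_val, ev_hess, ev_ax, ev_ay, eval₂_X, c, eval₂_C]; exact hx)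
  · (simp only [ev_val, ev_hess, ev_ax, ev_ay, eval₂_X, c, eval₂_C]; exact hy)
  · (simp only [ev_val, ev_hess, ev_ax, ev_ay, eval₂_X, c, eval₂_C]; exact hh)

theorem spread_val (hinj : Function.Injective (algebraMap A K))
    (h : GoodVal d (fun i j => algebraMap A K (a i j))) :
    ∃ M : A, M ≠ 0 ∧ ∀ (Ω : Type) [Field Ω] (φ : A →+* Ω), φ M ≠ 0 →
      GoodVal d (fun i j => φ (a i j)) := by
  let c : ℕ → ℕ → MvPolynomial (Fin 5) A := fun i j => C (a i j)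
  have key : ∀ u v : Fin 5, (u = 0 ∧ v = 2) ∨ (u = 1 ∧ v = 3) →
      ∃ M : A, M ≠ 0 ∧ ∀ (Ω : Type) [Field Ω] (φ : A →+* Ω), φ M ≠ 0 →
      ¬ ∃ z : Fin 5 → Ω, ∀ f ∈ ({val (d - 1) (ax c) (X 0) (X 1),
        val (d - 1) (ay c) (X 0) (X 1), val (d - 1) (ax c) (X 2) (X 3),
        val (d - 1) (ay c) (X 2) (X 3), val d c (X 0) (X 1) - val d c (X 2) (X 3),
        X 4 * (X u - X v) - 1} : Set (MvPolynomial (Fin 5) A)), eval₂ φ z f = 0 := by
    intro u v huv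
    apply spread_fam hinj
    rintro ⟨z, hz⟩
    have h1 := hz _ (by simp : val (d - 1) (ax c) (X 0) (X 1) ∈ _)
    have h2 := hz _ (by simp : val (d - 1) (ay c) (X 0) (X 1) ∈ _)
    have h3 := hz _ (by simp : val (d - 1) (ax c) (X 2) (X 3) ∈ _)
    have h4 := hz _ (by simp : val (d - 1) (ay c) (X 2) (X 3) ∈ _)
    have h5 := hz _ (by simp : val d c (X 0) (X 1) - val d c (X 2) (X 3) ∈ _)
    have h6 := hz _ (by simp : (X 4 * (X u - X v) - 1 : MvPolynomial (Fin 5) A) ∈ _)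
    simp only [ev_val, ev_ax, ev_ay, eval₂_X, c, eval₂_C, eval₂_sub, eval₂_mul,
      eval₂_one] at h1 h2 h3 h4 h5 h6
    obtain ⟨e1, e2⟩ := h _ _ _ _ h1 h2 h3 h4 (sub_eq_zero.mp h5)
    rcases huv with ⟨rfl, rfl⟩ | ⟨rfl, rfl⟩
    · rw [e1] at h6
      simp at h6
    · rw [e2] at h6
      simp at h6
  obtain ⟨M1, hM1, h1⟩ := key 0 2 (Or.inl ⟨rfl, rfl⟩)
  obtain ⟨M2, hM2, h2⟩ := key 1 3 (Or.inr ⟨rfl, rfl⟩)
  refine ⟨M1 * M2, mul_ne_zero hM1 hM2, ?_⟩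
  intro Ω _ φ hφ x y x' y' g1 g2 g3 g4 g5
  rw [map_mul] at hφ
  constructor
  · by_contra hne
    apply h1 Ω φ (left_ne_zero_of_mul hφ)
    refine ⟨![x, y, x', y', (x - x')⁻¹], ?_⟩
    intro f hf
    simp only [Set.mem_insert_iff, Set.mem_singleton_iff] at hf
    have hne' : x - x' ≠ 0 := sub_ne_zero.mpr hne
    rcases hf with rfl | rfl | rfl | rfl | rfl | rfl
    · (simp only [ev_val, ev_ax, ev_ay, eval₂_X, c, eval₂_C]; exact g1)
    · (simp only [ev_val, ev_ax, ev_ay, eval₂_X, c, eval₂_C]; exact g2)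
    · (simp only [ev_val, ev_ax, ev_ay, eval₂_X, c, eval₂_C]; exact g3)
    · (simp only [ev_val, ev_ax, ev_ay, eval₂_X, c, eval₂_C]; exact g4)
    · simp only [ev_val, eval₂_X, c, eval₂_C, eval₂_sub]
      exact sub_eq_zero.mpr g5
    · simp only [eval₂_X, eval₂_sub, eval₂_mul, eval₂_one]
      show (x - x')⁻¹ * (x - x') - 1 = 0
      rw [inv_mul_cancel₀ hne', sub_self]
  · by_contra hne
    apply h2 Ω φ (right_ne_zero_of_mul hφ)
    refine ⟨![x, y, x', y', (y - y')⁻¹], ?_⟩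
    intro f hf
    simp only [Set.mem_insert_iff, Set.mem_singleton_iff] at hf
    have hne' : y - y' ≠ 0 := sub_ne_zero.mpr hne
    rcases hf with rfl | rfl | rfl | rfl | rfl | rfl
    · (simp only [ev_val, ev_ax, ev_ay, eval₂_X, c, eval₂_C]; exact g1)
    · (simp only [ev_val, ev_ax, ev_ay, eval₂_X, c, eval₂_C]; exact g2)
    · (simp only [ev_val, ev_ax, ev_ay, eval₂_X, c, eval₂_C]; exact g3)
    · (simp only [ev_val, ev_ax, ev_ay, eval₂_X, c, eval₂_C]; exact g4)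
    · simp only [ev_val, eval₂_X, c, eval₂_C, eval₂_sub]
      exact sub_eq_zero.mpr g5
    · simp only [eval₂_X, eval₂_sub, eval₂_mul, eval₂_one]
      show (y - y')⁻¹ * (y - y') - 1 = 0
      rw [inv_mul_cancel₀ hne', sub_self]

theorem spread_infty (hinj : Function.Injective (algebraMap A K))
    (h : GoodInfty d (fun i j => algebraMap A K (a i j))) :
    ∃ M : A, M ≠ 0 ∧ ∀ (Ω : Type) [Field Ω] (φ : A →+* Ω), φ M ≠ 0 →
      GoodInfty d (fun i j => φ (a i j)) := by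
  let c : ℕ → ℕ → MvPolynomial (Fin 3) A := fun i j => C (a i j)
  have key : ∀ u : Fin 3, u = 0 ∨ u = 1 →
      ∃ M : A, M ≠ 0 ∧ ∀ (Ω : Type) [Field Ω] (φ : A →+* Ω), φ M ≠ 0 →
      ¬ ∃ z : Fin 3 → Ω, ∀ f ∈ ({topf d c (X 0) (X 1), topf (d - 1) (ax c) (X 0) (X 1),
        topf (d - 1) (ay c) (X 0) (X 1),
        X 2 * X u - 1} : Set (MvPolynomial (Fin 3) A)), eval₂ φ z f = 0 := by
    intro u hu
    apply spread_fam hinj
    rintro ⟨z, hz⟩
    have h0 := hz _ (by simp : topf d c (X 0) (X 1) ∈ _)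
    have h1 := hz _ (by simp : topf (d - 1) (ax c) (X 0) (X 1) ∈ _)
    have h2 := hz _ (by simp : topf (d - 1) (ay c) (X 0) (X 1) ∈ _)
    have h6 := hz _ (by simp : (X 2 * X u - 1 : MvPolynomial (Fin 3) A) ∈ _)
    simp only [ev_topf, ev_ax, ev_ay, eval₂_X, c, eval₂_C, eval₂_sub, eval₂_mul,
      eval₂_one] at h0 h1 h2 h6
    obtain ⟨e1, e2⟩ := h _ _ h0 h1 h2
    rcases hu with rfl | rfl
    · rw [e1] at h6
      simp at h6
    · rw [e2] at h6
      simp at h6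
  obtain ⟨M1, hM1, h1⟩ := key 0 (Or.inl rfl)
  obtain ⟨M2, hM2, h2⟩ := key 1 (Or.inr rfl)
  refine ⟨M1 * M2, mul_ne_zero hM1 hM2, ?_⟩
  intro Ω _ φ hφ x y g0 g1 g2
  rw [map_mul] at hφ
  constructor
  · by_contra hne
    apply h1 Ω φ (left_ne_zero_of_mul hφ)
    refine ⟨![x, y, x⁻¹], ?_⟩
    intro f hf
    simp only [Set.mem_insert_iff, Set.mem_singleton_iff] at hf
    rcases hf with rfl | rfl | rfl | rfl
    · (simp only [ev_topf, ev_ax, ev_ay, eval₂_X, c, eval₂_C]; exact g0)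
    · (simp only [ev_topf, ev_ax, ev_ay, eval₂_X, c, eval₂_C]; exact g1)
    · (simp only [ev_topf, ev_ax, ev_ay, eval₂_X, c, eval₂_C]; exact g2)
    · simp only [eval₂_X, eval₂_sub, eval₂_mul, eval₂_one]
      show x⁻¹ * x - 1 = 0
      rw [inv_mul_cancel₀ hne, sub_self]
  · by_contra hne
    apply h2 Ω φ (right_ne_zero_of_mul hφ)
    refine ⟨![x, y, y⁻¹], ?_⟩
    intro f hf
    simp only [Set.mem_insert_iff, Set.mem_singleton_iff] at hf
    rcases hf with rfl | rfl | rfl | rfl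
    · (simp only [ev_topf, ev_ax, ev_ay, eval₂_X, c, eval₂_C]; exact g0)
    · (simp only [ev_topf, ev_ax, ev_ay, eval₂_X, c, eval₂_C]; exact g1)
    · (simp only [ev_topf, ev_ax, ev_ay, eval₂_X, c, eval₂_C]; exact g2)
    · simp only [eval₂_X, eval₂_sub, eval₂_mul, eval₂_one]
      show y⁻¹ * y - 1 = 0
      rw [inv_mul_cancel₀ hne, sub_self]

end Pool.Agent.Helper5Plane
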