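import Pool.Agent.Helper5_Plane.Sard

/-!
# The family theorem
-/

namespace Pool.Agent.Helper5Plane

open Finset Polynomial

/-- For almost all `x` the fibre is separable. -/
def FibSep (d : ℕ) (a : ℕ → ℕ → ℂ) (c : ℂ) : Prop :=
  ∃ Z : Finset ℂ, ∀ x ∉ Z, ∀ y : ℂ, val d a x y + c = 0 → val (d - 1) (ay a) x y ≠ 0

theorem family2 {A : Type} [CommRing A] [IsDomain A] [CharZero A] (d : ℕ) (hd : 2 ≤ d)
    (a : ℕ → ℕ → A)
    (hM : IsMorse d (fun i j => algebraMap A (AlgebraicClosure (FractionRing A)) (a i j))) :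
    ∃ (M : A) (R : A[X]) (N : ℕ), M ≠ 0 ∧ R.natDegree ≠ 0 ∧
      ((∀ x y : FractionRing A,
        val (d - 1) (ax (fun i j => algebraMap A (FractionRing A) (a i j))) x y = 0 →
        val (d - 1) (ay (fun i j => algebraMap A (FractionRing A) (a i j))) x y ≠ 0) →
          2 ≤ R.natDegree) ∧
      (∃ U V : A[X], U * R + V * derivative R = C M) ∧
      (∀ (Ω : Type) [Field Ω] (φ : A →+* Ω), φ M ≠ 0 → GoodInfty d (fun i j => φ (a i j)) ∧
        φ R.leadingCoeff ≠ 0 ∧ ∀ c : Ω, (R.map φ).eval c = 0 →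
          OneNode d (fun i j => φ (a i j)) c) ∧
      (∀ φ : A →+* ℂ, φ M ≠ 0 → ∃ Bad : Finset ℂ, Bad.card ≤ N ∧ ∀ c ∉ Bad,
        AffSmooth d (fun i j => φ (a i j)) c ∧ FibSep d (fun i j => φ (a i j)) c) := by
  classical
  set K := AlgebraicClosure (FractionRing A) with hK
  have hinj : Function.Injective (algebraMap A K) := by
    rw [IsScalarTower.algebraMap_eq A (FractionRing A) K]
    exact (algebraMap (FractionRing A) K).injective.comp
      (IsFractionRing.injective A (FractionRing A))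
  obtain ⟨M1, hM1, h1⟩ := spread_infty a d hinj hM.infty
  obtain ⟨M2, hM2, h2⟩ := spread_hess a d hinj hM.hess
  obtain ⟨M3, hM3, h3⟩ := spread_val a d hinj hM.value
  obtain ⟨M4, R, hM4, hR, hR2, ⟨U, V, hUV⟩, h4⟩ := exists_node_fam2 d a hM.value hM.crit
  obtain ⟨S1, hS1, h5⟩ := smooth_fam d hd a hM.hess
  have htop : a 0 d ≠ 0 ∨ a 1 (d - 1) ≠ 0 := by
    rcases top_coeffs d hd _ hM.infty with h | h
    · left
      intro h0
      apply h
      simp [h0]
    · right
      intro h0
      apply h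
      simp [h0]
  obtain ⟨S2, hS2, h6⟩ := sep_fam d hd a htop
  have hl1 : S1.leadingCoeff ≠ 0 := leadingCoeff_ne_zero.mpr hS1
  have hl2 : S2.leadingCoeff.leadingCoeff ≠ 0 :=
    leadingCoeff_ne_zero.mpr (leadingCoeff_ne_zero.mpr hS2)
  refine ⟨M1 * M2 * M3 * M4 * S1.leadingCoeff * S2.leadingCoeff.leadingCoeff, R,
    S1.natDegree + S2.natDegree, by positivity, hR, hR2, ?_, ?_, ?_⟩
  · refine ⟨C (M1 * M2 * M3 * S1.leadingCoeff * S2.leadingCoeff.leadingCoeff) * U,
      C (M1 * M2 * M3 * S1.leadingCoeff * S2.leadingCoeff.leadingCoeff) * V, ?_⟩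
    simp only [C_mul]
    linear_combination (C M1 * C M2 * C M3 * C S1.leadingCoeff *
      C S2.leadingCoeff.leadingCoeff) * hUV
  · intro Ω _ φ hφ
    simp only [map_mul] at hφ
    have e5 := left_ne_zero_of_mul hφ
    have e4 := left_ne_zero_of_mul e5
    have e3 := left_ne_zero_of_mul e4
    have e2 := left_ne_zero_of_mul e3
    have g4 : φ M4 ≠ 0 := right_ne_zero_of_mul e4
    have g3 : φ M3 ≠ 0 := right_ne_zero_of_mul e3
    have g2 : φ M2 ≠ 0 := right_ne_zero_of_mul e2
    have g1 : φ M1 ≠ 0 := left_ne_zero_of_mul e2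
    obtain ⟨k1, k2⟩ := h4 Ω φ g4
    refine ⟨h1 Ω φ g1, k1, ?_⟩
    intro c hc
    obtain ⟨x, y, e0, ex, ey⟩ := k2 c hc
    refine ⟨h1 Ω φ g1, x, y, ⟨e0, ex, ey⟩, h2 Ω φ g2 x y ex ey, ?_⟩
    intro x' y' e0' ex' ey'
    apply h3 Ω φ g3 x' y' x y ex' ey' ex ey
    rw [← add_right_cancel_iff (a := c), e0, e0']
  · intro φ hφ
    simp only [map_mul] at hφ
    have g6 : φ S2.leadingCoeff.leadingCoeff ≠ 0 := right_ne_zero_of_mul hφ
    have g5 : φ S1.leadingCoeff ≠ 0 := right_ne_zero_of_mul (left_ne_zero_of_mul hφ)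
    have n1 : S1.map φ ≠ 0 := by
      intro h0
      apply g5
      have := congrArg (fun p => coeff p S1.natDegree) h0
      simpa [coeff_map] using this
    have n2 : S2.map (mapRingHom φ) ≠ 0 := by
      intro h0
      apply g6
      have := congrArg (fun p => coeff (coeff p S2.natDegree) S2.leadingCoeff.natDegree) h0
      simpa [coeff_map] using this
    refine ⟨(S1.map φ).roots.toFinset ∪
      (S2.map (mapRingHom φ)).roots.toFinset.image (fun p => p.eval 0), ?_, ?_⟩
    · refine (card_union_le _ _).trans (add_le_add ?_ ?_)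
      · exact (Multiset.toFinset_card_le _).trans ((card_roots' _).trans natDegree_map_le)
      · exact card_image_le.trans ((Multiset.toFinset_card_le _).trans
          ((card_roots' _).trans natDegree_map_le))
    · intro c hc
      rw [mem_union, not_or] at hc
      obtain ⟨hc1, hc2⟩ := hc
      constructor
      · apply h5 ℂ φ c
        intro h0
        apply hc1
        rw [Multiset.mem_toFinset, mem_roots n1, IsRoot.def, eval_map]
        exact h0
      · set s := (S2.map (mapRingHom φ)).eval (C c) with hs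
        have hs0 : s ≠ 0 := by
          intro h0
          apply hc2
          rw [mem_image]
          refine ⟨C c, ?_, by simp⟩
          rw [Multiset.mem_toFinset, mem_roots n2, IsRoot.def, ← hs, h0]
        refine ⟨s.roots.toFinset, ?_⟩
        intro x hx y
        apply h6 ℂ φ x c
        intro h0
        apply hx
        rw [Multiset.mem_toFinset, mem_roots hs0, IsRoot.def, hs, eval_map]
        have h7 : (evalRingHom x) (eval₂ (mapRingHom φ) (C c) S2) =
            eval₂ ((evalRingHom x).comp (mapRingHom φ)) ((evalRingHom x) (C c)) S2 :=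
          hom_eval₂ S2 (mapRingHom φ) (evalRingHom x) (C c)
        have h8 : (evalRingHom x).comp (mapRingHom φ) = eval₂RingHom φ x := by
          apply Polynomial.ringHom_ext
          · intro r
            simp
          · simp
        rw [h8] at h7
        simp only [coe_evalRingHom, eval_C] at h7
        rw [h7]
        exact h0

theorem family {A : Type} [CommRing A] [IsDomain A] [CharZero A] (d : ℕ) (hd : 2 ≤ d)
    (a : ℕ → ℕ → A)
    (hM : IsMorse d (fun i j => algebraMap A (AlgebraicClosure (FractionRing A)) (a i j))) :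
    ∃ (M : A) (R : A[X]) (N : ℕ), M ≠ 0 ∧ R.natDegree ≠ 0 ∧
      (∀ (Ω : Type) [Field Ω] (φ : A →+* Ω), φ M ≠ 0 → GoodInfty d (fun i j => φ (a i j)) ∧
        φ R.leadingCoeff ≠ 0 ∧ ∀ c : Ω, (R.map φ).eval c = 0 →
          OneNode d (fun i j => φ (a i j)) c) ∧
      (∀ φ : A →+* ℂ, φ M ≠ 0 → ∃ Bad : Finset ℂ, Bad.card ≤ N ∧ ∀ c ∉ Bad,
        AffSmooth d (fun i j => φ (a i j)) c ∧ FibSep d (fun i j => φ (a i j)) c) := by
  obtain ⟨M, R, N, h1, h2, -, -, h3⟩ := family2 d hd a hM
  exact ⟨M, R, N, h1, h2, h3⟩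

end Pool.Agent.Helper5Plane
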