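import Mathlib

/-!
# Counting parameters
-/

namespace Pool.Agent.Helper5Plane

open Finset MvPolynomial Cardinal

/-- An algebraic closure of the field of rational functions. -/
abbrev GK (ι : Type) : Type := AlgebraicClosure (FractionRing (MvPolynomial ι ℤ))

/-- The generic coefficients in an algebraic closure. -/
noncomputable def gx (ι : Type) (p : ι) : GK ι :=
  algebraMap (MvPolynomial ι ℤ) _ (X p)

/-- If all generic coefficients lie in every field containing `w` and the coefficients outside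
`E`, then `E` has at most as many elements as `w`. -/
theorem trans_count {ι : Type} [Fintype ι] [DecidableEq ι] (E : Finset ι) {r : ℕ}
    (w : Fin r → GK ι)
    (h : ∀ S : Subfield (GK ι), (∀ p ∉ E, gx ι p ∈ S) → (∀ k, w k ∈ S) →
      ∀ p ∈ E, gx ι p ∈ S) : E.card ≤ r := by
  let z : {p // p ∉ E} ⊕ Fin r → GK ι := Sum.elim (fun p => gx ι p.1) w
  let R1 := Algebra.adjoin ℤ (Set.range z)
  let S : Subfield (GK ι) :=
    { (Subalgebra.algebraicClosure R1 (GK ι)).toSubring with
      inv_mem' := fun x hx => IsAlgebraic.inv hx }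
  have hmem : ∀ y : GK ι, y ∈ S ↔ IsAlgebraic R1 y := fun y => Iff.rfl
  have hz : ∀ k, z k ∈ S := by
    intro k
    rw [hmem]
    exact isAlgebraic_algebraMap (⟨z k, Algebra.subset_adjoin ⟨k, rfl⟩⟩ : R1)
  have h1 : ∀ p ∉ E, gx ι p ∈ S := fun p hp => hz (Sum.inl ⟨p, hp⟩)
  have h2 : ∀ k, w k ∈ S := fun k => hz (Sum.inr k)
  have h3 : ∀ p, gx ι p ∈ S := by
    intro p
    by_cases hp : p ∈ E
    · exact h S h1 h2 p hp
    · exact h1 p hp
  have hinj : Function.Injective (algebraMap (MvPolynomial ι ℤ) (GK ι)) := by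
    rw [IsScalarTower.algebraMap_eq (MvPolynomial ι ℤ) (FractionRing (MvPolynomial ι ℤ)) (GK ι)]
    exact (algebraMap (FractionRing (MvPolynomial ι ℤ)) (GK ι)).injective.comp
      (IsFractionRing.injective _ _)
  have halg : Algebra.IsAlgebraic (MvPolynomial ι ℤ) (GK ι) :=
    (IsFractionRing.comap_isAlgebraic_iff (K := FractionRing (MvPolynomial ι ℤ))).mpr
      (AlgebraicClosure.isAlgebraic _)
  have hfs : FaithfulSMul (MvPolynomial ι ℤ) (GK ι) :=
    (faithfulSMul_iff_algebraMap_injective _ _).mpr hinj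
  have hb : IsTranscendenceBasis ℤ (gx ι) :=
    (IsTranscendenceBasis.mvPolynomial ι ℤ).algebraMap_comp (A := GK ι)
  have halg1 : Algebra.IsAlgebraic R1 (GK ι) := hb.isAlgebraic_iff.mpr fun p => (hmem _).mp (h3 p)
  have h4 : Algebra.trdeg ℤ (GK ι) ≤ #(Set.range z) :=
    Algebra.IsAlgebraic.trdeg_le_cardinalMk ℤ (Set.range z)
  have h5 : #ι = Algebra.trdeg ℤ (GK ι) := hb.cardinalMk_eq_trdeg
  have h6 : #(Set.range z) ≤ #({p // p ∉ E} ⊕ Fin r) := mk_range_le
  have h7 : #ι ≤ #({p // p ∉ E} ⊕ Fin r) := by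
    rw [h5]
    exact h4.trans h6
  rw [mk_fintype, mk_fintype, Nat.cast_le, Fintype.card_sum, Fintype.card_fin,
    Fintype.card_subtype_compl, Fintype.card_coe] at h7
  have h8 : E.card ≤ Fintype.card ι := card_le_univ E
  omega

end Pool.Agent.Helper5Plane
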