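import Pool.Agent.Helper5_Plane.Pencil
import Pool.Agent.Helper5_Plane.Trdeg

/-!
# The generic plane curve: conditions at infinity, Hessian, critical values
-/

namespace Pool.Agent.Helper5Plane

open Finset

section Single

variable {R : Type*} [CommRing R]

/-- One coefficient. -/
def sgl (k l : ℕ) (t : R) : ℕ → ℕ → R := fun i j => if i = k ∧ j = l then t else 0

lemma val_add (d : ℕ) (a b : ℕ → ℕ → R) (x y : R) :
    val d (fun i j => a i j + b i j) x y = val d a x y + val d b x y := by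
  simp only [val, add_mul, sum_add_distrib]

lemma topf_add (d : ℕ) (a b : ℕ → ℕ → R) (x y : R) :
    topf d (fun i j => a i j + b i j) x y = topf d a x y + topf d b x y := by
  simp only [topf, add_mul, sum_add_distrib]

lemma val_sgl (d k l : ℕ) (h : k + l ≤ d) (t x y : R) :
    val d (sgl k l t) x y = t * x ^ k * y ^ l := by
  rw [val, sum_eq_single_of_mem k (mem_range.mpr (by omega)),
    sum_eq_single_of_mem l (mem_range.mpr (by omega))]
  · simp [sgl]
  · intro j _ hj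
    simp [sgl, hj]
  · intro i _ hi
    apply sum_eq_zero
    intro j _
    simp [sgl, hi]

lemma topf_sgl (d k l : ℕ) (h : k + l = d) (t x y : R) :
    topf d (sgl k l t) x y = t * x ^ k * y ^ l := by
  rw [topf, sum_eq_single_of_mem k (mem_range.mpr (by omega))]
  · have : d - k = l := by omega
    simp [sgl, this]
  · intro i _ hi
    simp [sgl, hi]

lemma topf_sgl_ne (d k l : ℕ) (h : k + l ≠ d) (t x y : R) :
    topf d (sgl k l t) x y = 0 := by
  rw [topf]
  apply sum_eq_zero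
  intro i hi
  rw [mem_range] at hi
  have : ¬ (i = k ∧ d - i = l) := by omega
  simp [sgl, this]

lemma ax_add (a b : ℕ → ℕ → R) :
    ax (fun i j => a i j + b i j) = fun i j => ax a i j + ax b i j := by
  funext i j
  simp only [ax]
  ring

lemma ay_add (a b : ℕ → ℕ → R) :
    ay (fun i j => a i j + b i j) = fun i j => ay a i j + ay b i j := by
  funext i j
  simp only [ay]
  ring

lemma ax_sgl (k l : ℕ) (t : R) : ax (sgl (k + 1) l t) = sgl k l (((k + 1 : ℕ) : R) * t) := by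
  funext i j
  simp only [ax, sgl]
  by_cases h : i = k ∧ j = l
  · rw [if_pos h, if_pos ⟨by rw [h.1], h.2⟩, h.1]
  · rw [if_neg h, if_neg (by
      intro h'
      exact h ⟨by omega, h'.2⟩), mul_zero]

lemma ax_sgl_zero (l : ℕ) (t : R) : ax (sgl 0 l t) = fun _ _ => 0 := by
  funext i j
  simp [ax, sgl]

lemma ay_sgl (k l : ℕ) (t : R) : ay (sgl k (l + 1) t) = sgl k l (((l + 1 : ℕ) : R) * t) := by
  funext i j
  simp only [ay, sgl]
  by_cases h : i = k ∧ j = l
  · rw [if_pos h, if_pos ⟨h.1, by rw [h.2]⟩, h.2]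
  · rw [if_neg h, if_neg (by
      intro h'
      exact h ⟨h'.1, by omega⟩), mul_zero]

lemma ay_sgl_zero (k : ℕ) (t : R) : ay (sgl k 0 t) = fun _ _ => 0 := by
  funext i j
  simp [ay, sgl]

lemma val_zero (d : ℕ) (x y : R) : val d (fun _ _ => (0 : R)) x y = 0 := by
  simp [val]

lemma topf_zero (d : ℕ) (x y : R) : topf d (fun _ _ => (0 : R)) x y = 0 := by
  simp [topf]

lemma val_swap (d : ℕ) (a : ℕ → ℕ → R) (x y : R) :
    val d (fun i j => a j i) y x = val d a x y := by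
  rw [val, val]
  rw [sum_comm' (t' := range (d + 1)) (s' := fun j => range (d + 1 - j))]
  · refine sum_congr rfl fun i _ => sum_congr rfl fun j _ => ?_
    ring
  · intro i j
    simp only [mem_range]
    omega

end Single

section Mem

variable {K : Type} [Field K] (S : Subfield K)

lemma val_memS (d : ℕ) (a : ℕ → ℕ → K) (x y : K) (ha : ∀ i j, a i j ∈ S) (hx : x ∈ S)
    (hy : y ∈ S) : val d a x y ∈ S :=
  sum_mem fun i _ => sum_mem fun j _ => mul_mem (mul_mem (ha i j) (pow_mem hx i)) (pow_mem hy j)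

lemma topf_memS (d : ℕ) (a : ℕ → ℕ → K) (x y : K) (ha : ∀ i j, a i j ∈ S) (hx : x ∈ S)
    (hy : y ∈ S) : topf d a x y ∈ S :=
  sum_mem fun i _ => mul_mem (mul_mem (ha i _) (pow_mem hx i)) (pow_mem hy _)

lemma ax_memS (a : ℕ → ℕ → K) (ha : ∀ i j, a i j ∈ S) (i j : ℕ) : ax a i j ∈ S :=
  mul_mem (natCast_mem S _) (ha _ _)

lemma ay_memS (a : ℕ → ℕ → K) (ha : ∀ i j, a i j ∈ S) (i j : ℕ) : ay a i j ∈ S :=
  mul_mem (natCast_mem S _) (ha _ _)

end Mem

/-- The exceptional indices for two critical points with the same value. -/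
def E5 : Finset (ℕ × ℕ) := {(1, 0), (2, 0), (3, 0), (0, 1), (1, 1)}

/-- Solving for five coefficients. -/
theorem solve5 {K : Type} [Field K] [CharZero K] (S : Subfield K) (d : ℕ) (hd : 3 ≤ d)
    (a : ℕ → ℕ → K) (ha : ∀ i j, (i, j) ∉ E5 → a i j ∈ S) (x1 y1 x2 y2 : K)
    (hx1 : x1 ∈ S) (hy1 : y1 ∈ S) (hx2 : x2 ∈ S) (hy2 : y2 ∈ S) (hne : x1 ≠ x2)
    (e1 : val (d - 1) (ax a) x1 y1 = 0) (e2 : val (d - 1) (ay a) x1 y1 = 0)
    (e3 : val (d - 1) (ax a) x2 y2 = 0) (e4 : val (d - 1) (ay a) x2 y2 = 0)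
    (e5 : val d a x1 y1 = val d a x2 y2) : ∀ q ∈ E5, a q.1 q.2 ∈ S := by
  set a' : ℕ → ℕ → K := fun i j => if (i, j) ∈ E5 then 0 else a i j with ha'
  have hmem : ∀ i j, a' i j ∈ S := by
    intro i j
    simp only [ha']
    split_ifs with h
    · exact zero_mem S
    · exact ha i j h
  have hdec : a = fun i j => (((((a' i j + sgl 1 0 (a 1 0) i j) + sgl 2 0 (a 2 0) i j) +
      sgl 3 0 (a 3 0) i j) + sgl 0 1 (a 0 1) i j) + sgl 1 1 (a 1 1) i j) := by
    funext i j
    simp only [ha', sgl, E5, mem_insert, mem_singleton, Prod.mk.injEq]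
    by_cases h1 : i = 1 ∧ j = 0
    · obtain ⟨rfl, rfl⟩ := h1
      simp
    by_cases h2 : i = 2 ∧ j = 0
    · obtain ⟨rfl, rfl⟩ := h2
      simp
    by_cases h3 : i = 3 ∧ j = 0
    · obtain ⟨rfl, rfl⟩ := h3
      simp
    by_cases h4 : i = 0 ∧ j = 1
    · obtain ⟨rfl, rfl⟩ := h4
      simp
    by_cases h5 : i = 1 ∧ j = 1
    · obtain ⟨rfl, rfl⟩ := h5
      simp
    simp [h1, h2, h3, h4, h5]
  set α := a 1 0
  set β := a 2 0
  set γ := a 3 0
  set ε := a 0 1
  set δ := a 1 1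
  have hvx : ∀ x y : K, val (d - 1) (ax a) x y = val (d - 1) (ax a') x y + α + 2 * β * x +
      3 * γ * x ^ 2 + δ * y := by
    intro x y
    rw [hdec]
    simp only [ax_add, val_add]
    have h1 : ax (sgl 1 0 α) = sgl 0 0 (((0 + 1 : ℕ) : K) * α) := ax_sgl 0 0 α
    have h2 : ax (sgl 2 0 β) = sgl 1 0 (((1 + 1 : ℕ) : K) * β) := ax_sgl 1 0 β
    have h3 : ax (sgl 3 0 γ) = sgl 2 0 (((2 + 1 : ℕ) : K) * γ) := ax_sgl 2 0 γ
    have h4 : ax (sgl 0 1 ε) = fun _ _ => 0 := ax_sgl_zero 1 ε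
    have h5 : ax (sgl 1 1 δ) = sgl 0 1 (((0 + 1 : ℕ) : K) * δ) := ax_sgl 0 1 δ
    rw [h1, h2, h3, h4, h5, val_zero, val_sgl _ _ _ (by omega), val_sgl _ _ _ (by omega),
      val_sgl _ _ _ (by omega), val_sgl _ _ _ (by omega)]
    push_cast
    ring
  have hvy : ∀ x y : K, val (d - 1) (ay a) x y = val (d - 1) (ay a') x y + ε + δ * x := by
    intro x y
    rw [hdec]
    simp only [ay_add, val_add]
    have h1 : ay (sgl 1 0 α) = fun _ _ => 0 := ay_sgl_zero 1 α
    have h2 : ay (sgl 2 0 β) = fun _ _ => 0 := ay_sgl_zero 2 β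
    have h3 : ay (sgl 3 0 γ) = fun _ _ => 0 := ay_sgl_zero 3 γ
    have h4 : ay (sgl 0 1 ε) = sgl 0 0 (((0 + 1 : ℕ) : K) * ε) := ay_sgl 0 0 ε
    have h5 : ay (sgl 1 1 δ) = sgl 1 0 (((0 + 1 : ℕ) : K) * δ) := ay_sgl 1 0 δ
    rw [h1, h2, h3, h4, h5, val_zero, val_sgl _ _ _ (by omega), val_sgl _ _ _ (by omega)]
    push_cast
    ring
  have hv : ∀ x y : K, val d a x y = val d a' x y + α * x + β * x ^ 2 + γ * x ^ 3 + ε * y +
      δ * x * y := by
    intro x y
    conv_lhs => rw [hdec]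
    simp only [val_add]
    rw [val_sgl _ _ _ (by omega), val_sgl _ _ _ (by omega), val_sgl _ _ _ (by omega),
      val_sgl _ _ _ (by omega), val_sgl _ _ _ (by omega)]
    ring
  rw [hvx] at e1 e3
  rw [hvy] at e2 e4
  rw [hv, hv] at e5
  have m1 := val_memS S (d - 1) (ax a') x1 y1 (ax_memS S a' hmem) hx1 hy1
  have m2 := val_memS S (d - 1) (ay a') x1 y1 (ay_memS S a' hmem) hx1 hy1
  have m3 := val_memS S (d - 1) (ax a') x2 y2 (ax_memS S a' hmem) hx2 hy2
  have m4 := val_memS S (d - 1) (ay a') x2 y2 (ay_memS S a' hmem) hx2 hy2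
  have m5 := val_memS S d a' x1 y1 hmem hx1 hy1
  have m6 := val_memS S d a' x2 y2 hmem hx2 hy2
  set u1 := val (d - 1) (ax a') x1 y1
  set v1 := val (d - 1) (ay a') x1 y1
  set u2 := val (d - 1) (ax a') x2 y2
  set v2 := val (d - 1) (ay a') x2 y2
  set w1 := val d a' x1 y1
  set w2 := val d a' x2 y2
  have hd0 : x1 - x2 ≠ 0 := sub_ne_zero.mpr hne
  have hdS : x1 - x2 ∈ S := sub_mem hx1 hx2
  have two : (2 : K) ∈ S := by exact_mod_cast natCast_mem S 2
  have three : (3 : K) ∈ S := by exact_mod_cast natCast_mem S 3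
  have hδ : δ ∈ S := by
    have : δ = (v2 - v1) / (x1 - x2) := by
      rw [eq_div_iff hd0]
      linear_combination e2 - e4
    rw [this]
    exact div_mem (sub_mem m4 m2) hdS
  have hε : ε ∈ S := by
    have : ε = - (v1 + δ * x1) := by linear_combination e2
    rw [this]
    exact neg_mem (add_mem m2 (mul_mem hδ hx1))
  have hγ : γ ∈ S := by
    have h1 : γ * (x1 - x2) ^ 3 = 2 * (w1 - w2) + 2 * ε * (y1 - y2) +
        2 * δ * (x1 * y1 - x2 * y2) - (x1 - x2) * (u1 + u2 + δ * (y1 + y2)) := by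
      linear_combination (x1 - x2) * e1 + (x1 - x2) * e3 - 2 * e5
    have h2 : γ = (2 * (w1 - w2) + 2 * ε * (y1 - y2) +
        2 * δ * (x1 * y1 - x2 * y2) - (x1 - x2) * (u1 + u2 + δ * (y1 + y2))) /
        (x1 - x2) ^ 3 := by
      rw [eq_div_iff (pow_ne_zero 3 hd0), h1]
    rw [h2]
    refine div_mem (sub_mem (add_mem (add_mem (mul_mem two (sub_mem m5 m6)) ?_) ?_) ?_)
      (pow_mem hdS 3)
    · exact mul_mem (mul_mem two hε) (sub_mem hy1 hy2)
    · exact mul_mem (mul_mem two hδ) (sub_mem (mul_mem hx1 hy1) (mul_mem hx2 hy2))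
    · exact mul_mem hdS (add_mem (add_mem m1 m3) (mul_mem hδ (add_mem hy1 hy2)))
  have hβ : β ∈ S := by
    have h1 : β * (2 * (x1 - x2)) = (u2 - u1) - 3 * γ * (x1 ^ 2 - x2 ^ 2) - δ * (y1 - y2) := by
      linear_combination e1 - e3
    have h2 : β = ((u2 - u1) - 3 * γ * (x1 ^ 2 - x2 ^ 2) - δ * (y1 - y2)) /
        (2 * (x1 - x2)) := by
      rw [eq_div_iff (mul_ne_zero two_ne_zero hd0), h1]
    rw [h2]
    refine div_mem (sub_mem (sub_mem (sub_mem m3 m1) ?_) ?_) (mul_mem two hdS)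
    · exact mul_mem (mul_mem three hγ) (sub_mem (pow_mem hx1 2) (pow_mem hx2 2))
    · exact mul_mem hδ (sub_mem hy1 hy2)
  have hα : α ∈ S := by
    have : α = - (u1 + 2 * β * x1 + 3 * γ * x1 ^ 2 + δ * y1) := by linear_combination e1
    rw [this]
    exact neg_mem (add_mem (add_mem (add_mem m1 (mul_mem (mul_mem two hβ) hx1))
      (mul_mem (mul_mem three hγ) (pow_mem hx1 2))) (mul_mem hδ hy1))
  intro q hq
  simp only [E5, mem_insert, mem_singleton] at hq
  rcases hq with rfl | rfl | rfl | rfl | rfl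
  · exact hα
  · exact hβ
  · exact hγ
  · exact hε
  · exact hδ

end Pool.Agent.Helper5Plane
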