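import Pool.Agent.Helper5_Plane.Gen1

/-!
# The generic plane curve is Morse
-/

namespace Pool.Agent.Helper5Plane

open Finset

/-- The indices `(i, j)` with `1 ≤ i + j ≤ d`. -/
abbrev CoefIdx (d : ℕ) : Type :=
  {p : Fin (d + 1) × Fin (d + 1) // 1 ≤ (p.1 : ℕ) + (p.2 : ℕ) ∧ (p.1 : ℕ) + (p.2 : ℕ) ≤ d}

/-- The index of `(i, j)`. -/
def mkIdx (d i j : ℕ) (h : 1 ≤ i + j ∧ i + j ≤ d) : CoefIdx d :=
  ⟨(⟨i, by omega⟩, ⟨j, by omega⟩), h⟩

/-- The coefficients of the polynomial without constant term attached to a vector. -/
def coef (d : ℕ) {R : Type*} [Zero R] (b : CoefIdx d → R) (i j : ℕ) : R :=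
  if h : 1 ≤ i + j ∧ i + j ≤ d then b (mkIdx d i j h) else 0

lemma coef_map (d : ℕ) {R S : Type*} [CommRing R] [CommRing S] (φ : R →+* S)
    (b : CoefIdx d → R) (i j : ℕ) : φ (coef d b i j) = coef d (fun p => φ (b p)) i j := by
  unfold coef
  split_ifs
  · rfl
  · exact map_zero φ

/-- The generic coefficients. -/
noncomputable def ga (d : ℕ) : ℕ → ℕ → GK (CoefIdx d) := coef d (gx (CoefIdx d))

lemma ga_eq (d : ℕ) : ga d = fun i j =>
    algebraMap (MvPolynomial (CoefIdx d) ℤ) (GK (CoefIdx d)) (coef d MvPolynomial.X i j) := by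
  funext i j
  rw [coef_map]
  rfl

/-- Counting parameters for the generic plane curve. -/
theorem trans_count' (d : ℕ) (e0 : Finset (ℕ × ℕ))
    (he0 : ∀ q ∈ e0, 1 ≤ q.1 + q.2 ∧ q.1 + q.2 ≤ d) {r : ℕ} (w : Fin r → GK (CoefIdx d))
    (h : ∀ S : Subfield (GK (CoefIdx d)), (∀ i j, (i, j) ∉ e0 → ga d i j ∈ S) →
      (∀ k, w k ∈ S) → ∀ q ∈ e0, ga d q.1 q.2 ∈ S) : e0.card ≤ r := by
  classical
  set E : Finset (CoefIdx d) := univ.filter (fun p => ((p.1.1 : ℕ), (p.1.2 : ℕ)) ∈ e0) with hE
  have h1 : E.card ≤ r := by
    apply trans_count E w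
    intro S hS hw
    have h2 := h S (by
      intro i j hij
      unfold ga coef
      split_ifs with h3
      · apply hS
        rw [hE, mem_filter, not_and]
        intro _
        exact hij
      · exact zero_mem S) hw
    intro p hp
    rw [hE, mem_filter] at hp
    have h3 := h2 _ hp.2
    unfold ga coef at h3
    rw [dif_pos p.2] at h3
    exact h3
  refine le_trans ?_ h1
  apply card_le_card_of_surjOn (fun p : CoefIdx d => ((p.1.1 : ℕ), (p.1.2 : ℕ)))
  intro q hq
  refine ⟨mkIdx d q.1 q.2 (he0 q hq), ?_, rfl⟩
  rw [hE, coe_filter]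
  exact ⟨mem_univ _, hq⟩

/-- Distinct critical points of the generic curve have distinct values. -/
theorem generic_val (d : ℕ) (hd : 3 ≤ d) : GoodVal d (ga d) := by
  intro x1 y1 x2 y2 e1 e2 e3 e4 e5
  have hw : ∀ (S : Subfield (GK (CoefIdx d))), (∀ k, ![x1, y1, x2, y2] k ∈ S) →
      x1 ∈ S ∧ y1 ∈ S ∧ x2 ∈ S ∧ y2 ∈ S := fun S h => ⟨h 0, h 1, h 2, h 3⟩
  constructor
  · by_contra hne
    have := trans_count' d E5 (by
      intro q hq
      simp only [E5, mem_insert, mem_singleton] at hq
      rcases hq with rfl | rfl | rfl | rfl | rfl <;> simp <;> omega) ![x1, y1, x2, y2] (by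
      intro S hS hk
      obtain ⟨k1, k2, k3, k4⟩ := hw S hk
      exact solve5 S d hd (ga d) hS x1 y1 x2 y2 k1 k2 k3 k4 hne e1 e2 e3 e4 e5)
    have h5 : E5.card = 5 := rfl
    omega
  · by_contra hne
    set aT : ℕ → ℕ → GK (CoefIdx d) := fun i j => ga d j i with haT
    have hax : ax aT = fun i j => ay (ga d) j i := rfl
    have hay : ay aT = fun i j => ax (ga d) j i := rfl
    set e0 : Finset (ℕ × ℕ) := {(0, 1), (0, 2), (0, 3), (1, 0), (1, 1)} with he0
    have hswap : ∀ i j, (i, j) ∈ E5 ↔ (j, i) ∈ e0 := by
      intro i j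
      simp only [E5, he0, mem_insert, mem_singleton, Prod.mk.injEq]
      tauto
    have := trans_count' d e0 (by
      intro q hq
      simp only [he0, mem_insert, mem_singleton] at hq
      rcases hq with rfl | rfl | rfl | rfl | rfl <;> simp <;> omega) ![x1, y1, x2, y2] (by
      intro S hS hk
      obtain ⟨k1, k2, k3, k4⟩ := hw S hk
      have h6 := solve5 S d hd aT (fun i j hij => hS j i (fun h => hij ((hswap i j).mpr h)))
        y1 x1 y2 x2 k2 k1 k4 k3 hne (by rw [hax, val_swap]; exact e2)
        (by rw [hay, val_swap]; exact e1) (by rw [hax, val_swap]; exact e4)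
        (by rw [hay, val_swap]; exact e3) (by
          rw [show val d aT y1 x1 = val d (ga d) x1 y1 from val_swap d (ga d) x1 y1,
            show val d aT y2 x2 = val d (ga d) x2 y2 from val_swap d (ga d) x2 y2]
          exact e5)
      intro q hq
      exact h6 (q.2, q.1) ((hswap q.2 q.1).mpr hq))
    have h5 : e0.card = 5 := rfl
    omega

/-- The Hessian does not vanish at the critical points of the generic curve. -/
theorem generic_hess (d : ℕ) (hd : 3 ≤ d) : GoodHess d (ga d) := by
  intro x y e1 e2 e3
  have two : ∀ S : Subfield (GK (CoefIdx d)), (2 : GK (CoefIdx d)) ∈ S :=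
    fun S => by exact_mod_cast natCast_mem S 2
  by_cases hyy : val (d - 2) (ay (ay (ga d))) x y = 0
  · set e0 : Finset (ℕ × ℕ) := {(1, 0), (0, 1), (0, 2)} with he0
    have := trans_count' d e0 (by
      intro q hq
      simp only [he0, mem_insert, mem_singleton] at hq
      rcases hq with rfl | rfl | rfl <;> simp <;> omega) ![x, y] (by
      intro S hS hk
      have hxS : x ∈ S := hk 0
      have hyS : y ∈ S := hk 1
      set a' : ℕ → ℕ → GK (CoefIdx d) := fun i j => if (i, j) ∈ e0 then 0 else ga d i j with ha'
      have hmem : ∀ i j, a' i j ∈ S := by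
        intro i j
        simp only [ha']
        split_ifs with h
        · exact zero_mem S
        · exact hS i j h
      have hdec : ga d = fun i j => (((a' i j + sgl 1 0 (ga d 1 0) i j) +
          sgl 0 1 (ga d 0 1) i j) + sgl 0 2 (ga d 0 2) i j) := by
        funext i j
        simp only [ha', sgl, he0, mem_insert, mem_singleton, Prod.mk.injEq]
        by_cases h1 : i = 1 ∧ j = 0
        · obtain ⟨rfl, rfl⟩ := h1
          simp
        by_cases h2 : i = 0 ∧ j = 1
        · obtain ⟨rfl, rfl⟩ := h2
          simp
        by_cases h3 : i = 0 ∧ j = 2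
        · obtain ⟨rfl, rfl⟩ := h3
          simp
        simp [h1, h2, h3]
      set α := ga d 1 0
      set ε := ga d 0 1
      set β := ga d 0 2
      have h1 : ax (sgl 1 0 α) = sgl 0 0 (((0 + 1 : ℕ) : GK (CoefIdx d)) * α) := ax_sgl 0 0 α
      have h2 : ax (sgl 0 1 ε) = fun _ _ => 0 := ax_sgl_zero 1 ε
      have h3 : ax (sgl 0 2 β) = fun _ _ => 0 := ax_sgl_zero 2 β
      have k1 : ay (sgl 1 0 α) = fun _ _ => 0 := ay_sgl_zero 1 α
      have k2 : ay (sgl 0 1 ε) = sgl 0 0 (((0 + 1 : ℕ) : GK (CoefIdx d)) * ε) := ay_sgl 0 0 ε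
      have k3 : ay (sgl 0 2 β) = sgl 0 1 (((1 + 1 : ℕ) : GK (CoefIdx d)) * β) := ay_sgl 0 1 β
      have e1' : val (d - 1) (ax a') x y + α = 0 := by
        rw [hdec] at e1
        simp only [ax_add, val_add] at e1
        rw [h1, h2, h3, val_zero, val_sgl _ _ _ (by omega)] at e1
        simpa using e1
      have e2' : val (d - 1) (ay a') x y + ε + 2 * β * y = 0 := by
        rw [hdec] at e2
        simp only [ay_add, val_add] at e2
        rw [k1, k2, k3, val_zero, val_sgl _ _ _ (by omega), val_sgl _ _ _ (by omega)] at e2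
        push_cast at e2
        linear_combination e2
      have hyy' : val (d - 2) (ay (ay a')) x y + 2 * β = 0 := by
        rw [hdec] at hyy
        simp only [ay_add] at hyy
        rw [k1, k2, k3] at hyy
        simp only [ay_add, val_add] at hyy
        have q1 : ay (fun _ _ => (0 : GK (CoefIdx d))) = fun _ _ => 0 := by
          funext i j
          simp [ay]
        rw [q1, ay_sgl_zero, ay_sgl 0 0 (((1 + 1 : ℕ) : GK (CoefIdx d)) * β), val_zero,
          val_sgl _ _ _ (by omega)] at hyy
        push_cast at hyy
        linear_combination hyy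
      have hβ : β ∈ S := by
        have : β = - val (d - 2) (ay (ay a')) x y / 2 := by
          rw [eq_div_iff two_ne_zero]
          linear_combination hyy'
        rw [this]
        exact div_mem (neg_mem (val_memS S _ _ _ _ (ay_memS S _ (ay_memS S a' hmem)) hxS hyS))
          (two S)
      have hα : α ∈ S := by
        have : α = - val (d - 1) (ax a') x y := by linear_combination e1'
        rw [this]
        exact neg_mem (val_memS S _ _ _ _ (ax_memS S a' hmem) hxS hyS)
      have hε : ε ∈ S := by
        have : ε = - (val (d - 1) (ay a') x y + 2 * β * y) := by linear_combination e2'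
        rw [this]
        exact neg_mem (add_mem (val_memS S _ _ _ _ (ay_memS S a' hmem) hxS hyS)
          (mul_mem (mul_mem (two S) hβ) hyS))
      intro q hq
      simp only [he0, mem_insert, mem_singleton] at hq
      rcases hq with rfl | rfl | rfl
      · exact hα
      · exact hε
      · exact hβ)
    have h5 : e0.card = 3 := rfl
    omega
  · set e0 : Finset (ℕ × ℕ) := {(1, 0), (0, 1), (2, 0)} with he0
    have := trans_count' d e0 (by
      intro q hq
      simp only [he0, mem_insert, mem_singleton] at hq
      rcases hq with rfl | rfl | rfl <;> simp <;> omega) ![x, y] (by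
      intro S hS hk
      have hxS : x ∈ S := hk 0
      have hyS : y ∈ S := hk 1
      set a' : ℕ → ℕ → GK (CoefIdx d) := fun i j => if (i, j) ∈ e0 then 0 else ga d i j with ha'
      have hmem : ∀ i j, a' i j ∈ S := by
        intro i j
        simp only [ha']
        split_ifs with h
        · exact zero_mem S
        · exact hS i j h
      have hdec : ga d = fun i j => (((a' i j + sgl 1 0 (ga d 1 0) i j) +
          sgl 0 1 (ga d 0 1) i j) + sgl 2 0 (ga d 2 0) i j) := by
        funext i j
        simp only [ha', sgl, he0, mem_insert, mem_singleton, Prod.mk.injEq]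
        by_cases h1 : i = 1 ∧ j = 0
        · obtain ⟨rfl, rfl⟩ := h1
          simp
        by_cases h2 : i = 0 ∧ j = 1
        · obtain ⟨rfl, rfl⟩ := h2
          simp
        by_cases h3 : i = 2 ∧ j = 0
        · obtain ⟨rfl, rfl⟩ := h3
          simp
        simp [h1, h2, h3]
      set α := ga d 1 0
      set ε := ga d 0 1
      set β := ga d 2 0
      have h1 : ax (sgl 1 0 α) = sgl 0 0 (((0 + 1 : ℕ) : GK (CoefIdx d)) * α) := ax_sgl 0 0 α
      have h2 : ax (sgl 0 1 ε) = fun _ _ => 0 := ax_sgl_zero 1 ε
      have h3 : ax (sgl 2 0 β) = sgl 1 0 (((1 + 1 : ℕ) : GK (CoefIdx d)) * β) := ax_sgl 1 0 β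
      have k1 : ay (sgl 1 0 α) = fun _ _ => 0 := ay_sgl_zero 1 α
      have k2 : ay (sgl 0 1 ε) = sgl 0 0 (((0 + 1 : ℕ) : GK (CoefIdx d)) * ε) := ay_sgl 0 0 ε
      have k3 : ay (sgl 2 0 β) = fun _ _ => 0 := ay_sgl_zero 2 β
      have q1 : ay (fun _ _ => (0 : GK (CoefIdx d))) = fun _ _ => 0 := by
        funext i j
        simp [ay]
      have q2 : ax (fun _ _ => (0 : GK (CoefIdx d))) = fun _ _ => 0 := by
        funext i j
        simp [ax]
      have e1' : val (d - 1) (ax a') x y + α + 2 * β * x = 0 := by
        rw [hdec] at e1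
        simp only [ax_add, val_add] at e1
        rw [h1, h2, h3, val_zero, val_sgl _ _ _ (by omega), val_sgl _ _ _ (by omega)] at e1
        push_cast at e1
        linear_combination e1
      have e2' : val (d - 1) (ay a') x y + ε = 0 := by
        rw [hdec] at e2
        simp only [ay_add, val_add] at e2
        rw [k1, k2, k3, val_zero, val_sgl _ _ _ (by omega)] at e2
        simpa using e2
      have hxx : val (d - 2) (ax (ax (ga d))) x y = val (d - 2) (ax (ax a')) x y + 2 * β := by
        rw [hdec]
        simp only [ax_add]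
        rw [h1, h2, h3]
        simp only [ax_add, val_add]
        rw [q2, ax_sgl_zero, ax_sgl 0 0 (((1 + 1 : ℕ) : GK (CoefIdx d)) * β), val_zero,
          val_sgl _ _ _ (by omega)]
        push_cast
        ring
      have hyyS : val (d - 2) (ay (ay (ga d))) x y = val (d - 2) (ay (ay a')) x y := by
        rw [hdec]
        simp only [ay_add]
        rw [k1, k2, k3]
        simp only [ay_add, val_add]
        rw [q1, ay_sgl_zero, val_zero]
        ring
      have hxyS : val (d - 2) (ax (ay (ga d))) x y = val (d - 2) (ax (ay a')) x y := by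
        rw [hdec]
        simp only [ay_add]
        rw [k1, k2, k3]
        simp only [ax_add, val_add]
        rw [q2, ax_sgl_zero, val_zero]
        ring
      have m1 := val_memS S (d - 2) _ x y (ax_memS S _ (ax_memS S a' hmem)) hxS hyS
      have m2 := val_memS S (d - 2) _ x y (ay_memS S _ (ay_memS S a' hmem)) hxS hyS
      have m3 := val_memS S (d - 2) _ x y (ax_memS S _ (ay_memS S a' hmem)) hxS hyS
      have hβ : β ∈ S := by
        unfold hess at e3
        rw [hxx] at e3
        rw [hyyS] at e3 hyy
        rw [hxyS] at e3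
        have : β = (val (d - 2) (ax (ay a')) x y ^ 2 / val (d - 2) (ay (ay a')) x y -
            val (d - 2) (ax (ax a')) x y) / 2 := by
          field_simp
          linear_combination e3
        rw [this]
        exact div_mem (sub_mem (div_mem (pow_mem m3 2) m2) m1) (two S)
      have hα : α ∈ S := by
        have : α = - (val (d - 1) (ax a') x y + 2 * β * x) := by linear_combination e1'
        rw [this]
        exact neg_mem (add_mem (val_memS S _ _ _ _ (ax_memS S a' hmem) hxS hyS)
          (mul_mem (mul_mem (two S) hβ) hxS))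
      have hε : ε ∈ S := by
        have : ε = - val (d - 1) (ay a') x y := by linear_combination e2'
        rw [this]
        exact neg_mem (val_memS S _ _ _ _ (ay_memS S a' hmem) hxS hyS)
      intro q hq
      simp only [he0, mem_insert, mem_singleton] at hq
      rcases hq with rfl | rfl | rfl
      · exact hα
      · exact hε
      · exact hβ)
    have h5 : e0.card = 3 := rfl
    omega

/-- Homogeneity of the top form. -/
lemma topf_smul {R : Type*} [CommRing R] (d : ℕ) (a : ℕ → ℕ → R) (t x y : R) :
    topf d a (t * x) (t * y) = t ^ d * topf d a x y := by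
  simp only [topf, mul_sum]
  refine sum_congr rfl fun i hi => ?_
  rw [mem_range] at hi
  have h : t ^ d = t ^ i * t ^ (d - i) := by
    rw [← pow_add]
    congr 1
    omega
  rw [h, mul_pow, mul_pow]
  ring

/-- The generic curve is smooth at infinity. -/
theorem generic_infty (d : ℕ) (hd : 3 ≤ d) : GoodInfty d (ga d) := by
  intro x y e0 e1 e2
  have hy : y = 0 := by
    by_contra hy0
    set s := y⁻¹ * x with hs
    have f0 : topf d (ga d) s 1 = 0 := by
      have := topf_smul d (ga d) y⁻¹ x y
      rw [inv_mul_cancel₀ hy0, e0, mul_zero] at this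
      exact this
    have f1 : topf (d - 1) (ax (ga d)) s 1 = 0 := by
      have := topf_smul (d - 1) (ax (ga d)) y⁻¹ x y
      rw [inv_mul_cancel₀ hy0, e1, mul_zero] at this
      exact this
    set E : Finset (ℕ × ℕ) := {(0, d), (1, d - 1)} with hE
    have := trans_count' d E (by
      intro q hq
      simp only [hE, mem_insert, mem_singleton] at hq
      rcases hq with rfl | rfl <;> simp <;> omega) ![s] (by
      intro S hS hk
      have hsS : s ∈ S := hk 0
      set a' : ℕ → ℕ → GK (CoefIdx d) := fun i j => if (i, j) ∈ E then 0 else ga d i j with ha'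
      have hmem : ∀ i j, a' i j ∈ S := by
        intro i j
        simp only [ha']
        split_ifs with h
        · exact zero_mem S
        · exact hS i j h
      have hdec : ga d = fun i j => ((a' i j + sgl 0 d (ga d 0 d) i j) +
          sgl 1 (d - 1) (ga d 1 (d - 1)) i j) := by
        funext i j
        simp only [ha', sgl, hE, mem_insert, mem_singleton, Prod.mk.injEq]
        by_cases h1 : i = 0 ∧ j = d
        · obtain ⟨rfl, rfl⟩ := h1
          simp
        by_cases h2 : i = 1 ∧ j = d - 1
        · obtain ⟨rfl, rfl⟩ := h2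
          simp
        simp [h1, h2]
      set α := ga d 0 d
      set β := ga d 1 (d - 1)
      have h1 : ax (sgl 0 d α) = fun _ _ => 0 := ax_sgl_zero d α
      have h2 : ax (sgl 1 (d - 1) β) = sgl 0 (d - 1) (((0 + 1 : ℕ) : GK (CoefIdx d)) * β) :=
        ax_sgl 0 (d - 1) β
      have f1' : topf (d - 1) (ax a') s 1 + β = 0 := by
        rw [hdec] at f1
        simp only [ax_add, topf_add] at f1
        rw [h1, h2, topf_zero, topf_sgl _ _ _ (by omega)] at f1
        simpa using f1
      have f0' : topf d a' s 1 + α + β * s = 0 := by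
        rw [hdec] at f0
        simp only [topf_add] at f0
        rw [topf_sgl _ _ _ (by omega), topf_sgl _ _ _ (by omega)] at f0
        simpa using f0
      have hβ : β ∈ S := by
        have : β = - topf (d - 1) (ax a') s 1 := by linear_combination f1'
        rw [this]
        exact neg_mem (topf_memS S _ _ _ _ (ax_memS S a' hmem) hsS (one_mem S))
      have hα : α ∈ S := by
        have : α = - (topf d a' s 1 + β * s) := by linear_combination f0'
        rw [this]
        exact neg_mem (add_mem (topf_memS S _ _ _ _ hmem hsS (one_mem S)) (mul_mem hβ hsS))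
      intro q hq
      simp only [hE, mem_insert, mem_singleton] at hq
      rcases hq with rfl | rfl
      · exact hα
      · exact hβ)
    have h5 : E.card = 2 := by
      rw [hE, card_insert_of_notMem, card_singleton]
      simp
    omega
  refine ⟨?_, hy⟩
  by_contra hx0
  have h1 : topf d (ga d) x 0 = ga d d 0 * x ^ d := by
    rw [topf, sum_eq_single_of_mem d (mem_range.mpr (by omega))]
    · simp
    · intro i hi hne
      rw [mem_range] at hi
      have : d - i ≠ 0 := by omega
      simp [this]
  rw [hy, h1] at e0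
  have h2 : ga d d 0 = 0 := (mul_eq_zero.mp e0).resolve_right (pow_ne_zero _ hx0)
  have := trans_count' d {(d, 0)} (by
    intro q hq
    rw [mem_singleton] at hq
    subst hq
    simp
    omega) (![] : Fin 0 → GK (CoefIdx d)) (by
    intro S _ _ q hq
    rw [mem_singleton] at hq
    subst hq
    show ga d d 0 ∈ S
    rw [h2]
    exact zero_mem S)
  simp at this

end Pool.Agent.Helper5Plane
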