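import Pool.Agent.Helper5_Plane.Gen2

/-!
# Existence of critical points of the generic curve
-/

namespace Pool.Agent.Helper5Plane

open Finset

/-- Nondegenerate critical points are integral over the base field. -/
theorem crit_integral' {k L : Type} [Field k] [Field L] [Algebra k L] (d : ℕ) (hd : 3 ≤ d)
    (a : ℕ → ℕ → k) (x y : L)
    (hx : val (d - 1) (ax (fun i j => algebraMap k L (a i j))) x y = 0)
    (hy : val (d - 1) (ay (fun i j => algebraMap k L (a i j))) x y = 0)
    (hh : hess d (fun i j => algebraMap k L (a i j)) x y ≠ 0) :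
    IsIntegral k x ∧ IsIntegral k y := by
  set hL := hess d (fun i j => algebraMap k L (a i j)) x y with hhL
  set f : MvPolynomial (Fin 3) k →ₐ[k] L := MvPolynomial.aeval ![x, y, hL⁻¹] with hf
  set S := f.range with hS
  set fr : MvPolynomial (Fin 3) k →ₐ[k] S := f.rangeRestrict with hfr
  have hfs : Function.Surjective fr := f.rangeRestrict_surjective
  set xs : S := fr (MvPolynomial.X 0) with hxs
  set ys : S := fr (MvPolynomial.X 1) with hys
  set us : S := fr (MvPolynomial.X 2) with hus
  have hxs' : (xs : L) = x := by
    simp [hxs, hfr, hf]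
  have hys' : (ys : L) = y := by
    simp [hys, hfr, hf]
  have hus' : (us : L) = hL⁻¹ := by
    simp [hus, hfr, hf]
  set aS : ℕ → ℕ → S := fun i j => algebraMap k S (a i j) with haS
  have hval : ∀ (e : ℕ) (b : ℕ → ℕ → S), ((val e b xs ys : S) : L) =
      val e (fun i j => (b i j : L)) x y := by
    intro e b
    have := map_val (S.val : S →+* L) e b xs ys
    simpa [hxs', hys'] using this
  have hgx : val (d - 1) (ax aS) xs ys = 0 := by
    apply Subtype.ext
    rw [hval]
    have : (fun i j => ((ax aS i j : S) : L)) = ax (fun i j => algebraMap k L (a i j)) := by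
      funext i j
      simp [ax, haS]
    rw [this, hx]
    rfl
  have hgy : val (d - 1) (ay aS) xs ys = 0 := by
    apply Subtype.ext
    rw [hval]
    have : (fun i j => ((ay aS i j : S) : L)) = ay (fun i j => algebraMap k L (a i j)) := by
      funext i j
      simp [ay, haS]
    rw [this, hy]
    rfl
  have hus2 : us * hess d aS xs ys = 1 := by
    apply Subtype.ext
    have h1 : ((hess d aS xs ys : S) : L) = hL := by
      have := map_hess (S.val : S →+* L) d aS xs ys
      simp only [RingHom.coe_coe, Subalgebra.coe_val, hxs', hys'] at this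
      rw [this, hhL]
      rfl
    rw [MulMemClass.coe_mul, hus', h1, inv_mul_cancel₀ hh]
    rfl
  -- the module of differentials vanishes
  set D := KaehlerDifferential.D k S with hD
  have hDa : ∀ i j, D (aS i j) = 0 := fun i j => D.map_algebraMap _
  have hax : ∀ b : ℕ → ℕ → S, (∀ i j, D (b i j) = 0) → ∀ i j, D (ax b i j) = 0 := by
    intro b hb i j
    simp only [ax, Derivation.leibniz, hb, smul_zero, Derivation.map_natCast, add_zero]
  have hay : ∀ b : ℕ → ℕ → S, (∀ i j, D (b i j) = 0) → ∀ i j, D (ay b i j) = 0 := by
    intro b hb i j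
    simp only [ay, Derivation.leibniz, hb, smul_zero, Derivation.map_natCast, add_zero]
  have r1 := derivation_val D (d - 1) (by omega) (ax aS) (hax _ hDa) xs ys
  have r2 := derivation_val D (d - 1) (by omega) (ay aS) (hay _ hDa) xs ys
  rw [hgx, map_zero, ay_ax, show d - 1 - 1 = d - 2 by omega] at r1
  rw [hgy, map_zero, show d - 1 - 1 = d - 2 by omega] at r2
  have hess_eq : hess d aS xs ys = val (d - 2) (ax (ax aS)) xs ys * val (d - 2) (ay (ay aS)) xs ys
    - val (d - 2) (ax (ay aS)) xs ys ^ 2 := rfl
  have hDx : D xs = 0 := by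
    have e1 : hess d aS xs ys • D xs = 0 := by
      have : val (d - 2) (ay (ay aS)) xs ys • (val (d - 2) (ax (ax aS)) xs ys • D xs +
          val (d - 2) (ax (ay aS)) xs ys • D ys) - val (d - 2) (ax (ay aS)) xs ys •
          (val (d - 2) (ax (ay aS)) xs ys • D xs + val (d - 2) (ay (ay aS)) xs ys • D ys) =
          hess d aS xs ys • D xs := by
        rw [hess_eq]
        module
      rw [← this, ← r1, ← r2, smul_zero, smul_zero, sub_zero]
    calc D xs = (us * hess d aS xs ys) • D xs := by rw [hus2, one_smul]
      _ = us • (hess d aS xs ys • D xs) := by rw [mul_smul]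
      _ = 0 := by rw [e1, smul_zero]
  have hDy : D ys = 0 := by
    have e1 : hess d aS xs ys • D ys = 0 := by
      have : val (d - 2) (ax (ax aS)) xs ys • (val (d - 2) (ax (ay aS)) xs ys • D xs +
          val (d - 2) (ay (ay aS)) xs ys • D ys) - val (d - 2) (ax (ay aS)) xs ys •
          (val (d - 2) (ax (ax aS)) xs ys • D xs + val (d - 2) (ax (ay aS)) xs ys • D ys) =
          hess d aS xs ys • D ys := by
        rw [hess_eq]
        module
      rw [← this, ← r1, ← r2, smul_zero, smul_zero, sub_zero]
    calc D ys = (us * hess d aS xs ys) • D ys := by rw [hus2, one_smul]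
      _ = us • (hess d aS xs ys • D ys) := by rw [mul_smul]
      _ = 0 := by rw [e1, smul_zero]
  have hDv : ∀ (b : ℕ → ℕ → S), (∀ i j, D (b i j) = 0) → D (val (d - 2) b xs ys) = 0 := by
    intro b hb
    rw [derivation_val D (d - 2) (by omega) b hb xs ys, hDx, hDy, smul_zero, smul_zero, add_zero]
  have hDh : D (hess d aS xs ys) = 0 := by
    rw [hess_eq, map_sub, Derivation.leibniz, Derivation.leibniz_pow,
      hDv _ (hax _ (hax _ hDa)), hDv _ (hay _ (hay _ hDa)), hDv _ (hax _ (hay _ hDa))]
    simp
  have hDu : D us = 0 := by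
    have h1 := congrArg D hus2
    rw [Derivation.leibniz, hDh, smul_zero, zero_add, Derivation.map_one_eq_zero] at h1
    calc D us = (us * hess d aS xs ys) • D us := by rw [hus2, one_smul]
      _ = us • (hess d aS xs ys • D us) := by rw [mul_smul]
      _ = 0 := by rw [h1, smul_zero]
  have hDall : ∀ p : MvPolynomial (Fin 3) k, D (fr p) = 0 := by
    intro p
    induction p using MvPolynomial.induction_on with
    | C r =>
      rw [← MvPolynomial.algebraMap_eq, AlgHom.commutes, Derivation.map_algebraMap]
    | add p q hp hq => rw [map_add, map_add, hp, hq, add_zero]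
    | mul_X p i hp =>
      rw [map_mul, Derivation.leibniz, hp, smul_zero, add_zero]
      fin_cases i
      · show fr p • D xs = 0
        rw [hDx, smul_zero]
      · show fr p • D ys = 0
        rw [hDy, smul_zero]
      · show fr p • D us = 0
        rw [hDu, smul_zero]
  have hsub : Subsingleton (Ω[S⁄k]) := by
    have htop : (⊤ : Submodule S (Ω[S⁄k])) = ⊥ := by
      rw [← KaehlerDifferential.span_range_derivation, Submodule.span_eq_bot]
      rintro _ ⟨s, rfl⟩
      obtain ⟨p, rfl⟩ := hfs s
      exact hDall p
    exact (Submodule.subsingleton_iff S).mp ((subsingleton_iff_bot_eq_top).mp htop.symm)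
  have hunr : Algebra.FormallyUnramified k S := ⟨hsub⟩
  have hft : Algebra.FiniteType k S := Algebra.FiniteType.of_surjective fr hfs
  have hfin : Module.Finite k S := Algebra.FormallyUnramified.finite_of_free k S
  have hint : Algebra.IsIntegral k S := Algebra.IsIntegral.of_finite k S
  constructor
  · have := (hint.isIntegral xs).map S.val
    rw [← hxs']
    exact this
  · have := (hint.isIntegral ys).map S.val
    rw [← hys']
    exact this

/-- The same over a domain. -/
theorem crit_algebraic {B L : Type} [CommRing B] [IsDomain B] [Field L] [Algebra B L]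
    (hinj : Function.Injective (algebraMap B L)) (d : ℕ) (hd : 3 ≤ d)
    (a : ℕ → ℕ → B) (x y : L)
    (hx : val (d - 1) (ax (fun i j => algebraMap B L (a i j))) x y = 0)
    (hy : val (d - 1) (ay (fun i j => algebraMap B L (a i j))) x y = 0)
    (hh : hess d (fun i j => algebraMap B L (a i j)) x y ≠ 0) :
    IsAlgebraic B x ∧ IsAlgebraic B y := by
  set k := FractionRing B with hk
  let algkL : Algebra k L := (IsFractionRing.lift hinj).toAlgebra
  have towkL : IsScalarTower B k L := by
    apply IsScalarTower.of_algebraMap_eq
    intro r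
    exact (IsFractionRing.lift_algebraMap hinj r).symm
  have haL : (fun i j => algebraMap B L (a i j)) =
      fun i j => algebraMap k L (algebraMap B k (a i j)) := by
    funext i j
    exact (IsScalarTower.algebraMap_apply B k L (a i j))
  rw [haL] at hx hy hh
  obtain ⟨i0, i1⟩ := crit_integral' (L := L) d hd (fun i j => algebraMap B k (a i j)) x y hx hy hh
  exact ⟨(IsFractionRing.isAlgebraic_iff B k L).mpr i0.isAlgebraic,
    (IsFractionRing.isAlgebraic_iff B k L).mpr i1.isAlgebraic⟩

end Pool.Agent.Helper5Plane
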