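import Pool.Agent.Helper5_Plane.Gen3

/-!
# The generic plane curve has a critical point
-/

namespace Pool.Agent.Helper5Plane

open Finset Cardinal

lemma gk_injective (ι : Type) : Function.Injective (algebraMap (MvPolynomial ι ℤ) (GK ι)) := by
  rw [IsScalarTower.algebraMap_eq (MvPolynomial ι ℤ) (FractionRing (MvPolynomial ι ℤ)) (GK ι)]
  exact (algebraMap (FractionRing (MvPolynomial ι ℤ)) (GK ι)).injective.comp
    (IsFractionRing.injective _ _)

lemma gx_basis (ι : Type) : IsTranscendenceBasis ℤ (gx ι) := by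
  have halg : Algebra.IsAlgebraic (MvPolynomial ι ℤ) (GK ι) :=
    (IsFractionRing.comap_isAlgebraic_iff (K := FractionRing (MvPolynomial ι ℤ))).mpr
      (AlgebraicClosure.isAlgebraic _)
  have hfs : FaithfulSMul (MvPolynomial ι ℤ) (GK ι) :=
    (faithfulSMul_iff_algebraMap_injective _ _).mpr (gk_injective ι)
  exact (IsTranscendenceBasis.mvPolynomial ι ℤ).algebraMap_comp (A := GK ι)

lemma val_zero_zero {R : Type*} [CommRing R] (e : ℕ) (c : ℕ → ℕ → R) : val e c 0 0 = c 0 0 := by
  rw [val, sum_eq_single_of_mem 0 (mem_range.mpr (by omega)),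
    sum_eq_single_of_mem 0 (mem_range.mpr (by omega))]
  · simp
  · intro j _ hj
    simp [hj]
  · intro i _ hi
    apply sum_eq_zero
    intro j _
    simp [hi]

/-- The generic Hessian does not vanish at a generic point. -/
lemma generic_hess_ne (d : ℕ) (hd : 3 ≤ d) :
    hess d (ga d) (gx (CoefIdx d) (mkIdx d 1 0 (by omega)))
      (gx (CoefIdx d) (mkIdx d 0 1 (by omega))) ≠ 0 := by
  classical
  set c : ℕ → ℕ → MvPolynomial (CoefIdx d) ℤ := coef d MvPolynomial.X with hc
  set H := hess d c (MvPolynomial.X (mkIdx d 1 0 (by omega)))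
    (MvPolynomial.X (mkIdx d 0 1 (by omega))) with hH
  have h1 : hess d (ga d) (gx (CoefIdx d) (mkIdx d 1 0 (by omega)))
      (gx (CoefIdx d) (mkIdx d 0 1 (by omega))) =
      algebraMap (MvPolynomial (CoefIdx d) ℤ) (GK (CoefIdx d)) H := by
    rw [hH, map_hess, ga_eq]
    rfl
  rw [h1]
  intro h0
  have h2 : H = 0 := gk_injective _ (by rw [h0, map_zero])
  let b0 : CoefIdx d → ℤ := fun p => if ((p.1.1 : ℕ), (p.1.2 : ℕ)) = (2, 0) ∨
    ((p.1.1 : ℕ), (p.1.2 : ℕ)) = (0, 2) then 1 else 0
  have h3 := congrArg (MvPolynomial.eval b0) h2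
  rw [hH, map_hess, MvPolynomial.eval_X, MvPolynomial.eval_X, map_zero] at h3
  have h4 : (fun i j => (MvPolynomial.eval b0) (c i j)) = coef d b0 := by
    funext i j
    rw [hc, coef_map]
    simp
  rw [h4] at h3
  have h5 : b0 (mkIdx d 1 0 (by omega)) = 0 := by simp [b0, mkIdx]
  have h6 : b0 (mkIdx d 0 1 (by omega)) = 0 := by simp [b0, mkIdx]
  rw [h5, h6, hess, val_zero_zero, val_zero_zero, val_zero_zero] at h3
  have c1 : coef d b0 2 0 = 1 := by
    rw [coef, dif_pos (by omega)]
    simp [b0, mkIdx]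
  have c2 : coef d b0 0 2 = 1 := by
    rw [coef, dif_pos (by omega)]
    simp [b0, mkIdx]
  have c3 : coef d b0 1 1 = 0 := by
    rw [coef, dif_pos (by omega)]
    simp [b0, mkIdx]
  simp only [ax, ay, zero_add] at h3
  rw [show (1 + 1 : ℕ) = 2 from rfl, c1, c2, c3] at h3
  norm_num at h3

/-- **The generic curve has a critical point.** -/
theorem generic_crit (d : ℕ) (hd : 3 ≤ d) : HasCrit d (ga d) := by
  classical
  set ι := CoefIdx d
  set p10 : ι := mkIdx d 1 0 (by omega) with hp10
  set p01 : ι := mkIdx d 0 1 (by omega) with hp01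
  have hne : p01 ≠ p10 := by
    intro h
    have := congrArg (fun p : ι => (p.1.1 : ℕ)) h
    simp [hp10, hp01, mkIdx] at this
  set X : GK ι := gx ι p10 with hX
  set Y : GK ι := gx ι p01 with hY
  set a' : ℕ → ℕ → GK ι := fun i j => if (i, j) = (1, 0) ∨ (i, j) = (0, 1) then 0 else ga d i j
    with ha'
  set b : ι → GK ι := fun p => if p = p10 then - val (d - 1) (ax a') X Y
    else if p = p01 then - val (d - 1) (ay a') X Y else gx ι p with hb
  have hb1 : b p10 = - val (d - 1) (ax a') X Y := by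
    simp [hb]
  have hb2 : b p01 = - val (d - 1) (ay a') X Y := by
    simp [hb, hne]
  have hdec : ∀ (β : ι → GK ι), (∀ p, p ≠ p10 → p ≠ p01 → β p = gx ι p) →
      coef d β = fun i j => (a' i j + sgl 1 0 (β p10) i j) + sgl 0 1 (β p01) i j := by
    intro β hβ
    funext i j
    simp only [ha', sgl, Prod.mk.injEq]
    by_cases h1 : i = 1 ∧ j = 0
    · obtain ⟨rfl, rfl⟩ := h1
      rw [coef, dif_pos (by omega)]
      simp [hp10]
    by_cases h2 : i = 0 ∧ j = 1
    · obtain ⟨rfl, rfl⟩ := h2
      rw [coef, dif_pos (by omega)]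
      simp [hp01]
    simp only [h1, h2, or_self, if_false, add_zero]
    unfold ga coef
    split_ifs with h3
    · apply hβ
      · intro h
        apply h1
        have e1 := congrArg (fun p : ι => (p.1.1 : ℕ)) h
        have e2 := congrArg (fun p : ι => (p.1.2 : ℕ)) h
        simp only [hp10, mkIdx] at e1 e2
        exact ⟨e1, e2⟩
      · intro h
        apply h2
        have e1 := congrArg (fun p : ι => (p.1.1 : ℕ)) h
        have e2 := congrArg (fun p : ι => (p.1.2 : ℕ)) h
        simp only [hp01, mkIdx] at e1 e2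
        exact ⟨e1, e2⟩
    · rfl
  have hcb := hdec b (by
    intro p h1 h2
    simp [hb, h1, h2])
  have hcg := hdec (gx ι) (fun p _ _ => rfl)
  have hvx : val (d - 1) (ax (coef d b)) X Y = 0 := by
    rw [hcb]
    simp only [ax_add, val_add]
    rw [ax_sgl_zero, ax_sgl 0 0 (b p10), val_zero, val_sgl _ _ _ (by omega), hb1]
    push_cast
    ring
  have hvy : val (d - 1) (ay (coef d b)) X Y = 0 := by
    rw [hcb]
    simp only [ay_add, val_add]
    rw [ay_sgl_zero, ay_sgl 0 0 (b p01), val_zero, val_sgl _ _ _ (by omega), hb2]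
    push_cast
    ring
  have q1 : ay (fun _ _ => (0 : GK ι)) = fun _ _ => 0 := by
    funext i j
    simp [ay]
  have q2 : ax (fun _ _ => (0 : GK ι)) = fun _ _ => 0 := by
    funext i j
    simp [ax]
  have hsec : ∀ β : ι → GK ι, (∀ p, p ≠ p10 → p ≠ p01 → β p = gx ι p) →
      hess d (coef d β) X Y = hess d a' X Y := by
    intro β hβ
    rw [hdec β hβ]
    unfold hess
    simp only [ax_add, ay_add]
    rw [ax_sgl_zero, ax_sgl 0 0 (β p10), ay_sgl_zero, ay_sgl 0 0 (β p01)]
    simp only [val_add]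
    rw [q1, q2, ax_sgl_zero, ay_sgl_zero, ax_sgl_zero, val_zero]
    ring
  have hh : hess d (coef d b) X Y ≠ 0 := by
    rw [hsec b (by
      intro p h1 h2
      simp [hb, h1, h2]), ← hsec (gx ι) (fun p _ _ => rfl)]
    exact generic_hess_ne d hd
  -- algebraic independence
  let B := Algebra.adjoin ℤ (Set.range b)
  have hbB : ∀ p, b p ∈ B := fun p => Algebra.subset_adjoin ⟨p, rfl⟩
  let bB : ι → B := fun p => ⟨b p, hbB p⟩
  have hinjB : Function.Injective (algebraMap B (GK ι)) := Subtype.val_injective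
  have hmapB : (fun i j => algebraMap B (GK ι) (coef d bB i j)) = coef d b := by
    funext i j
    rw [coef_map]
    rfl
  obtain ⟨algX, algY⟩ := crit_algebraic hinjB d hd (coef d bB) X Y (by rw [hmapB]; exact hvx)
    (by rw [hmapB]; exact hvy) (by rw [hmapB]; exact hh)
  have hbasis := gx_basis ι
  have halg1 : Algebra.IsAlgebraic B (GK ι) := by
    rw [hbasis.isAlgebraic_iff]
    intro p
    by_cases h1 : p = p10
    · rw [h1]
      exact algX
    by_cases h2 : p = p01
    · rw [h2]
      exact algY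
    have h3 : gx ι p = algebraMap B (GK ι) (bB p) := by
      show gx ι p = b p
      simp [hb, h1, h2]
    rw [h3]
    exact isAlgebraic_algebraMap _
  have htr : #ι = Algebra.trdeg ℤ (GK ι) := hbasis.cardinalMk_eq_trdeg
  have hfs : @FaithfulSMul ℤ (GK ι) Algebra.toSMul :=
    (faithfulSMul_iff_algebraMap_injective ℤ (GK ι)).mpr (RingHom.injective_int _)
  have hbb : IsTranscendenceBasis ℤ b :=
    Algebra.IsAlgebraic.isTranscendenceBasis_of_le_trdeg_of_finite ℤ b htr.le
  have hind : Function.Injective (MvPolynomial.aeval b : MvPolynomial ι ℤ →ₐ[ℤ] GK ι) := hbb.1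
  rw [ga_eq]
  apply HasCrit.descend (gk_injective ι)
  intro M hM
  refine ⟨GK ι, inferInstance, (MvPolynomial.aeval b : MvPolynomial ι ℤ →ₐ[ℤ] GK ι), ?_, X, Y, ?_⟩
  · intro h0
    apply hM
    apply hind
    rw [map_zero]
    exact h0
  · have h1 : (fun i j => ((MvPolynomial.aeval b : MvPolynomial ι ℤ →ₐ[ℤ] GK ι) :
        MvPolynomial ι ℤ →+* GK ι) (coef d MvPolynomial.X i j)) = coef d b := by
      funext i j
      rw [coef_map]
      simp
    rw [h1]
    exact ⟨hvx, hvy⟩

/-- **The generic curve is Morse.** -/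
theorem generic_morse (d : ℕ) (hd : 3 ≤ d) : IsMorse d (ga d) :=
  ⟨generic_infty d hd, generic_hess d hd, generic_val d hd, generic_crit d hd⟩

end Pool.Agent.Helper5Plane
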