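import Pool.Agent.Helper5_Plane.Integ

/-!
# The upper bound for the height
-/

namespace Pool.Agent.Helper5Plane

open Finset MeasureTheory Metric
open scoped ENNReal

/-- Sums over the index set as sums over ranges. -/
lemma sum_formIdx_range {M : Type*} [AddCommMonoid M] (d : ℕ) (f : ℕ → M) :
    ∑ p : FormIdx d, f ((p.1.1 : ℕ) + (p.1.2 : ℕ)) = ∑ m ∈ range (d - 2), (m + 1) • f m := by
  have h1 := sum_formIdx d (fun i j : Fin (d - 2) =>
    if (i : ℕ) + (j : ℕ) < d - 2 then f ((i : ℕ) + (j : ℕ)) else 0)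
    (fun p : FormIdx d => f ((p.1.1 : ℕ) + (p.1.2 : ℕ)))
    (fun p => by rw [if_pos p.2]) (fun i j h => by rw [if_neg h])
  rw [h1, sum_comm]
  rw [Fin.sum_univ_eq_sum_range (fun i => ∑ j : Fin (d - 2),
    if i + (j : ℕ) < d - 2 then f (i + (j : ℕ)) else 0) (d - 2)]
  have h2 : ∀ i ∈ range (d - 2), (∑ j : Fin (d - 2),
      if i + (j : ℕ) < d - 2 then f (i + (j : ℕ)) else 0) =
      ∑ j ∈ range (d - 2 - i), f (i + j) := by
    intro i hi
    rw [Fin.sum_univ_eq_sum_range (fun j => if i + j < d - 2 then f (i + j) else 0) (d - 2),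
      ← sum_filter]
    apply sum_congr _ (fun _ _ => rfl)
    ext j
    simp only [mem_filter, mem_range]
    omega
  rw [sum_congr rfl h2, ← sum_range_diag_flip (d - 2) (fun i j => f (i + j))]
  refine sum_congr rfl fun m hm => ?_
  have h3 : ∀ k ∈ range (m + 1), f (k + (m - k)) = f m := by
    intro k hk
    rw [mem_range] at hk
    congr 1
    omega
  rw [sum_congr rfl h3, sum_const, card_range]

lemma sum_aux1 (n : ℕ) : ∑ m ∈ range n, ((m : ℝ) + 1) = n * (n + 1) / 2 := by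
  induction n with
  | zero => simp
  | succ n ih =>
    rw [sum_range_succ, ih]
    push_cast
    ring

lemma sum_aux2 (n : ℕ) : ∑ m ∈ range n, ((m : ℝ) + 1) * ((m : ℝ) + 2) =
    n * (n + 1) * (n + 2) / 3 := by
  induction n with
  | zero => simp
  | succ n ih =>
    rw [sum_range_succ, ih]
    push_cast
    ring

lemma genus_cast (d : ℕ) (hd : 3 ≤ d) : (genus d : ℝ) = ((d : ℝ) - 1) * (d - 2) / 2 := by
  obtain ⟨e, rfl⟩ : ∃ e, d = e + 2 := ⟨d - 2, by omega⟩
  have h : 2 ∣ (e + 1) * e := by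
    rw [mul_comm]
    exact (Nat.even_mul_succ_self e).two_dvd
  rw [genus, show e + 2 - 1 = e + 1 by omega, show e + 2 - 2 = e by omega,
    Nat.cast_div h (by norm_num)]
  push_cast
  ring

lemma card_formIdx (d : ℕ) (hd : 3 ≤ d) : Fintype.card (FormIdx d) = genus d := by
  have h := sum_formIdx_range d (fun _ => (1 : ℝ))
  rw [sum_const, card_univ, nsmul_eq_mul, mul_one] at h
  have h2 : ∑ m ∈ range (d - 2), (m + 1) • (1 : ℝ) = ∑ m ∈ range (d - 2), ((m : ℝ) + 1) :=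
    sum_congr rfl fun m _ => by simp
  rw [h2, sum_aux1] at h
  have h3 := genus_cast d hd
  have h4 : ((d - 2 : ℕ) : ℝ) = (d : ℝ) - 2 := by
    rw [Nat.cast_sub (by omega)]
    norm_num
  rw [h4] at h
  have : (Fintype.card (FormIdx d) : ℝ) = genus d := by
    rw [h, h3]
    ring
  exact_mod_cast this

lemma sum_weights (d : ℕ) (hd : 3 ≤ d) :
    ∑ p : FormIdx d, (((p.1.1 : ℕ) : ℝ) + 1 + (((p.1.2 : ℕ) : ℝ) + 1)) =
      2 * d * genus d / 3 := by
  have h := sum_formIdx_range d (fun m => (m : ℝ) + 2)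
  have h1 : ∑ p : FormIdx d, (((p.1.1 : ℕ) : ℝ) + 1 + (((p.1.2 : ℕ) : ℝ) + 1)) =
      ∑ p : FormIdx d, ((((p.1.1 : ℕ) + (p.1.2 : ℕ) : ℕ) : ℝ) + 2) :=
    sum_congr rfl fun p _ => by
      push_cast
      ring
  have h2 : ∑ m ∈ range (d - 2), (m + 1) • ((m : ℝ) + 2) =
      ∑ m ∈ range (d - 2), ((m : ℝ) + 1) * ((m : ℝ) + 2) :=
    sum_congr rfl fun m _ => by
      rw [nsmul_eq_mul]
      push_cast
      ring
  have h4 : ((d - 2 : ℕ) : ℝ) = (d : ℝ) - 2 := by
    rw [Nat.cast_sub (by omega)]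
    norm_num
  rw [h1, h, h2, sum_aux2, genus_cast d hd, h4]
  ring

/-- **Lower bound for the norm.** -/
theorem normSq_lower (d : ℕ) (hd : 3 ≤ d) : ∃ c0 : ℝ, 0 < c0 ∧
    ∀ (a : ℕ → ℕ → ℤ) (c : ℤ) (S ρ : ℝ), 0 < ρ → 0 < S →
      (∀ i j, i + j ≤ d → (i, j) ≠ (0, 0) → |(a i j : ℝ)| * ρ ^ (i + j) ≤ S) →
      |((a 0 0 + c : ℤ) : ℝ)| ≤ S → GoodInfty d (fun i j => (a i j : ℂ)) →
      FibSep d (fun i j => (a i j : ℂ)) (c : ℂ) → ∀ v : FormIdx d → ℂ,
      ENNReal.ofReal (c0 / S ^ 2 * ∑ p : FormIdx d,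
        ‖v p‖ ^ 2 * (ρ ^ ((p.1.1 : ℕ) + 1)) ^ 2 * (ρ ^ ((p.1.2 : ℕ) + 1)) ^ 2) ≤
        normSq d a c v := by
  obtain ⟨cd, hcd, hdisc⟩ := disc_lower_scaled (d - 2)
  have hd2 : (0 : ℝ) < (d : ℝ) - 2 := by
    have : (3 : ℝ) ≤ d := by exact_mod_cast hd
    linarith
  have hd0 : (0 : ℝ) < d := by linarith
  refine ⟨(((d : ℝ) - 2) * d * (((d : ℝ) + 1) ^ 2) ^ 2)⁻¹ * cd, by positivity, ?_⟩
  intro a c S ρ hρ hS ha h0 hI hF v
  set κ : ℝ := (((d : ℝ) - 2) * d * (((d : ℝ) + 1) ^ 2 * S) ^ 2)⁻¹ with hκ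
  have hκ0 : 0 < κ := by positivity
  obtain ⟨Z, hZ⟩ := hF
  set Z' : Finset ℂ := insert (-(a 0 (d - 1) : ℂ) / (a 1 (d - 1) : ℂ)) Z with hZ'
  have htop := top_coeffs d (by omega) _ hI
  have hgood : ∀ x : ℂ, x ∉ Z' → ‖x‖ ≤ ρ → ENNReal.ofReal (κ * ∑ j : Fin (d - 2),
      (‖∑ i : Fin (d - 2), ext d v i j * x ^ (i : ℕ)‖ * ρ ^ ((j : ℕ) + 1)) ^ 2) ≤
      ∑' y : {y : ℂ // val d (fun i j => (a i j : ℂ)) x y + (c : ℂ) = 0},
        ENNReal.ofReal (‖formVal d v x y‖ ^ 2 /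
          ‖val (d - 1) (ay fun i j => (a i j : ℂ)) x (y : ℂ)‖ ^ 2) := by
    intro x hx hxρ
    rw [hZ', Finset.mem_insert, not_or] at hx
    apply point_lower d hd _ _ S ρ hρ hS
    · intro i j hij hne
      rw [Complex.norm_intCast]
      exact ha i j hij hne
    · rw [← Int.cast_add, Complex.norm_intCast]
      exact h0
    · exact hxρ
    · exact hZ x hx.2
    · rcases htop with h | h
      · left
        exact h
      · right
        intro h1
        apply hx.1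
        rw [eq_div_iff h]
        linear_combination h1
  have hae : ∀ᵐ x : ℂ, x ∉ Z' := by
    rw [ae_iff]
    have : {x : ℂ | ¬ x ∉ Z'} = (Z' : Set ℂ) := by
      ext x
      simp
    rw [this]
    exact (Finset.finite_toSet Z').measure_zero _
  have hsumj : ∀ x : ℂ, ENNReal.ofReal (κ * ∑ j : Fin (d - 2),
      (‖∑ i : Fin (d - 2), ext d v i j * x ^ (i : ℕ)‖ * ρ ^ ((j : ℕ) + 1)) ^ 2) =
      ∑ j : Fin (d - 2), ENNReal.ofReal (κ * (ρ ^ ((j : ℕ) + 1)) ^ 2) *
        ENNReal.ofReal (‖∑ i : Fin (d - 2), ext d v i j * x ^ (i : ℕ)‖ ^ 2) := by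
    intro x
    rw [Finset.mul_sum, ENNReal.ofReal_sum_of_nonneg (fun _ _ => by positivity)]
    refine sum_congr rfl fun j _ => ?_
    rw [← ENNReal.ofReal_mul (by positivity)]
    congr 1
    ring
  have hmeas : ∀ j : Fin (d - 2), Measurable (fun x : ℂ =>
      ENNReal.ofReal (‖∑ i : Fin (d - 2), ext d v i j * x ^ (i : ℕ)‖ ^ 2)) := by
    intro j
    have hc : Continuous (fun x : ℂ => ‖∑ i : Fin (d - 2), ext d v i j * x ^ (i : ℕ)‖ ^ 2) := by
      fun_prop
    exact ENNReal.measurable_ofReal.comp hc.measurable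
  calc ENNReal.ofReal ((((d : ℝ) - 2) * d * (((d : ℝ) + 1) ^ 2) ^ 2)⁻¹ * cd / S ^ 2 *
        ∑ p : FormIdx d,
        ‖v p‖ ^ 2 * (ρ ^ ((p.1.1 : ℕ) + 1)) ^ 2 * (ρ ^ ((p.1.2 : ℕ) + 1)) ^ 2)
      = ∑ j : Fin (d - 2), ENNReal.ofReal (κ * (ρ ^ ((j : ℕ) + 1)) ^ 2) *
          ENNReal.ofReal (cd * ∑ i : Fin (d - 2),
            ‖ext d v i j‖ ^ 2 * (ρ ^ ((i : ℕ) + 1)) ^ 2) := by
        have h1 : ∀ j ∈ (Finset.univ : Finset (Fin (d - 2))),
            ENNReal.ofReal (κ * (ρ ^ ((j : ℕ) + 1)) ^ 2) *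
            ENNReal.ofReal (cd * ∑ i : Fin (d - 2),
            ‖ext d v i j‖ ^ 2 * (ρ ^ ((i : ℕ) + 1)) ^ 2) =
            ENNReal.ofReal (κ * (ρ ^ ((j : ℕ) + 1)) ^ 2 * (cd * ∑ i : Fin (d - 2),
            ‖ext d v i j‖ ^ 2 * (ρ ^ ((i : ℕ) + 1)) ^ 2)) := by
          intro j _
          rw [ENNReal.ofReal_mul (p := κ * (ρ ^ ((j : ℕ) + 1)) ^ 2) (by positivity)]
        rw [sum_congr rfl h1, ← ENNReal.ofReal_sum_of_nonneg (fun _ _ => by positivity)]
        congr 1
        rw [sum_formIdx d (fun i j => ‖ext d v i j‖ ^ 2 * (ρ ^ ((i : ℕ) + 1)) ^ 2 *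
          (ρ ^ ((j : ℕ) + 1)) ^ 2)]
        · rw [Finset.mul_sum]
          refine sum_congr rfl fun j _ => ?_
          rw [Finset.mul_sum, Finset.mul_sum, Finset.mul_sum]
          refine sum_congr rfl fun i _ => ?_
          rw [hκ]
          field_simp
        · intro p
          rw [ext, dif_pos p.2]
        · intro i j h
          rw [ext, dif_neg h]
          simp
    _ ≤ ∑ j : Fin (d - 2), ENNReal.ofReal (κ * (ρ ^ ((j : ℕ) + 1)) ^ 2) *
          ∫⁻ x : ℂ in ball (0 : ℂ) ρ,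
            ENNReal.ofReal (‖∑ i : Fin (d - 2), ext d v i j * x ^ (i : ℕ)‖ ^ 2) := by
        gcongr with j _
        exact hdisc ρ hρ (fun i => ext d v i j)
    _ = ∫⁻ x : ℂ in ball (0 : ℂ) ρ, ENNReal.ofReal (κ * ∑ j : Fin (d - 2),
      (‖∑ i : Fin (d - 2), ext d v i j * x ^ (i : ℕ)‖ * ρ ^ ((j : ℕ) + 1)) ^ 2) := by
        simp only [hsumj]
        rw [lintegral_finsetSum _ (fun j _ => (hmeas j).const_mul _)]
        refine sum_congr rfl fun j _ => ?_
        rw [lintegral_const_mul _ (hmeas j)]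
    _ ≤ ∫⁻ x : ℂ in ball (0 : ℂ) ρ,
        ∑' y : {y : ℂ // val d (fun i j => (a i j : ℂ)) x y + (c : ℂ) = 0},
        ENNReal.ofReal (‖formVal d v x y‖ ^ 2 /
          ‖val (d - 1) (ay fun i j => (a i j : ℂ)) x (y : ℂ)‖ ^ 2) := by
        apply lintegral_mono_ae
        filter_upwards [ae_restrict_of_ae hae, ae_restrict_mem measurableSet_ball] with x hx hxb
        apply hgood x hx
        rw [mem_ball_zero_iff] at hxb
        exact hxb.le
    _ ≤ normSq d a c v := by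
        exact setLIntegral_le_lintegral _ _

/-- **Upper bound for the height.** -/
theorem hW_le (d : ℕ) (hd : 3 ≤ d) : ∃ C1 : ℝ, 0 ≤ C1 ∧
    ∀ (a : ℕ → ℕ → ℤ) (c : ℤ) (S ρ : ℝ), 0 < ρ → 0 < S →
      (∀ i j, i + j ≤ d → (i, j) ≠ (0, 0) → |(a i j : ℝ)| * ρ ^ (i + j) ≤ S) →
      |((a 0 0 + c : ℤ) : ℝ)| ≤ S → GoodInfty d (fun i j => (a i j : ℂ)) →
      FibSep d (fun i j => (a i j : ℂ)) (c : ℂ) →
      hW d a c ≤ max 0 (C1 + genus d * Real.log S - 2 * d * genus d / 3 * Real.log ρ) := by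
  obtain ⟨c0, hc0, hlow⟩ := normSq_lower d hd
  refine ⟨|1 / 2 * Real.log ((genus d).factorial : ℝ) - genus d / 2 * Real.log c0|,
    abs_nonneg _, ?_⟩
  intro a c S ρ hρ hS ha h0 hI hF
  set D : FormIdx d → ℝ := fun p => c0 / S ^ 2 * ((ρ ^ ((p.1.1 : ℕ) + 1)) ^ 2 *
    (ρ ^ ((p.1.2 : ℕ) + 1)) ^ 2) with hD
  have hD0 : ∀ p, 0 < D p := fun p => by
    rw [hD]
    positivity
  set V : Set (FormIdx d → ℂ) := {v | normSq d a c v ≤ 1} with hV
  have hsub : V ⊆ Set.pi Set.univ (fun p => closedBall (0 : ℂ) (Real.sqrt (D p)⁻¹)) := by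
    intro v hv p _
    have h1 := (hlow a c S ρ hρ hS ha h0 hI hF v).trans hv
    rw [ENNReal.ofReal_le_one] at h1
    have h2 : D p * ‖v p‖ ^ 2 ≤ 1 := by
      refine le_trans ?_ h1
      rw [Finset.mul_sum]
      have h3 : D p * ‖v p‖ ^ 2 = c0 / S ^ 2 * (‖v p‖ ^ 2 * (ρ ^ ((p.1.1 : ℕ) + 1)) ^ 2 *
          (ρ ^ ((p.1.2 : ℕ) + 1)) ^ 2) := by
        rw [hD]
        ring
      rw [h3]
      exact Finset.single_le_sum (f := fun p : FormIdx d => c0 / S ^ 2 *
        (‖v p‖ ^ 2 * (ρ ^ ((p.1.1 : ℕ) + 1)) ^ 2 * (ρ ^ ((p.1.2 : ℕ) + 1)) ^ 2))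
        (fun q _ => by positivity) (Finset.mem_univ p)
    rw [mem_closedBall_zero_iff]
    apply Real.le_sqrt_of_sq_le
    rw [← one_div, le_div_iff₀ (hD0 p), mul_comm]
    exact h2
  have hvol : (volume V).toReal ≤ ∏ p : FormIdx d, (Real.pi / D p) := by
    have h1 : volume V ≤ ∏ p : FormIdx d, ENNReal.ofReal (Real.pi / D p) := by
      refine (measure_mono hsub).trans (le_of_eq ?_)
      rw [volume_pi_pi]
      refine prod_congr rfl fun p _ => ?_
      rw [Complex.volume_closedBall, ← ENNReal.ofReal_pow (Real.sqrt_nonneg _),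
        Real.sq_sqrt (by have := hD0 p; positivity)]
      rw [← NNReal.coe_real_pi, ENNReal.ofReal_div_of_pos (hD0 p), ENNReal.ofReal_coe_nnreal,
        ENNReal.ofReal_inv_of_pos (hD0 p), ENNReal.div_eq_inv_mul]
    refine (ENNReal.toReal_mono ?_ h1).trans (le_of_eq ?_)
    · exact ENNReal.prod_ne_top fun p _ => ENNReal.ofReal_ne_top
    · rw [ENNReal.toReal_prod]
      refine prod_congr rfl fun p _ => ?_
      rw [ENNReal.toReal_ofReal]
      have := hD0 p
      positivity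
  rcases eq_or_lt_of_le (ENNReal.toReal_nonneg (a := volume V)) with hv0 | hv0
  · apply le_max_of_le_left
    rw [hW, ← hv0]
    simp
  · apply le_max_of_le_right
    rw [hW]
    have hfac : (0 : ℝ) < (genus d).factorial := by
      exact_mod_cast Nat.factorial_pos _
    have hpi := Real.pi_pos
    have h1 : Real.log (((genus d).factorial : ℝ) / Real.pi ^ genus d * (volume V).toReal) ≤
        Real.log (((genus d).factorial : ℝ) / Real.pi ^ genus d *
          ∏ p : FormIdx d, (Real.pi / D p)) := by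
      apply Real.log_le_log (by positivity)
      gcongr
    have h2 : Real.log (((genus d).factorial : ℝ) / Real.pi ^ genus d *
          ∏ p : FormIdx d, (Real.pi / D p)) = Real.log ((genus d).factorial : ℝ) -
          ∑ p : FormIdx d, Real.log (D p) := by
      have hprod : ∏ p : FormIdx d, (Real.pi / D p) ≠ 0 := by
        rw [prod_ne_zero_iff]
        intro p _
        have := hD0 p
        positivity
      rw [Real.log_mul (by positivity) hprod, Real.log_div hfac.ne' (by positivity),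
        Real.log_pow, Real.log_prod (fun p _ => by have := hD0 p; positivity)]
      have h3 : ∀ p ∈ (Finset.univ : Finset (FormIdx d)), Real.log (Real.pi / D p) =
          Real.log Real.pi - Real.log (D p) := fun p _ => Real.log_div hpi.ne' (hD0 p).ne'
      rw [sum_congr rfl h3, sum_sub_distrib, sum_const, card_univ, card_formIdx d hd, nsmul_eq_mul]
      ring
    have h3 : ∑ p : FormIdx d, Real.log (D p) = genus d * (Real.log c0 - 2 * Real.log S) +
        2 * (2 * d * genus d / 3) * Real.log ρ := by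
      have h4 : ∀ p ∈ (Finset.univ : Finset (FormIdx d)), Real.log (D p) =
          (Real.log c0 - 2 * Real.log S) +
          2 * Real.log ρ * (((p.1.1 : ℕ) : ℝ) + 1 + (((p.1.2 : ℕ) : ℝ) + 1)) := by
        intro p _
        rw [hD]
        simp only
        rw [Real.log_mul (by positivity) (by positivity), Real.log_div hc0.ne' (by positivity),
          Real.log_mul (by positivity) (by positivity), Real.log_pow, Real.log_pow, Real.log_pow,
          Real.log_pow, Real.log_pow]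
        push_cast
        ring
      rw [sum_congr rfl h4, sum_add_distrib, sum_const, card_univ, card_formIdx d hd,
        nsmul_eq_mul, ← Finset.mul_sum, sum_weights d hd]
      ring
    have h5 := le_abs_self (1 / 2 * Real.log ((genus d).factorial : ℝ) -
      genus d / 2 * Real.log c0)
    calc 1 / 2 * Real.log (((genus d).factorial : ℝ) / Real.pi ^ genus d * (volume V).toReal)
        ≤ 1 / 2 * (Real.log ((genus d).factorial : ℝ) - ∑ p : FormIdx d, Real.log (D p)) := by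
          rw [← h2]
          gcongr
      _ = (1 / 2 * Real.log ((genus d).factorial : ℝ) - genus d / 2 * Real.log c0) +
          genus d * Real.log S - 2 * d * genus d / 3 * Real.log ρ := by
          rw [h3]
          ring
      _ ≤ _ := by linarith

end Pool.Agent.Helper5Plane
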