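import Pool.Agent.Helper5_Plane.Local
import Pool.Agent.Helper5_Frey.Moment

/-!
# Lower bound for the norm of a differential
-/

namespace Pool.Agent.Helper5Plane

open Finset Polynomial MeasureTheory Metric
open scoped ENNReal

/-- Scaled version of `disc_lower`. -/
lemma disc_lower_scaled (g : ℕ) : ∃ c : ℝ, 0 < c ∧ ∀ (ρ : ℝ), 0 < ρ → ∀ w : Fin g → ℂ,
    ENNReal.ofReal (c * ∑ i : Fin g, ‖w i‖ ^ 2 * (ρ ^ ((i : ℕ) + 1)) ^ 2) ≤
      ∫⁻ z : ℂ in ball (0 : ℂ) ρ, ENNReal.ofReal (‖∑ i, w i * z ^ (i : ℕ)‖ ^ 2) := by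
  obtain ⟨c, hc, h⟩ := Helper5Frey.disc_lower g
  refine ⟨c, hc, ?_⟩
  intro ρ hρ w
  have hcont : Continuous (fun z : ℂ => ‖∑ i, w i * z ^ (i : ℕ)‖ ^ 2) := by fun_prop
  have hint : IntegrableOn (fun z : ℂ => ‖∑ i, w i * z ^ (i : ℕ)‖ ^ 2) (ball (0 : ℂ) ρ) :=
    (hcont.continuousOn.integrableOn_compact (isCompact_closedBall (0 : ℂ) ρ)).mono_set
      ball_subset_closedBall
  rw [← ofReal_integral_eq_lintegral_ofReal hint
    (Filter.Eventually.of_forall fun z => by positivity)]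
  apply ENNReal.ofReal_le_ofReal
  have h1 := h (fun i => w i * (ρ : ℂ) ^ (i : ℕ))
  have hsum : ∀ z : ℂ, ∑ i, (w i * (ρ : ℂ) ^ (i : ℕ)) * z ^ (i : ℕ) =
      ∑ i, w i * (ρ • z) ^ (i : ℕ) := by
    intro z
    apply Finset.sum_congr rfl
    intro i _
    rw [Complex.real_smul, mul_pow]
    ring
  have hind : ∀ z : ℂ, (ball (0 : ℂ) 1).indicator (fun _ => (1 : ℝ)) z =
      (ball (0 : ℂ) ρ).indicator (fun _ => (1 : ℝ)) (ρ • z) := by
    intro z
    by_cases hz : z ∈ ball (0 : ℂ) 1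
    · rw [Set.indicator_of_mem hz, Set.indicator_of_mem]
      rw [mem_ball_zero_iff] at hz ⊢
      rw [norm_smul, Real.norm_eq_abs, abs_of_pos hρ]
      nlinarith
    · rw [Set.indicator_of_notMem hz, Set.indicator_of_notMem]
      rw [mem_ball_zero_iff] at hz ⊢
      rw [norm_smul, Real.norm_eq_abs, abs_of_pos hρ]
      push Not at hz ⊢
      nlinarith
  simp only [hsum, hind] at h1
  have h2 := Measure.integral_comp_smul (volume : Measure ℂ)
    (fun z : ℂ => ‖∑ i, w i * z ^ (i : ℕ)‖ ^ 2 *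
      (ball (0 : ℂ) ρ).indicator (fun _ => (1 : ℝ)) z) ρ
  rw [Complex.finrank_real_complex, abs_of_nonneg (by positivity), smul_eq_mul] at h2
  rw [h2] at h1
  have h3 : ∫ z : ℂ, ‖∑ i, w i * z ^ (i : ℕ)‖ ^ 2 *
      (ball (0 : ℂ) ρ).indicator (fun _ => (1 : ℝ)) z =
      ∫ z : ℂ in ball (0 : ℂ) ρ, ‖∑ i, w i * z ^ (i : ℕ)‖ ^ 2 := by
    rw [← integral_indicator measurableSet_ball]
    congr 1
    ext z
    by_cases hz : z ∈ ball (0 : ℂ) ρ
    · simp [Set.indicator_of_mem hz]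
    · simp [Set.indicator_of_notMem hz]
  rw [h3] at h1
  have hρ2 : 0 < ρ ^ 2 := by positivity
  calc c * ∑ i : Fin g, ‖w i‖ ^ 2 * (ρ ^ ((i : ℕ) + 1)) ^ 2
      = ρ ^ 2 * (c * ∑ i, ‖w i * (ρ : ℂ) ^ (i : ℕ)‖ ^ 2) := by
        rw [Finset.mul_sum, Finset.mul_sum, Finset.mul_sum]
        apply Finset.sum_congr rfl
        intro i _
        rw [norm_mul, norm_pow, Complex.norm_real, Real.norm_eq_abs, abs_of_pos hρ]
        ring
    _ ≤ ρ ^ 2 * ((ρ ^ 2)⁻¹ * ∫ z : ℂ in ball (0 : ℂ) ρ, ‖∑ i, w i * z ^ (i : ℕ)‖ ^ 2) := by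
        gcongr
    _ = _ := by
        rw [← mul_assoc, mul_inv_cancel₀ hρ2.ne', one_mul]

/-- Extension by zero of a coefficient vector. -/
noncomputable def ext (d : ℕ) (v : FormIdx d → ℂ) (i j : Fin (d - 2)) : ℂ :=
  if h : (i : ℕ) + (j : ℕ) < d - 2 then v ⟨(i, j), h⟩ else 0

/-- Sums over the index set. -/
lemma sum_formIdx {M : Type*} [AddCommMonoid M] (d : ℕ) (f : Fin (d - 2) → Fin (d - 2) → M)
    (F : FormIdx d → M) (h : ∀ p : FormIdx d, F p = f p.1.1 p.1.2)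
    (h0 : ∀ i j : Fin (d - 2), ¬ (i : ℕ) + (j : ℕ) < d - 2 → f i j = 0) :
    ∑ p, F p = ∑ j, ∑ i, f i j := by
  have h1 : ∑ p, F p = ∑ p : FormIdx d, (fun q : Fin (d - 2) × Fin (d - 2) => f q.1 q.2) p.1 :=
    sum_congr rfl fun p _ => h p
  rw [h1, ← Finset.sum_subtype (Finset.univ.filter
    (fun q : Fin (d - 2) × Fin (d - 2) => (q.1 : ℕ) + (q.2 : ℕ) < d - 2))
    (by simp) (fun q : Fin (d - 2) × Fin (d - 2) => f q.1 q.2), sum_filter,
    Fintype.sum_prod_type, sum_comm]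
  refine sum_congr rfl fun j _ => sum_congr rfl fun i _ => ?_
  split_ifs with h2
  · rfl
  · exact (h0 i j h2).symm

/-- The numerator of the differential as a polynomial in `y`. -/
noncomputable def formPoly (d : ℕ) (v : FormIdx d → ℂ) (x : ℂ) : ℂ[X] :=
  ∑ j : Fin (d - 2), C (∑ i : Fin (d - 2), ext d v i j * x ^ (i : ℕ)) * X ^ (j : ℕ)

lemma formPoly_eval (d : ℕ) (v : FormIdx d → ℂ) (x y : ℂ) :
    (formPoly d v x).eval y = formVal d v x y := by
  rw [formPoly, formVal, eval_finsetSum]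
  rw [sum_formIdx d (fun i j => ext d v i j * x ^ (i : ℕ) * y ^ (j : ℕ))]
  · refine sum_congr rfl fun j _ => ?_
    rw [eval_mul, eval_C, eval_pow, eval_X, sum_mul]
  · intro p
    rw [ext, dif_pos p.2]
  · intro i j h
    rw [ext, dif_neg h]
    ring

lemma formPoly_coeff (d : ℕ) (v : FormIdx d → ℂ) (x : ℂ) (j : Fin (d - 2)) :
    (formPoly d v x).coeff j = ∑ i : Fin (d - 2), ext d v i j * x ^ (i : ℕ) := by
  rw [formPoly, finsetSum_coeff, sum_eq_single_of_mem j (mem_univ _)]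
  · rw [coeff_C_mul, coeff_X_pow, if_pos rfl, mul_one]
  · intro k _ hk
    rw [coeff_C_mul, coeff_X_pow, if_neg, mul_zero]
    intro h
    exact hk (Fin.ext h.symm)

lemma formPoly_natDegree (d : ℕ) (hd : 3 ≤ d) (v : FormIdx d → ℂ) (x : ℂ) :
    (formPoly d v x).natDegree < d - 1 := by
  apply lt_of_le_of_lt (b := d - 2) _ (by omega)
  apply natDegree_sum_le_of_forall_le
  intro j _
  refine (natDegree_C_mul_X_pow_le _ _).trans ?_
  exact j.2.le

lemma sum_le_tsum_subtype {p : ℂ → Prop} (Y : Finset ℂ) (hY : ∀ r ∈ Y, p r) (g : ℂ → ℝ≥0∞) :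
    ∑ r ∈ Y, g r ≤ ∑' y : {y // p y}, g y := by
  rw [← Finset.tsum_subtype]
  exact ENNReal.tsum_comp_le_tsum_of_injective
    (f := fun y : Y => (⟨y.1, hY y.1 y.2⟩ : {y // p y}))
    (fun a b hab => Subtype.ext (by simpa using hab)) (fun y : {y // p y} => g y)

/-- **Pointwise lower bound.** -/
theorem point_lower (d : ℕ) (hd : 3 ≤ d) (a : ℕ → ℕ → ℂ) (c : ℂ) (S ρ : ℝ) (hρ : 0 < ρ)
    (hS : 0 < S) (ha : ∀ i j, i + j ≤ d → (i, j) ≠ (0, 0) → ‖a i j‖ * ρ ^ (i + j) ≤ S)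
    (h0 : ‖a 0 0 + c‖ ≤ S) (v : FormIdx d → ℂ) (x : ℂ) (hx : ‖x‖ ≤ ρ)
    (hsep : ∀ y : ℂ, val d a x y + c = 0 → val (d - 1) (ay a) x y ≠ 0)
    (hdeg : a 0 d ≠ 0 ∨ a 0 (d - 1) + a 1 (d - 1) * x ≠ 0) :
    ENNReal.ofReal ((((d : ℝ) - 2) * d * (((d : ℝ) + 1) ^ 2 * S) ^ 2)⁻¹ *
      ∑ j : Fin (d - 2), (‖∑ i : Fin (d - 2), ext d v i j * x ^ (i : ℕ)‖ *
        ρ ^ ((j : ℕ) + 1)) ^ 2) ≤
      ∑' y : {y : ℂ // val d a x y + c = 0},
        ENNReal.ofReal (‖formVal d v x y‖ ^ 2 / ‖val (d - 1) (ay a) x (y : ℂ)‖ ^ 2) := by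
  classical
  set f : ℂ[X] := ypoly d a x + C c with hf
  have hfe : ∀ y, f.eval y = val d a x y + c := by
    intro y
    rw [hf, eval_add, ypoly_eval, eval_C]
  have hfd : derivative f = ypoly (d - 1) (ay a) x := by
    rw [hf, derivative_add, derivative_C, add_zero, ypoly_derivative d (by omega)]
  have hfd' : ∀ y, (derivative f).eval y = val (d - 1) (ay a) x y := by
    intro y
    rw [hfd, ypoly_eval]
  have hn : f.natDegree ≤ d := by
    refine (natDegree_add_le _ _).trans (max_le (ypoly_natDegree_le d a x) ?_)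
    rw [natDegree_C]
    exact Nat.zero_le _
  have hcoef : ∀ k, 1 ≤ k → f.coeff k = ∑ i ∈ range (d + 1 - k), a i k * x ^ i := by
    intro k hk
    rw [hf, coeff_add, ypoly_coeff, coeff_C, if_neg (by omega), add_zero]
  have hdeg2 : d - 1 ≤ f.natDegree := by
    by_cases h1 : a 0 d = 0
    · have h2 := hdeg.resolve_left (fun h => h h1)
      apply le_natDegree_of_ne_zero
      rw [hcoef (d - 1) (by omega), show d + 1 - (d - 1) = 2 by omega]
      simpa [sum_range_succ] using h2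
    · refine (Nat.sub_le _ _).trans (le_natDegree_of_ne_zero ?_)
      rw [hcoef d (by omega), show d + 1 - d = 1 by omega]
      simpa using h1
  have hsep' : ∀ y, f.eval y = 0 → (derivative f).eval y ≠ 0 := by
    intro y hy
    rw [hfd']
    exact hsep y (by rw [← hfe, hy])
  have hPd : (formPoly d v x).natDegree < f.natDegree :=
    lt_of_lt_of_le (formPoly_natDegree d hd v x) hdeg2
  have hf0 : f ≠ 0 := by
    intro h
    rw [h, natDegree_zero] at hdeg2
    omega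
  -- size of the coefficients
  have hsize : ∑ k ∈ range (d + 1), ‖f.coeff k‖ * ρ ^ k ≤ ((d : ℝ) + 1) ^ 2 * S := by
    have hk : ∀ k ∈ range (d + 1), ‖f.coeff k‖ * ρ ^ k ≤ ((d : ℝ) + 1) * S := by
      intro k hk
      rw [mem_range] at hk
      have hterm : ∀ i ∈ range (d + 1 - k), (i, k) ≠ (0, 0) →
          ‖a i k * x ^ i‖ * ρ ^ k ≤ S := by
        intro i hi hne
        rw [mem_range] at hi
        calc ‖a i k * x ^ i‖ * ρ ^ k = ‖a i k‖ * ‖x‖ ^ i * ρ ^ k := by rw [norm_mul, norm_pow]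
          _ ≤ ‖a i k‖ * ρ ^ i * ρ ^ k := by gcongr
          _ = ‖a i k‖ * ρ ^ (i + k) := by rw [pow_add]; ring
          _ ≤ S := ha i k (by omega) hne
      have hcard : ((d + 1 - k : ℕ) : ℝ) ≤ (d : ℝ) + 1 := by
        have : d + 1 - k ≤ d + 1 := Nat.sub_le _ _
        calc ((d + 1 - k : ℕ) : ℝ) ≤ ((d + 1 : ℕ) : ℝ) := by exact_mod_cast this
          _ = _ := by push_cast; ring
      rcases Nat.eq_zero_or_pos k with hk0 | hk0
      · subst hk0
        have h1 : f.coeff 0 = (a 0 0 + c) + ∑ i ∈ range d, a (i + 1) 0 * x ^ (i + 1) := by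
          rw [hf, coeff_add, ypoly_coeff, coeff_C_zero, Nat.sub_zero, sum_range_succ']
          simp only [pow_zero, mul_one]
          ring
        rw [h1, pow_zero, mul_one]
        calc ‖(a 0 0 + c) + ∑ i ∈ range d, a (i + 1) 0 * x ^ (i + 1)‖
            ≤ ‖a 0 0 + c‖ + ∑ i ∈ range d, ‖a (i + 1) 0 * x ^ (i + 1)‖ :=
              (norm_add_le _ _).trans (by gcongr; exact norm_sum_le _ _)
          _ ≤ S + ∑ i ∈ range d, S := by
              gcongr with i hi
              have := hterm (i + 1) (by rw [mem_range] at hi ⊢; omega) (by simp)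
              simpa using this
          _ = _ := by
              rw [sum_const, card_range, nsmul_eq_mul]
              ring
      · rw [hcoef k hk0]
        calc ‖∑ i ∈ range (d + 1 - k), a i k * x ^ i‖ * ρ ^ k
            ≤ (∑ i ∈ range (d + 1 - k), ‖a i k * x ^ i‖) * ρ ^ k := by
              gcongr
              exact norm_sum_le _ _
          _ = ∑ i ∈ range (d + 1 - k), ‖a i k * x ^ i‖ * ρ ^ k := by rw [sum_mul]
          _ ≤ ∑ i ∈ range (d + 1 - k), S := by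
              apply sum_le_sum
              intro i hi
              apply hterm i hi
              intro h
              have := congrArg Prod.snd h
              simp only at this
              omega
          _ = ((d + 1 - k : ℕ) : ℝ) * S := by
              rw [sum_const, card_range, nsmul_eq_mul]
          _ ≤ _ := by gcongr
    calc ∑ k ∈ range (d + 1), ‖f.coeff k‖ * ρ ^ k ≤ ∑ k ∈ range (d + 1), ((d : ℝ) + 1) * S :=
          sum_le_sum hk
      _ = _ := by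
          rw [sum_const, card_range, nsmul_eq_mul]
          push_cast
          ring
  have hsize0 : 0 ≤ ∑ k ∈ range (d + 1), ‖f.coeff k‖ * ρ ^ k :=
    sum_nonneg fun _ _ => by positivity
  set T := ((d : ℝ) + 1) ^ 2 * S with hT
  have hT0 : 0 < T := by positivity
  set W := ∑ r ∈ f.roots.toFinset, ‖(formPoly d v x).eval r‖ ^ 2 /
    ‖(derivative f).eval r‖ ^ 2 with hWd
  have hW0 : 0 ≤ W := sum_nonneg fun _ _ => by positivity
  have hj : ∀ j : Fin (d - 2), (‖∑ i : Fin (d - 2), ext d v i j * x ^ (i : ℕ)‖ *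
        ρ ^ ((j : ℕ) + 1)) ^ 2 ≤ T ^ 2 * (d * W) := by
    intro j
    have := local_lower f hsep' d hn (formPoly d v x) hPd ρ hρ j
    rw [formPoly_coeff] at this
    refine this.trans ?_
    gcongr
  have hd2 : (0 : ℝ) < (d : ℝ) - 2 := by
    have : (3 : ℝ) ≤ d := by exact_mod_cast hd
    linarith
  have hd0 : (0 : ℝ) < d := by linarith
  have hmain : (((d : ℝ) - 2) * d * T ^ 2)⁻¹ * ∑ j : Fin (d - 2),
      (‖∑ i : Fin (d - 2), ext d v i j * x ^ (i : ℕ)‖ * ρ ^ ((j : ℕ) + 1)) ^ 2 ≤ W := by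
    rw [inv_mul_le_iff₀ (by positivity)]
    calc ∑ j : Fin (d - 2),
        (‖∑ i : Fin (d - 2), ext d v i j * x ^ (i : ℕ)‖ * ρ ^ ((j : ℕ) + 1)) ^ 2
        ≤ ∑ _j : Fin (d - 2), T ^ 2 * (d * W) := sum_le_sum fun j _ => hj j
      _ = ((d : ℝ) - 2) * (T ^ 2 * (d * W)) := by
          rw [sum_const, card_univ, Fintype.card_fin, nsmul_eq_mul, Nat.cast_sub (by omega)]
          push_cast
          ring
      _ = _ := by ring
  refine (ENNReal.ofReal_le_ofReal hmain).trans ?_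
  rw [hWd, ENNReal.ofReal_sum_of_nonneg (fun _ _ => by positivity)]
  have hrw : ∑ r ∈ f.roots.toFinset, ENNReal.ofReal (‖(formPoly d v x).eval r‖ ^ 2 /
      ‖(derivative f).eval r‖ ^ 2) = ∑ r ∈ f.roots.toFinset,
      (fun y => ENNReal.ofReal (‖formVal d v x y‖ ^ 2 / ‖val (d - 1) (ay a) x y‖ ^ 2)) r :=
    sum_congr rfl fun r _ => by rw [formPoly_eval, hfd']
  rw [hrw]
  apply sum_le_tsum_subtype (p := fun y => val d a x y + c = 0)
  intro r hr
  rw [Multiset.mem_toFinset, mem_roots hf0, IsRoot.def, hfe] at hr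
  exact hr

end Pool.Agent.Helper5Plane
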