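import Pool.Agent.Helper5_Plane.Family

/-!
# Partial fractions and the pointwise lower bound
-/

namespace Pool.Agent.Helper5Plane

open Finset Polynomial

/-- Coefficients of the quotient of a polynomial by a linear factor. -/
lemma quot_coeff_bound (f q : ℂ[X]) (r : ℂ) (hf : f = (X - C r) * q) (n : ℕ)
    (hn : f.natDegree ≤ n) (ρ : ℝ) (hρ : 0 < ρ) (j : ℕ) :
    ‖q.coeff j‖ * ρ ^ (j + 1) ≤ ∑ k ∈ range (n + 1), ‖f.coeff k‖ * ρ ^ k := by
  have hS0 : 0 ≤ ∑ k ∈ range (n + 1), ‖f.coeff k‖ * ρ ^ k :=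
    sum_nonneg fun k _ => by positivity
  by_cases hq : q = 0
  · rw [hq, coeff_zero, norm_zero, zero_mul]
    exact hS0
  have hdeg : q.natDegree + 1 ≤ n := by
    have : f.natDegree = 1 + q.natDegree := by
      rw [hf, natDegree_mul (X_sub_C_ne_zero r) hq, natDegree_X_sub_C]
    omega
  have hzero : ∀ j, n ≤ j → q.coeff j = 0 := by
    intro j hj
    exact coeff_eq_zero_of_natDegree_lt (by omega)
  have hrec : ∀ j, f.coeff (j + 1) = q.coeff j - r * q.coeff (j + 1) := by
    intro j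
    rw [hf, sub_mul, coeff_sub, coeff_X_mul, coeff_C_mul]
  have h0 : f.coeff 0 = - (r * q.coeff 0) := by
    rw [hf, sub_mul, coeff_sub, coeff_C_mul, coeff_X_mul_zero, zero_sub]
  rcases le_or_gt ‖r‖ ρ with hr | hr
  · have key : ∀ t j, n ≤ j + t → ‖q.coeff j‖ * ρ ^ (j + 1) ≤
        ∑ k ∈ Ico (j + 1) (n + 1), ‖f.coeff k‖ * ρ ^ k := by
      intro t
      induction t with
      | zero =>
        intro j hj
        rw [hzero j (by omega), norm_zero, zero_mul]
        exact sum_nonneg fun k _ => by positivity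
      | succ t ih =>
        intro j hj
        rcases le_or_gt n j with hjn | hjn
        · rw [hzero j hjn, norm_zero, zero_mul]
          exact sum_nonneg fun k _ => by positivity
        · have h1 := ih (j + 1) (by omega)
          have h2 : q.coeff j = f.coeff (j + 1) + r * q.coeff (j + 1) := by
            rw [hrec]
            ring
          rw [sum_eq_sum_Ico_succ_bot (by omega : j + 1 < n + 1), h2]
          calc ‖f.coeff (j + 1) + r * q.coeff (j + 1)‖ * ρ ^ (j + 1)
              ≤ (‖f.coeff (j + 1)‖ + ‖r‖ * ‖q.coeff (j + 1)‖) * ρ ^ (j + 1) := by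
                gcongr
                refine (norm_add_le _ _).trans ?_
                rw [norm_mul]
            _ ≤ (‖f.coeff (j + 1)‖ + ρ * ‖q.coeff (j + 1)‖) * ρ ^ (j + 1) := by gcongr
            _ = ‖f.coeff (j + 1)‖ * ρ ^ (j + 1) + ‖q.coeff (j + 1)‖ * ρ ^ (j + 1 + 1) := by ring
            _ ≤ _ := by gcongr
    refine (key n j (by omega)).trans ?_
    apply sum_le_sum_of_subset_of_nonneg
    · intro k hk
      rw [mem_Ico] at hk
      exact mem_range.mpr hk.2
    · intro k _ _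
      positivity
  · have key : ∀ j, ‖q.coeff j‖ * ρ ^ (j + 1) ≤
        ∑ k ∈ range (j + 1), ‖f.coeff k‖ * ρ ^ k := by
      intro j
      induction j with
      | zero =>
        rw [zero_add, pow_one, sum_range_one, pow_zero, mul_one, h0, norm_neg, norm_mul, mul_comm]
        gcongr
      | succ j ih =>
        rw [sum_range_succ]
        have h2 : r * q.coeff (j + 1) = q.coeff j - f.coeff (j + 1) := by
          rw [hrec]
          ring
        calc ‖q.coeff (j + 1)‖ * ρ ^ (j + 1 + 1) = (ρ * ‖q.coeff (j + 1)‖) * ρ ^ (j + 1) := by ring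
          _ ≤ (‖r‖ * ‖q.coeff (j + 1)‖) * ρ ^ (j + 1) := by gcongr
          _ = ‖q.coeff j - f.coeff (j + 1)‖ * ρ ^ (j + 1) := by rw [← norm_mul, h2]
          _ ≤ (‖q.coeff j‖ + ‖f.coeff (j + 1)‖) * ρ ^ (j + 1) := by
              gcongr
              exact norm_sub_le _ _
          _ = ‖q.coeff j‖ * ρ ^ (j + 1) + ‖f.coeff (j + 1)‖ * ρ ^ (j + 1) := by ring
          _ ≤ _ := by gcongr
    rcases le_or_gt n j with hjn | hjn
    · rw [hzero j hjn, norm_zero, zero_mul]
      exact hS0
    · refine (key j).trans ?_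
      apply sum_le_sum_of_subset_of_nonneg
      · intro k hk
        rw [mem_range] at hk ⊢
        omega
      · intro k _ _
        positivity

/-- **Partial fractions**: lower bound for the sum over the roots. -/
theorem local_lower (f : ℂ[X]) (hsep : ∀ y, f.eval y = 0 → (derivative f).eval y ≠ 0) (n : ℕ)
    (hn : f.natDegree ≤ n) (P : ℂ[X]) (hP : P.natDegree < f.natDegree) (ρ : ℝ) (hρ : 0 < ρ)
    (j : ℕ) :
    (‖P.coeff j‖ * ρ ^ (j + 1)) ^ 2 ≤ (∑ k ∈ range (n + 1), ‖f.coeff k‖ * ρ ^ k) ^ 2 *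
      (n * ∑ r ∈ f.roots.toFinset, ‖P.eval r‖ ^ 2 / ‖(derivative f).eval r‖ ^ 2) := by
  classical
  have hf0 : f ≠ 0 := by
    intro h
    rw [h, natDegree_zero] at hP
    omega
  set Y := f.roots.toFinset with hY
  have hYroot : ∀ r ∈ Y, f.eval r = 0 := by
    intro r hr
    rw [hY, Multiset.mem_toFinset, mem_roots hf0] at hr
    exact hr
  have hnodup : f.roots.Nodup := by
    apply nodup_roots
    rw [Polynomial.separable_def, Polynomial.isCoprime_iff_aeval_ne_zero_of_isAlgClosed ℂ ℂ]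
    intro y
    by_cases h : f.eval y = 0
    · right
      simpa using hsep y h
    · left
      simpa using h
  have hcard : Y.card = f.natDegree := by
    rw [hY, Multiset.toFinset_card_of_nodup hnodup]
    exact IsAlgClosed.card_roots_eq_natDegree
  -- quotients
  have hq : ∀ r ∈ Y, f = (X - C r) * (f /ₘ (X - C r)) := by
    intro r hr
    exact (mul_divByMonic_eq_iff_isRoot.mpr (hYroot r hr)).symm
  have hqr : ∀ r ∈ Y, (f /ₘ (X - C r)).eval r = (derivative f).eval r := by
    intro r hr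
    conv_rhs => rw [hq r hr]
    simp
  have hqr' : ∀ r ∈ Y, ∀ s ∈ Y, s ≠ r → (f /ₘ (X - C r)).eval s = 0 := by
    intro r hr s hs hsr
    have h1 := hYroot s hs
    rw [hq r hr, eval_mul, eval_sub, eval_X, eval_C] at h1
    exact (mul_eq_zero.mp h1).resolve_left (sub_ne_zero.mpr hsr)
  have hlag : P = ∑ r ∈ Y, C (P.eval r / (derivative f).eval r) * (f /ₘ (X - C r)) := by
    apply eq_of_degrees_lt_of_eval_finset_eq Y
    · rw [hcard]
      exact lt_of_le_of_lt degree_le_natDegree (by exact_mod_cast hP)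
    · rw [hcard]
      apply lt_of_le_of_lt (degree_sum_le _ _)
      rw [Finset.sup_lt_iff (by
        rw [bot_lt_iff_ne_bot]
        exact WithBot.natCast_ne_bot _)]
      intro r hr
      rw [← smul_eq_C_mul]
      apply lt_of_le_of_lt (degree_smul_le _ _)
      rw [← degree_eq_natDegree hf0]
      apply degree_divByMonic_lt _ _ hf0
      rw [degree_X_sub_C]
      exact zero_lt_one
    · intro s hs
      rw [eval_finsetSum, sum_eq_single_of_mem s hs]
      · rw [eval_mul, eval_C, hqr s hs, div_mul_cancel₀]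
        exact hsep s (hYroot s hs)
      · intro r hr hrs
        rw [eval_mul, hqr' r hr s hs (Ne.symm hrs), mul_zero]
  set T := ∑ k ∈ range (n + 1), ‖f.coeff k‖ * ρ ^ k with hT
  have hT0 : 0 ≤ T := sum_nonneg fun k _ => by positivity
  have hcoef : P.coeff j = ∑ r ∈ Y, (P.eval r / (derivative f).eval r) *
      (f /ₘ (X - C r)).coeff j := by
    conv_lhs => rw [hlag]
    rw [finsetSum_coeff]
    refine sum_congr rfl fun r _ => ?_
    rw [coeff_C_mul]
  have h1 : ‖P.coeff j‖ * ρ ^ (j + 1) ≤ T * ∑ r ∈ Y, ‖P.eval r / (derivative f).eval r‖ := by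
    rw [hcoef]
    calc ‖∑ r ∈ Y, (P.eval r / (derivative f).eval r) * (f /ₘ (X - C r)).coeff j‖ * ρ ^ (j + 1)
        ≤ (∑ r ∈ Y, ‖P.eval r / (derivative f).eval r‖ * ‖(f /ₘ (X - C r)).coeff j‖) *
          ρ ^ (j + 1) := by
          gcongr
          refine (norm_sum_le _ _).trans (le_of_eq ?_)
          exact sum_congr rfl fun r _ => norm_mul _ _
      _ = ∑ r ∈ Y, ‖P.eval r / (derivative f).eval r‖ *
          (‖(f /ₘ (X - C r)).coeff j‖ * ρ ^ (j + 1)) := by
          rw [sum_mul]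
          exact sum_congr rfl fun r _ => by ring
      _ ≤ ∑ r ∈ Y, ‖P.eval r / (derivative f).eval r‖ * T := by
          apply sum_le_sum
          intro r hr
          apply mul_le_mul_of_nonneg_left _ (norm_nonneg _)
          exact quot_coeff_bound f _ r (hq r hr) n hn ρ hρ j
      _ = _ := by rw [← sum_mul, mul_comm]
  have h2 : (∑ r ∈ Y, ‖P.eval r / (derivative f).eval r‖) ^ 2 ≤
      n * ∑ r ∈ Y, ‖P.eval r‖ ^ 2 / ‖(derivative f).eval r‖ ^ 2 := by
    refine (sq_sum_le_card_mul_sum_sq).trans ?_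
    have h3 : ∑ r ∈ Y, ‖P.eval r / (derivative f).eval r‖ ^ 2 =
        ∑ r ∈ Y, ‖P.eval r‖ ^ 2 / ‖(derivative f).eval r‖ ^ 2 :=
      sum_congr rfl fun r _ => by rw [norm_div, div_pow]
    rw [h3, hcard]
    have h4 : 0 ≤ ∑ r ∈ Y, ‖P.eval r‖ ^ 2 / ‖(derivative f).eval r‖ ^ 2 :=
      sum_nonneg fun _ _ => by positivity
    gcongr
  calc (‖P.coeff j‖ * ρ ^ (j + 1)) ^ 2
      ≤ (T * ∑ r ∈ Y, ‖P.eval r / (derivative f).eval r‖) ^ 2 := by gcongr
    _ = T ^ 2 * (∑ r ∈ Y, ‖P.eval r / (derivative f).eval r‖) ^ 2 := by ring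
    _ ≤ _ := by gcongr

end Pool.Agent.Helper5Plane
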