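import Pool.Agent.Helper5_Plane.Core
import Pool.Agent.Helper5_Frey.Gen

/-!
# Pencils of plane curves
-/

namespace Pool.Agent.Helper5Plane

open Finset Polynomial Helper5Frey

/-- Node primes from the family theorem. -/
theorem node_of_dvd {A : Type} [CommRing A] (d : ℕ) (a : ℕ → ℕ → A) (M : A) (R : A[X])
    (hfam : ∀ (Ω : Type) [Field Ω] (φ : A →+* Ω), φ M ≠ 0 →
      GoodInfty d (fun i j => φ (a i j)) ∧ φ R.leadingCoeff ≠ 0 ∧
        ∀ c : Ω, (R.map φ).eval c = 0 → OneNode d (fun i j => φ (a i j)) c)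
    (φ : A →+* ℤ) (p : ℕ) (c : ℤ) (hp : p.Prime) (hpM : ¬ p ∣ (φ M).natAbs)
    (hpR : (p : ℤ) ∣ (R.map φ).eval c) : p ∈ nodePrimes d (fun i j => φ (a i j)) c := by
  refine ⟨hp, ?_⟩
  have : Fact p.Prime := ⟨hp⟩
  set Ω := AlgebraicClosure (ZMod p)
  set ψ : A →+* Ω := (Int.castRingHom Ω).comp φ with hψ
  have hψM : ψ M ≠ 0 := by
    intro h0
    apply hpM
    have h1 : ((φ M : ℤ) : Ω) = 0 := by simpa [hψ] using h0
    rw [CharP.intCast_eq_zero_iff Ω p] at h1
    exact Int.natCast_dvd.mp h1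
  have h2 := (hfam Ω ψ hψM).2.2 (c : Ω) (by
    have h3 : (R.map ψ).eval (c : Ω) = (((R.map φ).eval c : ℤ) : Ω) := by
      rw [hψ, ← Polynomial.map_map, eval_intCast_map]
      simp
    rw [h3, CharP.intCast_eq_zero_iff Ω p]
    exact hpR)
  have h4 : (fun i j => ψ (a i j)) = fun i j => ((φ (a i j) : ℤ) : Ω) := by
    funext i j
    simp [hψ]
  rw [h4] at h2
  exact h2

section Transfer

variable {K L : Type} [Field K] [Field L] (j : K →+* L) (d : ℕ) (b : ℕ → ℕ → K)

lemma GoodInfty.of_map (h : GoodInfty d (fun i k => j (b i k))) : GoodInfty d b := by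
  intro x y h0 h1 h2
  have e := h (j x) (j y) (by rw [← map_topf, h0, map_zero])
    (by rw [← map_ax, ← map_topf, h1, map_zero]) (by rw [← map_ay, ← map_topf, h2, map_zero])
  exact ⟨j.injective (by rw [e.1, map_zero]), j.injective (by rw [e.2, map_zero])⟩

lemma GoodHess.of_map (h : GoodHess d (fun i k => j (b i k))) : GoodHess d b := by
  intro x y h1 h2 h3
  apply h (j x) (j y) (by rw [← map_ax, ← map_val, h1, map_zero])
    (by rw [← map_ay, ← map_val, h2, map_zero])
  rw [← map_hess, h3, map_zero]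

lemma GoodVal.of_map (h : GoodVal d (fun i k => j (b i k))) : GoodVal d b := by
  intro x y x' y' h1 h2 h3 h4 h5
  have e := h (j x) (j y) (j x') (j y') (by rw [← map_ax, ← map_val, h1, map_zero])
    (by rw [← map_ay, ← map_val, h2, map_zero]) (by rw [← map_ax, ← map_val, h3, map_zero])
    (by rw [← map_ay, ← map_val, h4, map_zero]) (by rw [← map_val, ← map_val, h5])
  exact ⟨j.injective e.1, j.injective e.2⟩

end Transfer

/-- A system with a zero over a field of characteristic zero has one over an algebraic closure of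
the fraction field. -/
lemma HasCrit.descend {A : Type} [CommRing A] [IsDomain A] {K : Type} [Field K] [IsAlgClosed K]
    [Algebra A K] (hinj : Function.Injective (algebraMap A K)) (d : ℕ) (a : ℕ → ℕ → A)
    (h : ∀ M : A, M ≠ 0 → ∃ (Ω : Type) (_ : Field Ω) (φ : A →+* Ω), φ M ≠ 0 ∧
      HasCrit d (fun i j => φ (a i j))) :
    HasCrit d (fun i j => algebraMap A K (a i j)) := by
  by_contra hno
  let c : ℕ → ℕ → MvPolynomial (Fin 2) A := fun i j => MvPolynomial.C (a i j)
  obtain ⟨M, hM, hMS⟩ := spread_fam hinj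
    ({val (d - 1) (ax c) (MvPolynomial.X 0) (MvPolynomial.X 1),
      val (d - 1) (ay c) (MvPolynomial.X 0) (MvPolynomial.X 1)} :
        Set (MvPolynomial (Fin 2) A)) (by
      rintro ⟨z, hz⟩
      have h1 := hz (val (d - 1) (ax c) (MvPolynomial.X 0) (MvPolynomial.X 1)) (by simp)
      have h2 := hz (val (d - 1) (ay c) (MvPolynomial.X 0) (MvPolynomial.X 1)) (by simp)
      simp only [ev_val, ev_ax, ev_ay, MvPolynomial.eval₂_X, c, MvPolynomial.eval₂_C] at h1 h2
      exact hno ⟨z 0, z 1, h1, h2⟩)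
  obtain ⟨Ω, hΩ, φ, hφ, x, y, hx, hy⟩ := h M hM
  refine hMS Ω φ hφ ⟨![x, y], ?_⟩
  intro f hf
  simp only [Set.mem_insert_iff, Set.mem_singleton_iff] at hf
  rcases hf with rfl | rfl
  · simp only [ev_val, ev_ax, MvPolynomial.eval₂_X, c, MvPolynomial.eval₂_C]
    exact hx
  · simp only [ev_val, ev_ay, MvPolynomial.eval₂_X, c, MvPolynomial.eval₂_C]
    exact hy

/-- The Morse conditions descend from the complex numbers. -/
theorem isMorse_descend (d : ℕ) (a : ℕ → ℕ → ℤ) (h : IsMorse d (fun i j => (a i j : ℂ))) :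
    IsMorse d (fun i j => algebraMap ℤ (AlgebraicClosure (FractionRing ℤ)) (a i j)) := by
  set k := FractionRing ℤ
  set K := AlgebraicClosure k
  have hinjC : Function.Injective (algebraMap ℤ ℂ) := RingHom.injective_int _
  let algkC : Algebra k ℂ := (IsFractionRing.lift hinjC).toAlgebra
  let j : K →ₐ[k] ℂ := IsAlgClosed.lift
  have hj : (fun i i' => (a i i' : ℂ)) = fun i i' => (j : K →+* ℂ) (algebraMap ℤ K (a i i')) := by
    funext i i'
    simp
  have hinjK : Function.Injective (algebraMap ℤ K) := by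
    rw [IsScalarTower.algebraMap_eq ℤ k K]
    exact (algebraMap k K).injective.comp (IsFractionRing.injective ℤ k)
  refine ⟨?_, ?_, ?_, ?_⟩
  · apply GoodInfty.of_map (j : K →+* ℂ)
    rw [← hj]
    exact h.infty
  · apply GoodHess.of_map (j : K →+* ℂ)
    rw [← hj]
    exact h.hess
  · apply GoodVal.of_map (j : K →+* ℂ)
    rw [← hj]
    exact h.value
  · apply HasCrit.descend hinjK
    intro M hM
    refine ⟨ℂ, inferInstance, Int.castRingHom ℂ, ?_, ?_⟩
    · simpa using hM
    · rw [intCast_coeffs]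
      exact h.crit

/-- **Pencils of plane curves.** -/
theorem plane_pencils (d : ℕ) (hd : 3 ≤ d) : ∃ C₀ : ℝ, ∀ κ η : ℝ, 0 < κ → 0 < η →
    ∀ a : ℕ → ℕ → ℤ, IsMorse d (fun i j => (a i j : ℂ)) → ∃ C : ℝ, ∀ H : ℕ, 1 ≤ H →
      ({c : ℤ | |c| ≤ H ∧ ¬ FreyHolds d κ C₀ a c}.ncard : ℝ) ≤
        C * (H : ℝ) ^ ((genus d : ℝ) / (3 * κ) + η) := by
  classical
  obtain ⟨C₀, hC₀, hcore⟩ := core d hd
  refine ⟨C₀, ?_⟩
  intro κ η hκ hη a hM
  obtain ⟨M, R, N, hM0, hR0, hfam, hbad⟩ := family d (by omega) a (isMorse_descend d a hM)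
  -- bounds
  obtain ⟨B, hB⟩ : ∃ B : ℕ, ∀ i j, i + j ≤ d → |a i j| ≤ B := by
    refine ⟨∑ i ∈ range (d + 1), ∑ j ∈ range (d + 1), (a i j).natAbs, ?_⟩
    intro i j hij
    have h1 : (a i j).natAbs ≤ ∑ j ∈ range (d + 1), (a i j).natAbs :=
      single_le_sum (f := fun j => (a i j).natAbs) (fun _ _ => Nat.zero_le _)
        (mem_range.mpr (by omega))
    have h2 : ∑ j ∈ range (d + 1), (a i j).natAbs ≤
        ∑ i ∈ range (d + 1), ∑ j ∈ range (d + 1), (a i j).natAbs :=
      single_le_sum (f := fun i => ∑ j ∈ range (d + 1), (a i j).natAbs)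
        (fun _ _ => Nat.zero_le _) (mem_range.mpr (by omega))
    have h3 := h1.trans h2
    rw [← Int.natCast_natAbs]
    exact_mod_cast h3
  set L : ℕ := B + 1 with hL
  obtain ⟨C1, B1, hR⟩ := poly_bound (σ := Fin 0) (R.map MvPolynomial.C)
  obtain ⟨C, hC, hmain⟩ := hcore κ η hκ hη C1 B1 M.natAbs 0 R.natDegree N
  set G : ℝ := (genus d : ℝ) / (3 * κ) with hG
  have hG0 : 0 ≤ G := by positivity
  refine ⟨2 * L + 1 + C * ((L : ℝ) ^ 2) ^ G, ?_⟩
  intro H hH
  have hH1 : (1 : ℝ) ≤ H := by exact_mod_cast hH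
  have hH0 : (0 : ℝ) < H := by linarith
  have hset : {c : ℤ | |c| ≤ H ∧ ¬ FreyHolds d κ C₀ a c} =
      (((Finset.Icc (-(H : ℤ)) H).filter (fun c => ¬ FreyHolds d κ C₀ a c) : Finset ℤ) :
        Set ℤ) := by
    ext c
    simp only [Set.mem_ofPred_eq, Finset.coe_filter, Finset.mem_Icc, abs_le]
  rw [hset, Set.ncard_coe_finset]
  have hpow1 : 1 ≤ (H : ℝ) ^ (G + η) := Real.one_le_rpow hH1 (by positivity)
  have hL2 : (0 : ℝ) ≤ ((L : ℝ) ^ 2) ^ G := by positivity
  rcases le_or_gt L H with hLH | hLH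
  · have h1 := hmain H L (by omega) hLH a R M.natAbs
      (fun i j hij => (hB i j hij).trans (by rw [hL]; push_cast; linarith)) hM.infty
      (Int.natAbs_pos.mpr hM0) (by simp) le_rfl hR0 (by
        intro c hc
        rw [Finset.mem_Icc] at hc
        have h2 := hR H (fun i => i.elim0) c hH (fun i => i.elim0) (by omega)
        rw [Polynomial.map_map] at h2
        have h3 : (MvPolynomial.eval (fun i : Fin 0 => (i.elim0 : ℤ))).comp
            (MvPolynomial.C : ℤ →+* MvPolynomial (Fin 0) ℤ) = RingHom.id ℤ := RingHom.ext_int _ _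
        rw [h3, Polynomial.map_id] at h2
        exact h2) (by
        intro p c hp hpM hpR
        have := node_of_dvd d a M R (fun Ω _ φ hφ => hfam Ω φ hφ) (RingHom.id ℤ) p c hp
          (by simpa using hpM) (by simpa using hpR)
        simpa using this) (by
        obtain ⟨Bad, h1, h2⟩ := hbad (Int.castRingHom ℂ) (by simpa using hM0)
        refine ⟨Bad, h1, ?_⟩
        rw [intCast_coeffs] at h2
        exact h2)
    calc _ ≤ C * (H : ℝ) ^ η * ((H : ℝ) * L ^ 2) ^ G := h1
      _ = C * ((L : ℝ) ^ 2) ^ G * (H : ℝ) ^ (G + η) := by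
          rw [Real.mul_rpow hH0.le (by positivity), Real.rpow_add hH0]
          ring
      _ ≤ _ := by
          gcongr
          have : (0 : ℝ) ≤ 2 * L + 1 := by positivity
          linarith
  · calc (((Finset.Icc (-(H : ℤ)) H).filter (fun c => ¬ FreyHolds d κ C₀ a c)).card : ℝ)
        ≤ ((Finset.Icc (-(H : ℤ)) H).card : ℝ) := by
          exact_mod_cast Finset.card_filter_le _ _
      _ = 2 * H + 1 := by
          rw [Int.card_Icc]
          have : ((H : ℤ) + 1 - (-(H : ℤ))).toNat = 2 * H + 1 := by omega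
          rw [this]
          push_cast
          ring
      _ ≤ (2 * L + 1) * 1 := by
          have : (H : ℝ) ≤ L := by exact_mod_cast hLH.le
          linarith
      _ ≤ (2 * L + 1 + C * ((L : ℝ) ^ 2) ^ G) * (H : ℝ) ^ (G + η) := by
          have h0 : 0 ≤ C * ((L : ℝ) ^ 2) ^ G := by positivity
          exact mul_le_mul (by linarith) hpow1 (by norm_num) (by positivity)

end Pool.Agent.Helper5Plane
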