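import Pool.Agent.Helper5_Plane.Alg

/-!
# Generic smoothness and generic separability
-/

namespace Pool.Agent.Helper5Plane

open Finset Polynomial

section YPoly

variable {R : Type*} [CommRing R]

/-- The polynomial in `y` obtained by fixing `x`. -/
noncomputable def ypoly (d : ℕ) (a : ℕ → ℕ → R) (x : R) : R[X] :=
  val d (fun i j => C (a i j)) (C x) X

lemma ypoly_eval₂ {S : Type*} [CommRing S] (φ : R →+* S) (d : ℕ) (a : ℕ → ℕ → R) (x : R) (y : S) :
    (ypoly d a x).eval₂ φ y = val d (fun i j => φ (a i j)) (φ x) y := by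
  have := map_val (eval₂RingHom φ y) d (fun i j => C (a i j)) (C x) X
  rw [ypoly]
  simpa using this

lemma ypoly_eval (d : ℕ) (a : ℕ → ℕ → R) (x y : R) : (ypoly d a x).eval y = val d a x y := by
  have := ypoly_eval₂ (RingHom.id R) d a x y
  simpa using this

lemma ypoly_coeff (d : ℕ) (a : ℕ → ℕ → R) (x : R) (n : ℕ) :
    (ypoly d a x).coeff n = ∑ i ∈ range (d + 1 - n), a i n * x ^ i := by
  have h1 : (ypoly d a x).coeff n =
      ∑ i ∈ range (d + 1), if n < d + 1 - i then a i n * x ^ i else 0 := by
    simp only [ypoly, val, finsetSum_coeff]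
    refine sum_congr rfl fun i _ => ?_
    have : ∀ j ∈ range (d + 1 - i), (C (a i j) * C x ^ i * (X : R[X]) ^ j).coeff n =
        if j = n then a i n * x ^ i else 0 := by
      intro j _
      rw [← C_pow, ← C_mul, coeff_C_mul, coeff_X_pow]
      by_cases h : j = n
      · subst h
        simp
      · simp [h, Ne.symm h]
    rw [sum_congr rfl this, sum_ite_eq']
    simp [mem_range]
  rw [h1, ← sum_filter]
  apply sum_congr _ (fun _ _ => rfl)
  ext i
  simp only [mem_filter, mem_range]
  omega

lemma ypoly_natDegree_le (d : ℕ) (a : ℕ → ℕ → R) (x : R) : (ypoly d a x).natDegree ≤ d := by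
  rw [natDegree_le_iff_coeff_eq_zero]
  intro n hn
  rw [ypoly_coeff, show d + 1 - n = 0 by omega]
  simp

lemma ypoly_derivative (d : ℕ) (hd : 1 ≤ d) (a : ℕ → ℕ → R) (x : R) :
    derivative (ypoly d a x) = ypoly (d - 1) (ay a) x := by
  have h := derivation_val (Polynomial.derivative' (R := R)) d hd (fun i j => C (a i j))
    (by intro i j; simp [derivative']) (C x) X
  have h1 : (Polynomial.derivative' (R := R)) (C x) = 0 := by
    simp [derivative']
  have h2 : (Polynomial.derivative' (R := R)) X = 1 := by
    simp [derivative']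
  rw [h1, h2, smul_zero, zero_add, smul_eq_mul, mul_one] at h
  have h3 : (Polynomial.derivative' (R := R)) (val d (fun i j => C (a i j)) (C x) X) =
      derivative (ypoly d a x) := rfl
  rw [h3] at h
  rw [h, ypoly]
  congr 1
  funext i j
  simp [ay]

end YPoly

lemma val_mem {A L : Type*} [CommRing A] [CommRing L] [Algebra A L] (S : Subalgebra A L) (d : ℕ)
    (a : ℕ → ℕ → L) (x y : L) (ha : ∀ i j, a i j ∈ S) (hx : x ∈ S) (hy : y ∈ S) :
    val d a x y ∈ S :=
  sum_mem fun i _ => sum_mem fun j _ => mul_mem (mul_mem (ha i j) (pow_mem hx i)) (pow_mem hy j)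

/-- **Generic smoothness.** -/
theorem smooth_fam {A : Type} [CommRing A] [IsDomain A] [CharZero A] (d : ℕ) (hd : 2 ≤ d)
    (a : ℕ → ℕ → A)
    (hH : GoodHess d (fun i j => algebraMap A (AlgebraicClosure (FractionRing A)) (a i j))) :
    ∃ S : A[X], S ≠ 0 ∧ ∀ (Ω : Type) [Field Ω] (φ : A →+* Ω) (c : Ω), eval₂ φ c S ≠ 0 →
      ∀ x y : Ω, val d (fun i j => φ (a i j)) x y + c = 0 →
        val (d - 1) (ax (fun i j => φ (a i j))) x y = 0 →
        val (d - 1) (ay (fun i j => φ (a i j))) x y ≠ 0 := by
  set k := FractionRing A with hk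
  set K := AlgebraicClosure k with hK
  set ak : ℕ → ℕ → k := fun i j => algebraMap A k (a i j) with hak
  have haK : (fun i j => algebraMap A K (a i j)) = fun i j => algebraMap k K (ak i j) := by
    funext i j
    exact IsScalarTower.algebraMap_apply A k K (a i j)
  rw [haK] at hH
  obtain ⟨M, hM, hMS⟩ := spread (B := k) K (algebraMap k K).injective
    ({val (d - 1) (ax (fun i j => MvPolynomial.C (ak i j))) (MvPolynomial.X 0)
          (MvPolynomial.X 1),
        val (d - 1) (ay (fun i j => MvPolynomial.C (ak i j))) (MvPolynomial.X 0)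
          (MvPolynomial.X 1),
        hess d (fun i j => MvPolynomial.C (ak i j)) (MvPolynomial.X 0) (MvPolynomial.X 1)} :
          Set (MvPolynomial (Fin 2) k)) (by
      rintro ⟨z, hz⟩
      have h1 := hz (val (d - 1) (ax (fun i j => MvPolynomial.C (ak i j))) (MvPolynomial.X 0)
          (MvPolynomial.X 1)) (by simp)
      have h2 := hz (val (d - 1) (ay (fun i j => MvPolynomial.C (ak i j))) (MvPolynomial.X 0)
          (MvPolynomial.X 1)) (by simp)
      have h3 := hz (hess d (fun i j => MvPolynomial.C (ak i j)) (MvPolynomial.X 0)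
        (MvPolynomial.X 1)) (by simp)
      rw [MvPolynomial.aeval_def] at h1 h2 h3
      simp only [ev_val, ev_hess, ev_ax, ev_ay, MvPolynomial.eval₂_X, MvPolynomial.eval₂_C]
        at h1 h2 h3
      exact hH _ _ h1 h2 h3)
  -- the generic fibre
  set L := AlgebraicClosure (FractionRing A[X]) with hL
  let b : ℕ → ℕ → MvPolynomial (Fin 2) A[X] := fun i j => MvPolynomial.C (C (a i j))
  have hinj : Function.Injective (algebraMap A[X] L) := by
    rw [IsScalarTower.algebraMap_eq A[X] (FractionRing A[X]) L]
    exact (algebraMap (FractionRing A[X]) L).injective.comp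
      (IsFractionRing.injective A[X] (FractionRing A[X]))
  have hAL : algebraMap A L = (algebraMap A[X] L).comp C := IsScalarTower.algebraMap_eq A A[X] L
  have hinjA : Function.Injective (algebraMap A L) := by
    rw [hAL]
    exact hinj.comp C_injective
  let algkL : Algebra k L := (IsFractionRing.lift hinjA).toAlgebra
  have towkL : IsScalarTower A k L := by
    apply IsScalarTower.of_algebraMap_eq
    intro r
    exact (IsFractionRing.lift_algebraMap hinjA r).symm
  obtain ⟨S, hS, hSS⟩ := spread_fam (A := A[X]) (K := L) hinj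
    ({val d b (MvPolynomial.X 0) (MvPolynomial.X 1) + MvPolynomial.C X,
      val (d - 1) (ax b) (MvPolynomial.X 0) (MvPolynomial.X 1),
      val (d - 1) (ay b) (MvPolynomial.X 0) (MvPolynomial.X 1)} :
        Set (MvPolynomial (Fin 2) A[X])) (by
      rintro ⟨z, hz⟩
      have h0 := hz (val d b (MvPolynomial.X 0) (MvPolynomial.X 1) + MvPolynomial.C X) (by simp)
      have h1 := hz (val (d - 1) (ax b) (MvPolynomial.X 0) (MvPolynomial.X 1)) (by simp)
      have h2 := hz (val (d - 1) (ay b) (MvPolynomial.X 0) (MvPolynomial.X 1)) (by simp)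
      simp only [ev_val, ev_ax, ev_ay, MvPolynomial.eval₂_X, MvPolynomial.eval₂_C, b,
        MvPolynomial.eval₂_add] at h0 h1 h2
      have haL : (fun i j => algebraMap A[X] L (C (a i j))) =
          fun i j => algebraMap k L (ak i j) := by
        funext i j
        rw [hak]
        exact (IsScalarTower.algebraMap_apply A k L (a i j))
      rw [haL] at h0 h1 h2
      obtain ⟨i0, i1⟩ := crit_integral (L := L) d hd ak M hM hMS (z 0) (z 1) h1 h2
      have halg : val d (fun i j => algebraMap k L (ak i j)) (z 0) (z 1) ∈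
          integralClosure k L := by
        apply val_mem
        · intro i j
          exact (integralClosure k L).algebraMap_mem (ak i j)
        · exact i0
        · exact i1
      have hT : IsIntegral k (algebraMap A[X] L X) := by
        have : algebraMap A[X] L X = - val d (fun i j => algebraMap k L (ak i j)) (z 0) (z 1) := by
          rw [eq_neg_iff_add_eq_zero, add_comm]
          exact h0
        rw [this]
        exact IsIntegral.neg halg
      have hT2 : IsAlgebraic A (algebraMap A[X] L X) :=
        (IsFractionRing.isAlgebraic_iff A k L).mpr hT.isAlgebraic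
      rw [isAlgebraic_algebraMap_iff hinj] at hT2
      exact transcendental_X A hT2)
  refine ⟨S, hS, ?_⟩
  intro Ω _ φ c hc x y hx hy hy'
  apply hSS Ω (eval₂RingHom φ c) hc
  refine ⟨![x, y], ?_⟩
  intro f hf
  simp only [Set.mem_insert_iff, Set.mem_singleton_iff] at hf
  rcases hf with rfl | rfl | rfl
  · simp only [ev_val, MvPolynomial.eval₂_X, MvPolynomial.eval₂_C, b,
        MvPolynomial.eval₂_add, coe_eval₂RingHom, eval₂_C, eval₂_X]
    exact hx
  · simp only [ev_val, ev_ax, MvPolynomial.eval₂_X, MvPolynomial.eval₂_C, b,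
        coe_eval₂RingHom, eval₂_C]
    exact hy
  · simp only [ev_val, ev_ay, MvPolynomial.eval₂_X, MvPolynomial.eval₂_C, b,
        coe_eval₂RingHom, eval₂_C]
    exact hy'

/-- Nonvanishing of the `y`-derivative. -/
lemma top_coeffs {K : Type*} [Field K] (d : ℕ) (hd : 2 ≤ d) (a : ℕ → ℕ → K)
    (h : GoodInfty d a) : a 0 d ≠ 0 ∨ a 1 (d - 1) ≠ 0 := by
  by_contra hne
  push Not at hne
  obtain ⟨h0, h1⟩ := hne
  have key : ∀ (e : ℕ) (b : ℕ → ℕ → K), topf e b 0 1 = b 0 e := by
    intro e b
    rw [topf, sum_eq_single_of_mem 0 (mem_range.mpr (by omega))]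
    · simp
    · intro i _ hi
      simp [hi]
  have := h 0 1 (by rw [key, h0]) (by rw [key, ax, zero_add, h1, mul_zero])
    (by
      rw [key, ay, show d - 1 + 1 = d by omega, h0, mul_zero])
  exact one_ne_zero this.2

/-- **Generic separability.** -/
theorem sep_fam {A : Type} [CommRing A] [IsDomain A] [CharZero A] (d : ℕ) (hd : 2 ≤ d)
    (a : ℕ → ℕ → A) (ha : a 0 d ≠ 0 ∨ a 1 (d - 1) ≠ 0) :
    ∃ S : A[X][X], S ≠ 0 ∧ ∀ (Ω : Type) [Field Ω] (φ : A →+* Ω) (x c : Ω),
      eval₂ (eval₂RingHom φ x) c S ≠ 0 →
      ∀ y : Ω, val d (fun i j => φ (a i j)) x y + c = 0 →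
        val (d - 1) (ay (fun i j => φ (a i j))) x y ≠ 0 := by
  set L := AlgebraicClosure (FractionRing A[X][X]) with hL
  let b : ℕ → ℕ → MvPolynomial (Fin 1) A[X][X] := fun i j => MvPolynomial.C (C (C (a i j)))
  have hinj : Function.Injective (algebraMap A[X][X] L) := by
    rw [IsScalarTower.algebraMap_eq A[X][X] (FractionRing A[X][X]) L]
    exact (algebraMap (FractionRing A[X][X]) L).injective.comp
      (IsFractionRing.injective A[X][X] (FractionRing A[X][X]))
  have hAL : algebraMap A[X] L = (algebraMap A[X][X] L).comp C :=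
    IsScalarTower.algebraMap_eq A[X] A[X][X] L
  have hinjA : Function.Injective (algebraMap A[X] L) := by
    rw [hAL]
    exact hinj.comp C_injective
  obtain ⟨S, hS, hSS⟩ := spread_fam (A := A[X][X]) (K := L) hinj
    ({val d b (MvPolynomial.C (C X)) (MvPolynomial.X 0) + MvPolynomial.C X,
      val (d - 1) (ay b) (MvPolynomial.C (C X)) (MvPolynomial.X 0)} :
        Set (MvPolynomial (Fin 1) A[X][X])) (by
      rintro ⟨z, hz⟩
      have h0 := hz (val d b (MvPolynomial.C (C X)) (MvPolynomial.X 0) + MvPolynomial.C X)
        (by simp)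
      have h1 := hz (val (d - 1) (ay b) (MvPolynomial.C (C X)) (MvPolynomial.X 0)) (by simp)
      simp only [ev_val, ev_ay, MvPolynomial.eval₂_X, MvPolynomial.eval₂_C, b,
        MvPolynomial.eval₂_add] at h0 h1
      -- the root is algebraic over `A[X]`
      have hy : IsAlgebraic A[X] (z 0) := by
        refine ⟨ypoly (d - 1) (ay (fun i j => C (a i j))) X, ?_, ?_⟩
        · intro h
          rcases ha with h2 | h2
          · have h3 := congrArg (fun p => coeff (coeff p (d - 1)) 0) h
            simp only [ypoly_coeff, coeff_zero] at h3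
            rw [show d - 1 + 1 - (d - 1) = 1 by omega] at h3
            simp only [range_one, sum_singleton, pow_zero, mul_one, ay,
              show d - 1 + 1 = d by omega] at h3
            rw [← C_eq_natCast, ← C_mul, coeff_C_zero] at h3
            have hd' : ((d : ℕ) : A) ≠ 0 := by
              rw [Nat.cast_ne_zero]
              omega
            exact (mul_ne_zero hd' h2) h3
          · have h3 := congrArg (fun p => coeff (coeff p (d - 2)) 1) h
            simp only [ypoly_coeff, coeff_zero] at h3
            rw [show d - 1 + 1 - (d - 2) = 2 by omega] at h3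
            simp only [sum_range_succ, range_zero, sum_empty, zero_add, pow_zero, mul_one, pow_one,
              ay, show d - 2 + 1 = d - 1 by omega] at h3
            rw [← C_eq_natCast, ← C_mul, ← C_mul, coeff_add, coeff_C_succ, coeff_C_mul,
              coeff_X_one, zero_add, mul_one] at h3
            have hd' : ((d - 1 : ℕ) : A) ≠ 0 := by
              rw [Nat.cast_ne_zero]
              omega
            exact (mul_ne_zero hd' h2) h3
        · rw [aeval_def, ypoly_eval₂, ← h1]
          congr 1
          funext i j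
          simp [ay, hAL]
      have halg : val d (fun i j => algebraMap A[X][X] L (C (C (a i j))))
          (algebraMap A[X][X] L (C X)) (z 0) ∈ Subalgebra.algebraicClosure A[X] L := by
        apply val_mem
        · intro i j
          exact (Subalgebra.algebraicClosure A[X] L).algebraMap_mem (C (a i j))
        · exact (Subalgebra.algebraicClosure A[X] L).algebraMap_mem X
        · exact hy
      have hT : IsAlgebraic A[X] (algebraMap A[X][X] L X) := by
        have : algebraMap A[X][X] L X = - val d (fun i j => algebraMap A[X][X] L (C (C (a i j))))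
          (algebraMap A[X][X] L (C X)) (z 0) := by
          rw [eq_neg_iff_add_eq_zero, add_comm]
          exact h0
        rw [this]
        exact IsAlgebraic.neg halg
      rw [isAlgebraic_algebraMap_iff hinj] at hT
      exact transcendental_X A[X] hT)
  refine ⟨S, hS, ?_⟩
  intro Ω _ φ x c hc y hy hy'
  apply hSS Ω (eval₂RingHom (eval₂RingHom φ x) c) hc
  refine ⟨![y], ?_⟩
  intro f hf
  simp only [Set.mem_insert_iff, Set.mem_singleton_iff] at hf
  rcases hf with rfl | rfl
  · simp only [ev_val, MvPolynomial.eval₂_X, MvPolynomial.eval₂_C, b,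
        MvPolynomial.eval₂_add, coe_eval₂RingHom, eval₂_C, eval₂_X]
    exact hy
  · simp only [ev_val, ev_ay, MvPolynomial.eval₂_X, MvPolynomial.eval₂_C, b,
        coe_eval₂RingHom, eval₂_C, eval₂_X]
    exact hy'

end Pool.Agent.Helper5Plane
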