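import Pool.Agent.Helper5_Plane.Val

/-!
# Spreading out the absence of common zeros
-/

namespace Pool.Agent.Helper5Plane

open MvPolynomial

attribute [local instance] MvPolynomial.algebraMvPolynomial

/-- A system of polynomials over a domain `B` without common zero over an algebraically closed
extension generates an ideal containing a nonzero constant. -/
theorem spread {B : Type*} [CommRing B] [IsDomain B] {σ : Type*} [Finite σ]
    (K : Type*) [Field K] [IsAlgClosed K] [Algebra B K] (hinj : Function.Injective (algebraMap B K))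
    (S : Set (MvPolynomial σ B)) (h : ¬ ∃ z : σ → K, ∀ f ∈ S, aeval z f = 0) :
    ∃ M : B, M ≠ 0 ∧ C M ∈ Ideal.span S := by
  classical
  let : Algebra (FractionRing B) K := (IsFractionRing.lift hinj).toAlgebra
  have : IsScalarTower B (FractionRing B) K := by
    apply IsScalarTower.of_algebraMap_eq
    intro x
    exact (IsFractionRing.lift_algebraMap hinj x).symm
  set k := FractionRing B
  let f : MvPolynomial σ B →+* MvPolynomial σ k := MvPolynomial.map (algebraMap B k)
  have htop : (Ideal.span S).map f = ⊤ := by
    by_contra hne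
    obtain ⟨J, hJ, hle⟩ := Ideal.exists_le_maximal _ hne
    obtain ⟨z, hz⟩ := eq_vanishingIdeal_singleton_of_isMaximal K hJ
    apply h
    refine ⟨z, ?_⟩
    intro g hg
    have h1 : f g ∈ J := hle (Ideal.mem_map_of_mem f (Ideal.subset_span hg))
    rw [hz, mem_vanishingIdeal_singleton_iff] at h1
    rw [← h1]
    show aeval z g = aeval z (MvPolynomial.map (algebraMap B k) g)
    rw [MvPolynomial.aeval_map_algebraMap]
  have hloc : IsLocalization ((nonZeroDivisors B).map (C : B →+* MvPolynomial σ B))
      (MvPolynomial σ k) := MvPolynomial.isLocalization _ _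
  have h1 : algebraMap (MvPolynomial σ B) (MvPolynomial σ k) 1 ∈
      (Ideal.span S).map (algebraMap (MvPolynomial σ B) (MvPolynomial σ k)) := by
    have : algebraMap (MvPolynomial σ B) (MvPolynomial σ k) = f := rfl
    rw [this, htop]
    trivial
  rw [IsLocalization.algebraMap_mem_map_algebraMap_iff
    ((nonZeroDivisors B).map (C : B →+* MvPolynomial σ B))] at h1
  obtain ⟨m, hm, hmS⟩ := h1
  obtain ⟨M, hM, rfl⟩ := hm
  refine ⟨M, nonZeroDivisors.ne_zero hM, ?_⟩
  simpa using hmS

/-- Evaluation of a constant in the ideal at a common zero. -/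
lemma spread_apply {B : Type*} [CommRing B] {σ : Type*} {S : Set (MvPolynomial σ B)} {M : B}
    (hM : C M ∈ Ideal.span S) {Ω : Type*} [CommRing Ω] (φ : B →+* Ω) (z : σ → Ω)
    (hz : ∀ f ∈ S, eval₂ φ z f = 0) : φ M = 0 := by
  have h : Ideal.span S ≤ RingHom.ker (eval₂Hom φ z) := by
    rw [Ideal.span_le]
    intro f hf
    exact hz f hf
  have := h hM
  rw [RingHom.mem_ker] at this
  simpa using this

end Pool.Agent.Helper5Plane
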