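import Pool.Agent.Helper5_Plane.Defs

/-!
# Polynomials in two variables given by their coefficients
-/

namespace Pool.Agent.Helper5Plane

open Finset

variable {R S : Type*} [CommRing R] [CommRing S]

/-- The homogenized polynomial. -/
def valh (d : ℕ) (a : ℕ → ℕ → R) (m x y : R) : R :=
  ∑ i ∈ range (d + 1), ∑ j ∈ range (d + 1 - i), a i j * m ^ (d - i - j) * x ^ i * y ^ j

lemma map_val (φ : R →+* S) (d : ℕ) (a : ℕ → ℕ → R) (x y : R) :
    φ (val d a x y) = val d (fun i j => φ (a i j)) (φ x) (φ y) := by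
  simp [val, map_sum]

lemma map_valh (φ : R →+* S) (d : ℕ) (a : ℕ → ℕ → R) (m x y : R) :
    φ (valh d a m x y) = valh d (fun i j => φ (a i j)) (φ m) (φ x) (φ y) := by
  simp [valh, map_sum]

lemma map_topf (φ : R →+* S) (d : ℕ) (a : ℕ → ℕ → R) (x y : R) :
    φ (topf d a x y) = topf d (fun i j => φ (a i j)) (φ x) (φ y) := by
  simp [topf, map_sum]

lemma map_ax (φ : R →+* S) (a : ℕ → ℕ → R) :
    (fun i j => φ (ax a i j)) = ax (fun i j => φ (a i j)) := by
  funext i j
  simp [ax]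

lemma map_ay (φ : R →+* S) (a : ℕ → ℕ → R) :
    (fun i j => φ (ay a i j)) = ay (fun i j => φ (a i j)) := by
  funext i j
  simp [ay]

lemma map_hess (φ : R →+* S) (d : ℕ) (a : ℕ → ℕ → R) (x y : R) :
    φ (hess d a x y) = hess d (fun i j => φ (a i j)) (φ x) (φ y) := by
  simp only [hess, map_sub, map_mul, map_pow, map_val, map_ax, map_ay]

lemma valh_mul (d : ℕ) (a : ℕ → ℕ → R) (m x y : R) :
    valh d a m (m * x) (m * y) = m ^ d * val d a x y := by
  simp only [valh, val, mul_sum]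
  refine sum_congr rfl fun i hi => sum_congr rfl fun j hj => ?_
  rw [mem_range] at hi hj
  have h : m ^ d = m ^ (d - i - j) * m ^ i * m ^ j := by
    rw [← pow_add, ← pow_add]
    congr 1
    omega
  rw [h, mul_pow, mul_pow]
  ring

lemma valh_one (d : ℕ) (a : ℕ → ℕ → R) (x y : R) : valh d a 1 x y = val d a x y := by
  simp [valh, val]

lemma sum_x (d : ℕ) (hd : 1 ≤ d) (a : ℕ → ℕ → R) (x y : R) :
    ∑ i ∈ range (d + 1), ∑ j ∈ range (d + 1 - i), a i j * ((i : R) * x ^ (i - 1)) * y ^ j =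
      val (d - 1) (ax a) x y := by
  obtain ⟨e, rfl⟩ : ∃ e, d = e + 1 := ⟨d - 1, by omega⟩
  rw [sum_range_succ']
  simp only [Nat.cast_zero, zero_mul, mul_zero, sum_const_zero, add_zero, Nat.add_sub_cancel, val]
  refine sum_congr rfl fun i hi => ?_
  rw [mem_range] at hi
  have h1 : e + 1 + 1 - (i + 1) = e + 1 - i := by omega
  rw [h1]
  refine sum_congr rfl fun j _ => ?_
  simp only [ax]
  ring

lemma sum_y (d : ℕ) (hd : 1 ≤ d) (a : ℕ → ℕ → R) (x y : R) :
    ∑ i ∈ range (d + 1), ∑ j ∈ range (d + 1 - i), a i j * x ^ i * ((j : R) * y ^ (j - 1)) =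
      val (d - 1) (ay a) x y := by
  obtain ⟨e, rfl⟩ : ∃ e, d = e + 1 := ⟨d - 1, by omega⟩
  rw [sum_range_succ]
  have hlast : ∑ j ∈ range (e + 1 + 1 - (e + 1)), a (e + 1) j * x ^ (e + 1) *
      ((j : R) * y ^ (j - 1)) = 0 := by
    have h1 : e + 1 + 1 - (e + 1) = 1 := by omega
    rw [h1]
    simp
  rw [hlast, add_zero]
  simp only [Nat.add_sub_cancel, val]
  refine sum_congr rfl fun i hi => ?_
  rw [mem_range] at hi
  have h1 : e + 1 + 1 - i = (e + 1 - i) + 1 := by omega
  rw [h1, sum_range_succ']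
  simp only [Nat.cast_zero, zero_mul, mul_zero, add_zero]
  refine sum_congr rfl fun j _ => ?_
  simp only [ay, Nat.add_sub_cancel]
  ring

/-- The chain rule. -/
lemma derivation_val {R₀ M : Type*} [CommRing R₀] [Algebra R₀ R] [AddCommGroup M] [Module R₀ M]
    [Module R M] (D : Derivation R₀ R M) (d : ℕ) (hd : 1 ≤ d) (a : ℕ → ℕ → R)
    (ha : ∀ i j, D (a i j) = 0) (x y : R) :
    D (val d a x y) = val (d - 1) (ax a) x y • D x + val (d - 1) (ay a) x y • D y := by
  rw [← sum_x d hd, ← sum_y d hd, val, map_sum, sum_smul, sum_smul, ← sum_add_distrib]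
  refine sum_congr rfl fun i _ => ?_
  rw [map_sum, sum_smul, sum_smul, ← sum_add_distrib]
  refine sum_congr rfl fun j _ => ?_
  rw [Derivation.leibniz, Derivation.leibniz, Derivation.leibniz_pow, Derivation.leibniz_pow, ha,
    smul_zero, add_zero]
  simp only [smul_smul, ← Nat.cast_smul_eq_nsmul R]
  rw [add_comm]
  congr 1
  congr 1
  ring

end Pool.Agent.Helper5Plane
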